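import Pool.Agent.Helper1.DP.Struct

/-!
The position of a point of `Y` over a finite set is determined by polynomially many cuts.
-/

open FirstOrder FirstOrder.Language Set

namespace Pool.Agent.Helper1.DP

section

variable {X : Type} [LinearOrder X]

/-- the diagonal relation on a set -/
def diag {X : Type} (S : Set X) : Set (X × X) := (fun s => (s, s)) '' S

/-- values of pairs of elements of a set -/
def vals (S : Set (H X)) : Set X := {x | ∃ s ∈ S, ∃ t ∈ S, FD (co s) (co t) x}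

lemma valRel_diag (S : Set (H X)) : valRel (diag S) ⊆ diag (vals S) := by
  rintro r ⟨_, ⟨s, hs, rfl⟩, _, ⟨t, ht, rfl⟩, h1, h2⟩
  exact ⟨r.1, ⟨s, hs, t, ht, h1⟩, Prod.ext rfl (h1.unique h2)⟩

lemma ordGood_diag (S : Set X) : OrdGood (diag S) := by
  rintro _ ⟨s, hs, rfl⟩ _ ⟨t, ht, rfl⟩
  exact Iff.rfl

lemma ordGood_insert_diag {S : Set X} {x x' : X} (h : ∀ a ∈ S, (x < a ↔ x' < a) ∧
    (a < x ↔ a < x')) : OrdGood (insert (x, x') (diag S)) := by
  intro r hr s hs
  rcases mem_insert_iff.1 hr with rfl | ⟨a, ha, rfl⟩ <;>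
    rcases mem_insert_iff.1 hs with rfl | ⟨b, hb, rfl⟩
  · simp
  · exact (h b hb).1
  · exact (h a ha).2
  · exact Iff.rfl

lemma eq_of_cmp {S : Set X} {x x' : X} (h : ∀ a ∈ S, (x < a ↔ x' < a) ∧ (a < x ↔ a < x'))
    (hx : x ∈ S) : x = x' := by
  have h1 := h x hx
  simp only [lt_irrefl, false_iff, not_lt] at h1
  exact le_antisymm h1.1 h1.2

lemma eq_of_cmp' {S : Set X} {x x' : X} (h : ∀ a ∈ S, (x < a ↔ x' < a) ∧ (a < x ↔ a < x'))
    (hx : x' ∈ S) : x = x' := by
  have h1 := h x' hx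
  simp only [lt_irrefl, iff_false, not_lt] at h1
  exact le_antisymm h1.2 h1.1

lemma insert_diag_self {S : Set X} {x : X} (hx : x ∈ S) : insert (x, x) (diag S) = diag S :=
  insert_eq_of_mem ⟨x, hx, rfl⟩

/-- The step lemma. -/
lemma step {S : Set (H X)} {z z' : H X} (hfin : S.Finite) (hne : S.Nonempty) (hz : z ∉ S)
    (hz' : z' ∉ S) (hcomp : ∀ s ∈ S, ∀ a ∈ vals S,
      (((a : X) : WithTop X) < v (co z) (co s) ↔ ((a : X) : WithTop X) < v (co z') (co s))) :
    ∃ s0 ∈ S, ∃ γ γ' : X, FD (co z) (co s0) γ ∧ FD (co z') (co s0) γ' ∧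
      valRel (insert (z, z') (diag S)) ⊆ insert (γ, γ') (diag (vals S)) := by
  obtain ⟨s0, hs0, hmax⟩ := hfin.exists_maximalFor (fun s => v (co z) (co s)) S hne
  have hmax' : ∀ s ∈ S, v (co z) (co s) ≤ v (co z) (co s0) := by
    intro s hs
    rcases le_total (v (co z) (co s)) (v (co z) (co s0)) with h1 | h1
    · exact h1
    · exact hmax hs h1
  have hzne : ∀ s ∈ S, z ≠ s := fun s hs h => hz (h ▸ hs)
  have hzne' : ∀ s ∈ S, z' ≠ s := fun s hs h => hz' (h ▸ hs)
  obtain ⟨γ, hγ⟩ := exists_FD (hzne s0 hs0)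
  obtain ⟨γ', hγ'⟩ := exists_FD (hzne' s0 hs0)
  have hv := v_of_FD hγ
  have hv' := v_of_FD hγ'
  refine ⟨s0, hs0, γ, γ', hγ, hγ', ?_⟩
  -- the key claim
  have key : ∀ s ∈ S, ∀ x x', FD (co z) (co s) x → FD (co z') (co s) x' →
      (x, x') ∈ insert (γ, γ') (diag (vals S)) := by
    intro s hs x x' hx hx'
    have hvx := v_of_FD hx
    have hvx' := v_of_FD hx'
    rcases (hmax' s hs).lt_or_eq with hlt | heq
    · -- `v z s < v z s0`
      have h1 : v (co s) (co s0) = v (co s) (co z) :=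
        v_ultra (good_H _ _) (by rw [v_comm (co s)]; exact hlt)
      rw [v_comm (co s) (co z), hvx] at h1
      have hfd := FD_of_v h1
      have hmem : x ∈ vals S := ⟨s, hs, s0, hs0, hfd⟩
      have h2 : (x : WithTop X) < v (co z') (co s0) := by
        rw [← hcomp s0 hs0 x hmem, ← hvx]
        exact hlt
      have h3 : v (co s) (co z') = v (co s) (co s0) :=
        v_ultra (good_H _ _) (by rw [v_comm (co s0), h1]; exact h2)
      rw [v_comm (co s) (co z'), hvx', h1, WithTop.coe_inj] at h3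
      rw [h3]
      exact mem_insert_of_mem _ ⟨x, hmem, rfl⟩
    · have hxγ : x = γ := by
        rw [hvx, hv, WithTop.coe_inj] at heq
        exact heq
      subst hxγ
      have hx'γ : x' = γ' := by
        by_contra hne'
        rcases lt_or_gt_of_ne hne' with hlt | hlt
        · -- `v z' s < v z' s0`
          have h0 : v (co z') (co s) < v (co z') (co s0) := by
            rw [hvx', hv']
            exact WithTop.coe_lt_coe.2 hlt
          have h1 : v (co s) (co s0) = v (co s) (co z') :=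
            v_ultra (good_H _ _) (by rw [v_comm (co s)]; exact h0)
          rw [v_comm (co s) (co z'), hvx'] at h1
          have hmem : x' ∈ vals S := ⟨s, hs, s0, hs0, FD_of_v h1⟩
          have h2 : (x' : WithTop X) < v (co z) (co s0) := by
            rw [hcomp s0 hs0 x' hmem, ← hvx']
            exact h0
          have h3 : v (co s) (co z) = v (co s) (co s0) :=
            v_ultra (good_H _ _) (by rw [v_comm (co s0), h1]; exact h2)
          rw [v_comm (co s) (co z), h1, heq] at h3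
          rw [h3] at h2
          exact lt_irrefl _ h2
        · have h0 : v (co z') (co s0) < v (co z') (co s) := by
            rw [hvx', hv']
            exact WithTop.coe_lt_coe.2 hlt
          have h1 : v (co s0) (co s) = v (co s0) (co z') :=
            v_ultra (good_H _ _) (by rw [v_comm (co s0)]; exact h0)
          rw [v_comm (co s0) (co z'), hv'] at h1
          have hmem : γ' ∈ vals S := ⟨s0, hs0, s, hs, FD_of_v h1⟩
          have h2 : (γ' : WithTop X) < v (co z) (co s) := by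
            rw [hcomp s hs γ' hmem, ← hv']
            exact h0
          have h3 : v (co s0) (co z) = v (co s0) (co s) :=
            v_ultra (good_H _ _) (by rw [v_comm (co s), h1]; exact h2)
          rw [v_comm (co s0) (co z), h1, ← heq] at h3
          rw [h3] at h2
          exact lt_irrefl _ h2
      rw [hx'γ]
      exact mem_insert _ _
  rintro r ⟨p, hp, q, hq, h1, h2⟩
  rcases mem_insert_iff.1 hp with rfl | ⟨s, hs, rfl⟩ <;>
    rcases mem_insert_iff.1 hq with rfl | ⟨t, ht, rfl⟩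
  · exact absurd rfl h1.1
  · exact key t ht r.1 r.2 h1 h2
  · exact key s hs r.1 r.2 h1.symm h2.symm
  · exact mem_insert_of_mem _ (valRel_diag S ⟨(s, s), ⟨s, hs, rfl⟩, (t, t), ⟨t, ht, rfl⟩, h1, h2⟩)

lemma valRel_singleton (z z' : H X) : valRel {(z, z')} = ∅ := by
  rw [← subset_empty_iff]
  rintro r ⟨p, hp, q, hq, h1, h2⟩
  rw [mem_singleton_iff] at hp hq
  subst hp; subst hq
  exact absurd rfl h1.1

/-- convexity of balls -/
lemma v_mono_left {a b c : H X} (hab : a ≤ b) (hbc : b ≤ c) :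
    v (co a) (co c) ≤ v (co b) (co c) := by
  by_contra hlt
  rw [not_le] at hlt
  -- `v b c < v a c`, so `v b a = v b c`, and `b < c` gives `b < a`
  have h1 : v (co b) (co c) < v (co c) (co a) := by rwa [v_comm (co c)]
  have h2 := (lt_iff_of_v h1).1 (lt_of_le_of_ne hbc (by
    rintro rfl
    rw [v_self] at hlt
    exact not_top_lt hlt))
  exact absurd h2 (not_lt.2 hab)

lemma v_mono_right {a b c : H X} (hab : a ≤ b) (hbc : b ≤ c) :
    v (co c) (co a) ≤ v (co b) (co a) := by
  by_contra hlt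
  rw [not_le] at hlt
  have hne : a ≠ b := by
    rintro rfl
    rw [v_self] at hlt
    exact not_top_lt hlt
  have h0 : v (co b) (co c) = v (co b) (co a) :=
    v_ultra (good_H _ _) (by rw [v_comm (co a)]; exact hlt)
  have h1 : v (co b) (co c) < v (co c) (co a) := by rwa [h0]
  have h2 := (lt_iff_of_v h1)
  have h3 : b ≠ c := by
    rintro rfl
    exact lt_irrefl _ hlt
  have h4 := h2.1 (lt_of_le_of_ne hbc h3)
  exact absurd h4 (not_lt.2 hab)

end

/-- partial isomorphisms adding one point to a diagonal -/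
lemma piso_insert_diag {S : Set Y} {z z' : Y} (hfin : S.Finite)
    (c0 : ∀ s ∈ S, (z < s ↔ z' < s) ∧ (s < z ↔ s < z'))
    (c1 : ∀ s ∈ S, ∀ a ∈ vals S, (V1 (z, s) < (a : WithTop G) ↔ V1 (z', s) < (a : WithTop G)) ∧
      ((a : WithTop G) < V1 (z, s) ↔ (a : WithTop G) < V1 (z', s)))
    (c2 : ∀ s ∈ S, ∀ a ∈ vals S, ∀ δ ∈ vals (vals S),
      (DD (V1 (z, s)) (a : WithTop G) < (δ : WithTop ℚ) ↔
        DD (V1 (z', s)) (a : WithTop G) < (δ : WithTop ℚ)) ∧
      ((δ : WithTop ℚ) < DD (V1 (z, s)) (a : WithTop G) ↔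
        (δ : WithTop ℚ) < DD (V1 (z', s)) (a : WithTop G))) :
    PIso LL (insert (z, z') (diag S)) := by
  rw [piso_iff]
  have hdiagok : lift (lift OrdGood) (diag S) :=
    ⟨ordGood_diag S, ordGood_diag (vals S) |> fun h => fun r hr s hs =>
      h r (valRel_diag S hr) s (valRel_diag S hs),
      fun r hr s hs => ordGood_diag (vals (vals S)) r
        (valRel_diag _ (valRel_mono (valRel_diag S) hr)) s
        (valRel_diag _ (valRel_mono (valRel_diag S) hs))⟩
  by_cases hz : z ∈ S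
  · have := eq_of_cmp c0 hz
    subst this
    rw [insert_diag_self hz]
    exact hdiagok
  by_cases hz' : z' ∈ S
  · have := eq_of_cmp' c0 hz'
    subst this
    rw [insert_diag_self hz']
    exact hdiagok
  rcases S.eq_empty_or_nonempty with rfl | hne
  · have h1 : insert (z, z') (diag (∅ : Set Y)) = {(z, z')} := by
      simp [diag]
    rw [h1]
    refine ⟨?_, ?_, ?_⟩
    · rintro r hr s hs
      rw [mem_singleton_iff] at hr hs
      subst hr; subst hs
      simp
    · rw [valRel_singleton]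
      exact fun r hr => absurd hr (notMem_empty r)
    · rw [valRel_singleton]
      rintro r ⟨p, hp, _⟩
      exact absurd hp (notMem_empty p)
  obtain ⟨s0, hs0, γ, γ', hγ, hγ', hsub⟩ := step hfin hne hz hz' (fun s hs a ha => (c1 s hs a ha).2)
  have hVγ : V1 (z, s0) = (γ : WithTop G) := v_of_FD hγ
  have hVγ' : V1 (z', s0) = (γ' : WithTop G) := v_of_FD hγ'
  have c1' : ∀ a ∈ vals S, (γ < a ↔ γ' < a) ∧ (a < γ ↔ a < γ') := by
    intro a ha
    have := c1 s0 hs0 a ha
    rwa [hVγ, hVγ', WithTop.coe_lt_coe, WithTop.coe_lt_coe, WithTop.coe_lt_coe,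
      WithTop.coe_lt_coe] at this
  have c2' : ∀ a ∈ vals S, ∀ δ ∈ vals (vals S),
      (v (co γ) (co a) < (δ : WithTop ℚ) ↔ v (co γ') (co a) < (δ : WithTop ℚ)) ∧
      ((δ : WithTop ℚ) < v (co γ) (co a) ↔ (δ : WithTop ℚ) < v (co γ') (co a)) := by
    intro a ha δ hδ
    have := c2 s0 hs0 a ha δ hδ
    rwa [hVγ, hVγ', DD_coe, DD_coe] at this
  have hsub2 := valRel_mono hsub
  refine ⟨ordGood_insert_diag c0, ?_, ?_⟩
  · intro r hr s hs
    exact ordGood_insert_diag c1' r (hsub hr) s (hsub hs)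
  have hmain : OrdGood (valRel (insert (γ, γ') (diag (vals S)))) := by
    by_cases hγA : γ ∈ vals S
    · have := eq_of_cmp c1' hγA
      subst this
      rw [insert_diag_self hγA]
      exact fun r hr s hs => ordGood_diag _ r (valRel_diag _ hr) s (valRel_diag _ hs)
    by_cases hγA' : γ' ∈ vals S
    · have := eq_of_cmp' c1' hγA'
      subst this
      rw [insert_diag_self hγA']
      exact fun r hr s hs => ordGood_diag _ r (valRel_diag _ hr) s (valRel_diag _ hs)
    rcases (vals S).eq_empty_or_nonempty with hemp | hneA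
    · rw [hemp]
      have h1 : insert (γ, γ') (diag (∅ : Set G)) = {(γ, γ')} := by
        simp [diag]
      rw [h1, valRel_singleton]
      exact fun r hr => absurd hr (notMem_empty r)
    have hfinA : (vals S).Finite := by
      have h1 : vals S ⊆ Prod.fst '' (valRel (diag S)) := by
        rintro x ⟨s, hs, t, ht, h⟩
        exact ⟨(x, x), ⟨(s, s), ⟨s, hs, rfl⟩, (t, t), ⟨t, ht, rfl⟩, h, h⟩, rfl⟩
      exact ((valRel_finite (hfin.image _)).image _).subset h1
    obtain ⟨a0, ha0, δ, δ', hδ, hδ', hsub'⟩ := step hfinA hneA hγA hγA'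
      (fun a ha δ hδ => (c2' a ha δ hδ).2)
    intro r hr s hs
    refine ordGood_insert_diag ?_ r (hsub' hr) s (hsub' hs)
    intro e he
    have := c2' a0 ha0 e he
    rwa [v_of_FD hδ, v_of_FD hδ', WithTop.coe_lt_coe, WithTop.coe_lt_coe, WithTop.coe_lt_coe,
      WithTop.coe_lt_coe] at this
  exact fun r hr s hs => hmain r (hsub2 hr) s (hsub2 hs)

/-- upper sets of values -/
def J (c : Fin 7) (t : Fin 7 → Y) : Set (WithTop G) :=
  let a := V1 (t 1, t 2)
  let δ := V2 ((t 3, t 4), (t 5, t 6))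
  match c with
  | 0 => {γ | a < γ}
  | 1 => {γ | a ≤ γ}
  | 2 => {γ | γ = ⊤ ∨ (a < γ ∧ ¬ δ < DD γ a)}
  | 3 => {γ | a ≤ γ ∨ δ < DD γ a}
  | 4 => {γ | γ = ⊤ ∨ (a < γ ∧ DD γ a < δ)}
  | 5 => {γ | a ≤ γ ∨ ¬ DD γ a < δ}
  | 6 => ∅

lemma DD_mono_left {a γ γ' : WithTop G} (h : γ ≤ γ') (h' : γ' < a) : DD γ a ≤ DD γ' a := by
  cases a with
  | top => rw [DD_top_right, DD_top_right]
  | coe a =>
    cases γ' with
    | top => exact absurd h' not_top_lt
    | coe γ' =>
      cases γ with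
      | top => exact absurd h (by simp)
      | coe γ =>
        rw [DD_coe, DD_coe]
        exact v_mono_left (WithTop.coe_le_coe.1 h) (WithTop.coe_lt_coe.1 h').le

lemma DD_mono_right {a γ γ' : WithTop G} (ha : a < γ) (h : γ ≤ γ') (h' : γ' ≠ ⊤) :
    DD γ' a ≤ DD γ a := by
  cases a with
  | top => exact absurd ha not_top_lt
  | coe a =>
    cases γ' with
    | top => exact absurd rfl h'
    | coe γ' =>
      cases γ with
      | top => exact absurd h (by simp)
      | coe γ =>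
        rw [DD_coe, DD_coe]
        exact v_mono_right (WithTop.coe_lt_coe.1 ha).le (WithTop.coe_le_coe.1 h)

lemma isUpperSet_J (c : Fin 7) (t : Fin 7 → Y) : IsUpperSet (J c t) := by
  intro γ γ' hle hγ
  fin_cases c
  · exact lt_of_lt_of_le hγ hle
  · exact le_trans hγ hle
  · by_cases h : γ' = ⊤
    · exact Or.inl h
    right
    rcases hγ with h1 | ⟨h1, h2⟩
    · rw [h1, top_le_iff] at hle
      exact absurd hle h
    · exact ⟨lt_of_lt_of_le h1 hle, fun h3 => h2 (lt_of_lt_of_le h3 (DD_mono_right h1 hle h))⟩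
  · by_cases h : V1 (t 1, t 2) ≤ γ'
    · exact Or.inl h
    right
    rcases hγ with h1 | h1
    · exact absurd (le_trans h1 hle) h
    · exact lt_of_lt_of_le h1 (DD_mono_left hle (not_le.1 h))
  · by_cases h : γ' = ⊤
    · exact Or.inl h
    right
    rcases hγ with h1 | ⟨h1, h2⟩
    · rw [h1, top_le_iff] at hle
      exact absurd hle h
    · exact ⟨lt_of_lt_of_le h1 hle, lt_of_le_of_lt (DD_mono_right h1 hle h) h2⟩
  · by_cases h : V1 (t 1, t 2) ≤ γ'
    · exact Or.inl h
    right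
    rcases hγ with h1 | h1
    · exact absurd (le_trans h1 hle) h
    · exact fun h3 => h1 (lt_of_le_of_lt (DD_mono_left hle (not_le.1 h)) h3)
  · exact absurd hγ (notMem_empty _)

/-- the cuts -/
def cut (k : Bool × Fin 7) (t : Fin 7 → Y) : Set Y :=
  match k.1 with
  | true => {z | z ≤ t 0 ∨ V1 (z, t 0) ∈ J k.2 t}
  | false => {z | z < t 0 ∧ V1 (z, t 0) ∉ J k.2 t}

lemma isLowerSet_cut (k : Bool × Fin 7) (t : Fin 7 → Y) : IsLowerSet (cut k t) := by
  obtain ⟨b, c⟩ := k
  intro z z' hle hz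
  cases b
  · obtain ⟨h1, h2⟩ := hz
    refine ⟨lt_of_le_of_lt hle h1, fun h3 => h2 ?_⟩
    exact isUpperSet_J c t (v_mono_left hle h1.le) h3
  · by_cases h : z' ≤ t 0
    · exact Or.inl h
    right
    rcases hz with h1 | h1
    · exact absurd (le_trans hle h1) h
    · exact isUpperSet_J c t (v_mono_right (not_le.1 h).le hle) h1

/-- The cuts determine the position. -/
theorem piso_of_cuts {κ : Type} [Finite κ] {s : κ → Y} {z z' : Y}
    (h : ∀ (k : Bool × Fin 7) (w : Fin 7 → κ), z ∈ cut k (s ∘ w) ↔ z' ∈ cut k (s ∘ w)) :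
    PIso LL (insert (z, z') (diag (range s))) := by
  -- order
  have c0 : ∀ i, (z < s i ↔ z' < s i) ∧ (z ≤ s i ↔ z' ≤ s i) := by
    intro i
    have h1 := h (false, 6) (fun _ => i)
    have h2 := h (true, 6) (fun _ => i)
    simp only [cut, J, mem_ofPred_eq, notMem_empty, not_false_eq_true, and_true, or_false,
      Function.comp_apply, mem_empty_iff_false] at h1 h2
    exact ⟨h1, h2⟩
  have c0' : ∀ s' ∈ range s, (z < s' ↔ z' < s') ∧ (s' < z ↔ s' < z') := by
    rintro _ ⟨i, rfl⟩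
    refine ⟨(c0 i).1, ?_⟩
    rw [← not_le, ← not_le, (c0 i).2]
  -- membership in upper sets
  have hJ : ∀ (i : κ) (w : Fin 7 → κ), w 0 = i → ∀ c : Fin 7,
      (V1 (z, s i) ∈ J c (s ∘ w) ↔ V1 (z', s i) ∈ J c (s ∘ w)) := by
    rintro i w rfl c
    rcases lt_trichotomy z (s (w 0)) with hlt | heq | hgt
    · have hlt' := (c0 (w 0)).1.1 hlt
      have h1 := h (false, c) w
      simp only [cut, mem_ofPred_eq, Function.comp_apply, hlt, hlt', true_and] at h1
      exact not_iff_not.1 h1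
    · have : z' = z := by
        rw [heq]
        exact (eq_of_cmp' (S := {s (w 0)}) (x := z') (x' := s (w 0)) (fun a ha => by
          rw [mem_singleton_iff] at ha
          subst ha
          have := c0' _ ⟨w 0, rfl⟩
          rw [heq] at this
          exact ⟨this.1.symm, this.2.symm⟩) rfl)
      rw [this]
    · have hgt' : ¬ z' ≤ s (w 0) := by
        rw [← (c0 (w 0)).2]
        exact not_le.2 hgt
      have h1 := h (true, c) w
      simp only [cut, mem_ofPred_eq, Function.comp_apply, not_le.2 hgt, hgt', false_or] at h1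
      exact h1
  apply piso_insert_diag (finite_range s) c0'
  · rintro _ ⟨i, rfl⟩ a ⟨_, ⟨j, rfl⟩, _, ⟨l, rfl⟩, ha⟩
    have hVa : V1 (s j, s l) = (a : WithTop G) := v_of_FD ha
    have h1 := hJ i ![i, j, l, i, i, i, i] rfl 1
    have h2 := hJ i ![i, j, l, i, i, i, i] rfl 0
    have e1 : (s ∘ ![i, j, l, i, i, i, i]) 1 = s j := rfl
    have e2 : (s ∘ ![i, j, l, i, i, i, i]) 2 = s l := rfl
    simp only [J, mem_ofPred_eq, e1, e2, hVa] at h1 h2
    refine ⟨?_, h2⟩
    rw [← not_le, ← not_le, h1]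
  · rintro _ ⟨i, rfl⟩ a ⟨_, ⟨j, rfl⟩, _, ⟨l, rfl⟩, ha⟩ δ
      ⟨b, ⟨_, ⟨j1, rfl⟩, _, ⟨l1, rfl⟩, hb⟩, b', ⟨_, ⟨j2, rfl⟩, _, ⟨l2, rfl⟩, hb'⟩, hδ⟩
    have hVa : V1 (s j, s l) = (a : WithTop G) := v_of_FD ha
    have hVb : V1 (s j1, s l1) = (b : WithTop G) := v_of_FD hb
    have hVb' : V1 (s j2, s l2) = (b' : WithTop G) := v_of_FD hb'
    have hVδ : V2 ((s j1, s l1), (s j2, s l2)) = (δ : WithTop ℚ) := by
      rw [V2, hVb, hVb', DD_coe, v_of_FD hδ]
    have hJ' := hJ i ![i, j, l, j1, l1, j2, l2] rfl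
    have h1 := hJ' 1
    have h0 := hJ' 0
    have h2 := hJ' 2
    have h3 := hJ' 3
    have h4 := hJ' 4
    have h5 := hJ' 5
    have hiy := hJ i ![i, i, i, i, i, i, i] rfl 1
    have e1 : (s ∘ ![i, j, l, j1, l1, j2, l2]) 1 = s j := rfl
    have e2 : (s ∘ ![i, j, l, j1, l1, j2, l2]) 2 = s l := rfl
    have e3 : (s ∘ ![i, j, l, j1, l1, j2, l2]) 3 = s j1 := rfl
    have e4 : (s ∘ ![i, j, l, j1, l1, j2, l2]) 4 = s l1 := rfl
    have e5 : (s ∘ ![i, j, l, j1, l1, j2, l2]) 5 = s j2 := rfl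
    have e6 : (s ∘ ![i, j, l, j1, l1, j2, l2]) 6 = s l2 := rfl
    have e1' : (s ∘ ![i, i, i, i, i, i, i]) 1 = s i := rfl
    have e2' : (s ∘ ![i, i, i, i, i, i, i]) 2 = s i := rfl
    simp only [J, mem_ofPred_eq, e1, e2, e3, e4, e5, e6, hVa, hVδ] at h0 h1 h2 h3 h4 h5
    have htop : V1 (s i, s i) = ⊤ := v_self _
    simp only [J, mem_ofPred_eq, e1', e2', htop, top_le_iff] at hiy
    generalize V1 (z, s i) = γ at *
    generalize V1 (z', s i) = γ' at *
    by_cases hγ : γ = ⊤
    · have hγ' := hiy.1 hγ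
      rw [hγ, hγ']
      exact ⟨Iff.rfl, Iff.rfl⟩
    have hγ' : ¬ γ' = ⊤ := fun h => hγ (hiy.2 h)
    rcases lt_trichotomy γ (a : WithTop G) with hlt | heq | hgt
    · have hlt' : γ' < (a : WithTop G) := by
        rw [← not_le, ← h1]
        exact not_le.2 hlt
      simp only [not_le.2 hlt, not_le.2 hlt', false_or] at h3 h5
      exact ⟨not_iff_not.1 h5, h3⟩
    · have heq' : γ' = (a : WithTop G) := by
        apply le_antisymm
        · rw [← not_lt, ← h0, heq]; exact lt_irrefl _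
        · rw [← h1, heq]
      rw [heq, heq']
      exact ⟨Iff.rfl, Iff.rfl⟩
    · have hgt' := h0.1 hgt
      simp only [hγ, hγ', hgt, hgt', false_or, true_and] at h2 h4
      exact ⟨h4, not_iff_not.1 h2⟩

end Pool.Agent.Helper1.DP
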