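import Pool.Agent.Helper1.DP.Vals
import Pool.Agent.Helper1.DP.Cuts

/-!
The branch `β` and first differences with it.
-/

open Set Filter

namespace Pool.Agent.Helper1.DP

lemma co_zero {X : Type} (x : X) : co (0 : H X) x = 0 := rfl

lemma co_single {X : Type} [DecidableEq X] (x y : X) (q : ℚ) :
    co (toLex (Finsupp.single x q) : H X) y = if x = y then q else 0 := by
  simp only [co, ofLex_toLex, Finsupp.single_apply]

/-- the support points of the branch -/
noncomputable def κ (n : ℕ) : G := toLex (Finsupp.single (-(n : ℚ)) (n : ℚ))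

lemma co_κ (n : ℕ) (x : ℚ) : co (κ n) x = if -(n : ℚ) = x then (n : ℚ) else 0 := co_single _ _ _

lemma κ_zero : κ 0 = 0 := by
  apply co_inj
  funext x
  rw [co_κ, co_zero]
  simp

/-- comparison with an element which vanishes up to `-n` -/
lemma lt_κ {γ : G} {n : ℕ} (hn : 0 < n) (h : ∀ x ≤ -(n : ℚ), co γ x = 0) : γ < κ n := by
  have hn' : (0 : ℚ) < n := by exact_mod_cast hn
  have hfd : FD (co γ) (co (κ n)) (-(n : ℚ)) := by
    refine ⟨?_, fun x hx => ?_⟩
    · rw [h _ le_rfl, co_κ, if_pos rfl]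
      exact hn'.ne
    · rw [h _ hx.le, co_κ, if_neg hx.ne']
  rw [lt_iff_of_FD hfd, h _ le_rfl, co_κ, if_pos rfl]
  exact hn'

lemma κ_strictMono : StrictMono κ := by
  intro n m hnm
  apply lt_κ (by omega)
  intro x hx
  rw [co_κ, if_neg]
  intro h
  have : (n : ℚ) < m := by exact_mod_cast hnm
  linarith

lemma κ_cofinal (γ : G) : ∃ n : ℕ, γ < κ n := by
  classical
  obtain ⟨n, hn⟩ : ∃ n : ℕ, ∀ x ∈ (ofLex γ).support, -(n : ℚ) < x := by
    have h1 : ∃ B : ℚ, ∀ x ∈ (ofLex γ).support, B < x := by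
      obtain ⟨B, hB⟩ := (ofLex γ).support.finite_toSet.bddBelow
      exact ⟨B - 1, fun x hx => by linarith [hB hx]⟩
    obtain ⟨B, hB⟩ := h1
    obtain ⟨n, hn⟩ := exists_nat_gt (-B)
    exact ⟨n, fun x hx => by linarith [hB x hx]⟩
  refine ⟨n + 1, lt_κ (Nat.succ_pos n) fun x hx => ?_⟩
  by_contra hc
  have h2 := hn x (Finsupp.mem_support_iff.2 hc)
  push_cast at hx
  linarith

lemma κ_tendsto : Tendsto κ atTop atTop := by
  rw [tendsto_atTop_atTop]
  intro γ
  obtain ⟨n, hn⟩ := κ_cofinal γ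
  exact ⟨n, fun m hm => hn.le.trans (κ_strictMono.monotone hm)⟩

lemma v_κ {n : ℕ} (hn : 0 < n) : v (co (κ n)) (co (0 : G)) = ((-(n : ℚ) : ℚ) : WithTop ℚ) := by
  apply v_of_FD
  refine ⟨?_, fun x hx => ?_⟩
  · rw [co_κ, if_pos rfl, co_zero]
    exact_mod_cast hn.ne'
  · rw [co_κ, if_neg hx.ne', co_zero]

/-- large elements of `G` have small distance index to `0` -/
lemma eventually_v_lt (δ : ℚ) : ∀ᶠ γ in (atTop : Filter G),
    v (co γ) (co (0 : G)) < (δ : WithTop ℚ) := by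
  obtain ⟨n, hn⟩ := exists_nat_gt (-δ)
  have hn0 : 0 < n + 1 := Nat.succ_pos n
  filter_upwards [eventually_ge_atTop (κ (n + 1))] with γ hγ
  have h0 : (0 : G) ≤ κ (n + 1) := by
    rw [← κ_zero]
    exact κ_strictMono.monotone (Nat.zero_le _)
  refine lt_of_le_of_lt (v_mono_right h0 hγ) ?_
  rw [v_κ hn0, WithTop.coe_lt_coe]
  push_cast
  linarith

open scoped Classical in
/-- the branch -/
noncomputable def β (g : G) : ℚ := if ∃ n : ℕ, g = κ n then 1 else 0

lemma β_κ (n : ℕ) : β (κ n) = 1 := by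
  rw [β, if_pos ⟨n, rfl⟩]

lemma β_ne {g : G} (h : β g ≠ 0) : ∃ n : ℕ, g = κ n := by
  by_contra hc
  exact h (by rw [β, if_neg hc])

open scoped Classical in
/-- truncations of the branch -/
noncomputable def trunc (N : ℕ) : Y :=
  toLex (Finsupp.onFinset ((Finset.range (N + 1)).image κ)
    (fun g => if g ≤ κ N then β g else 0) (by
      intro g hg
      split_ifs at hg with h1
      · obtain ⟨n, rfl⟩ := β_ne hg
        rw [Finset.mem_image]
        refine ⟨n, ?_, rfl⟩
        rw [Finset.mem_range]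
        have : n ≤ N := κ_strictMono.le_iff_le.1 h1
        omega
      · exact absurd rfl hg))

lemma trunc_apply {N : ℕ} {g : G} (h : g ≤ κ N) : co (trunc N) g = β g := by
  rw [trunc, co, ofLex_toLex, Finsupp.onFinset_apply, if_pos h]

lemma exists_FD_β (m : Y) : ∃ g, FD (co m) β g := by
  classical
  obtain ⟨N, hN⟩ : ∃ N : ℕ, co m (κ N) = 0 := by
    obtain ⟨x, ⟨N, rfl⟩, hx'⟩ := (Set.infinite_range_of_injective
      κ_strictMono.injective).exists_notMem_finset (ofLex m).support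
    exact ⟨N, Finsupp.notMem_support_iff.1 hx'⟩
  have hne : m ≠ trunc N := by
    intro h
    have h1 : co m (κ N) = co (trunc N) (κ N) := by rw [h]
    rw [hN, trunc_apply le_rfl, β_κ] at h1
    exact zero_ne_one h1
  obtain ⟨g, hg⟩ := exists_FD hne
  have hgN : g ≤ κ N := by
    by_contra hc
    rw [not_le] at hc
    have h1 := hg.2 (κ N) hc
    rw [hN, trunc_apply le_rfl, β_κ] at h1
    exact zero_ne_one h1
  refine ⟨g, ?_, fun g' hg' => ?_⟩
  · rw [← trunc_apply hgN]
    exact hg.1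
  · rw [← trunc_apply (hg'.le.trans hgN)]
    exact hg.2 g' hg'

/-- the first difference with the branch -/
noncomputable def w (m : Y) : G := (exists_FD_β m).choose

lemma w_spec (m : Y) : FD (co m) β (w m) := (exists_FD_β m).choose_spec

lemma v_β (m : Y) : v (co m) β = (w m : WithTop G) := v_of_FD (w_spec m)

lemma v_β' (m : Y) : v β (co m) = (w m : WithTop G) := v_of_FD (w_spec m).symm

lemma good_β (m : Y) : Good (co m) β := Or.inr ⟨w m, w_spec m⟩

/-- values far up the branch -/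
lemma V_far {m y : Y} (h : w y < w m) : V1 (y, m) = (w y : WithTop G) := by
  rw [← v_β y]
  apply v_ultra (good_β m).symm
  rw [v_β, v_β']
  exact WithTop.coe_lt_coe.2 h

lemma exists_le_κ (γ : G) : ∃ N : ℕ, γ ≤ κ N := by
  obtain ⟨n, hn⟩ := κ_cofinal γ
  exact ⟨n, hn.le⟩

/-- the point leaving the branch at `γ` -/
noncomputable def pt (γ : G) : Y :=
  toLex (ofLex (trunc (exists_le_κ γ).choose) + Finsupp.single γ 1)

lemma co_pt_lt {γ x : G} (h : x < γ) : co (pt γ) x = β x := by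
  classical
  have h1 := (exists_le_κ γ).choose_spec
  rw [← trunc_apply (h.le.trans h1)]
  simp only [co, pt, ofLex_toLex, Finsupp.add_apply, Finsupp.single_apply, if_neg h.ne', add_zero]

lemma co_pt_self (γ : G) : co (pt γ) γ = β γ + 1 := by
  classical
  have h1 := (exists_le_κ γ).choose_spec
  rw [← trunc_apply h1]
  simp only [co, pt, ofLex_toLex, Finsupp.add_apply, Finsupp.single_apply, if_true]

lemma w_pt (γ : G) : w (pt γ) = γ := by
  apply (w_spec (pt γ)).unique
  refine ⟨?_, fun x hx => co_pt_lt hx⟩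
  rw [co_pt_self]
  simp

lemma pt_anti {γ γ' : G} (h : γ < γ') : pt γ' < pt γ := by
  rw [lt_iff_exists]
  refine ⟨γ, ⟨?_, fun x hx => ?_⟩, ?_⟩
  · rw [co_pt_self, co_pt_lt h]
    simp
  · rw [co_pt_lt hx, co_pt_lt (hx.trans h)]
  · rw [co_pt_self, co_pt_lt h]
    simp

lemma V_trunc_lt_iff {N : ℕ} {m : Y} :
    V1 (m, trunc N) < ((κ N : G) : WithTop G) ↔ w m < κ N := by
  constructor
  · intro h
    have h' : v (co m) (co (trunc N)) < ((κ N : G) : WithTop G) := h
    obtain ⟨g, hg⟩ := exists_FD_of_ne_top (ne_top_of_lt h')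
    rw [v_of_FD hg, WithTop.coe_lt_coe] at h'
    refine lt_of_le_of_lt ?_ h'
    by_contra hc
    rw [not_le] at hc
    have h1 := (w_spec m).2 g hc
    rw [← trunc_apply h'.le] at h1
    exact hg.1 h1
  · intro h
    refine lt_of_le_of_lt (v_le_of_ne (good_H _ _) (x := w m) ?_) (WithTop.coe_lt_coe.2 h)
    rw [trunc_apply h.le]
    exact (w_spec m).1

lemma w_zero : w 0 = 0 := by
  apply (w_spec 0).unique
  have h0 : β (0 : G) = 1 := by rw [← κ_zero]; exact β_κ 0
  refine ⟨?_, fun g' hg' => ?_⟩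
  · rw [h0, co_zero]
    exact zero_ne_one
  · rw [co_zero]
    by_contra hc
    obtain ⟨n, rfl⟩ := β_ne (fun h => hc h.symm)
    rw [← κ_zero] at hg'
    have := κ_strictMono.lt_iff_lt.1 hg'
    omega

/-- the point of value `γ` over `0` -/
noncomputable def sg (γ : G) : Y := toLex (Finsupp.single γ 1)

lemma V_sg (γ : G) : V1 (sg γ, 0) = (γ : WithTop G) := by
  classical
  apply v_of_FD
  refine ⟨?_, fun g' hg' => ?_⟩
  · show co (sg γ) γ ≠ co 0 γ
    rw [sg, co_single, if_pos rfl, co_zero]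
    exact one_ne_zero
  · show co (sg γ) g' = co 0 g'
    rw [sg, co_single, if_neg hg'.ne', co_zero]

lemma V_sg_y {γ : G} {y : Y} (hg : 0 < γ) (hy : 0 < w y) :
    V1 (sg γ, y) = ((0 : G) : WithTop G) := by
  have h1 : V1 (y, 0) = ((0 : G) : WithTop G) := by
    have h2 := V_far (y := 0) (m := y) (by rw [w_zero]; exact hy)
    rw [w_zero] at h2
    rw [← h2]
    exact v_comm _ _
  rw [← h1]
  have h3 : V1 (y, sg γ) = V1 (y, 0) := by
    apply v_ultra (good_H _ _)
    have h4 : V1 (0, sg γ) = (γ : WithTop G) := by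
      rw [← V_sg γ]
      exact v_comm _ _
    show V1 (y, 0) < V1 (0, sg γ)
    rw [h1, h4]
    exact WithTop.coe_lt_coe.2 hg
  rw [← h3]
  exact v_comm _ _

/-- the element of `G` of distance index `g` to `0` -/
noncomputable def sgQ (g : ℚ) : G := toLex (Finsupp.single g 1)

lemma v_sgQ (g : ℚ) : v (co (sgQ g)) (co (0 : G)) = (g : WithTop ℚ) := by
  apply v_of_FD
  refine ⟨?_, fun g' hg' => ?_⟩
  · rw [sgQ, co_single, if_pos rfl, co_zero]
    exact one_ne_zero
  · rw [sgQ, co_single, if_neg hg'.ne', co_zero]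

lemma sgQ_anti {g g' : ℚ} (h : g < g') : sgQ g' < sgQ g := by
  rw [lt_iff_exists]
  refine ⟨g, ⟨?_, fun x hx => ?_⟩, ?_⟩
  · rw [sgQ, sgQ, co_single, co_single, if_neg h.ne', if_pos rfl]
    exact zero_ne_one
  · rw [sgQ, sgQ, co_single, co_single, if_neg (hx.trans h).ne', if_neg hx.ne']
  · rw [sgQ, sgQ, co_single, co_single, if_neg h.ne', if_pos rfl]
    exact zero_lt_one

lemma sgQ_pos (g : ℚ) : 0 < sgQ g := by
  rw [lt_iff_exists]
  refine ⟨g, (FD_of_v (v_sgQ g)).symm, ?_⟩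
  rw [sgQ, co_single, if_pos rfl, co_zero]
  exact zero_lt_one

/-- The three values attached to a pair of points. -/
noncomputable def aa (i : Fin 3) (y : Fin 2 → Y) : G :=
  match i with
  | 0 => w (y 0)
  | 1 => w (y 1)
  | 2 => (V1 (y 0, y 1)).untopD 0

lemma aa_two {y : Fin 2 → Y} (h : y 0 ≠ y 1) : V1 (y 0, y 1) = (aa 2 y : WithTop G) := by
  have h1 : V1 (y 0, y 1) ≠ ⊤ := by
    rw [Ne, V1_eq_top_iff]
    exact h
  obtain ⟨γ, hγ⟩ := WithTop.ne_top_iff_exists.1 h1
  show _ = (((V1 (y 0, y 1)).untopD 0 : G) : WithTop G)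
  rw [← hγ]
  rfl

lemma lt_aa_two {y : Fin 2 → Y} (h : y 0 ≠ y 1) {K : G} (h0 : K < w (y 0)) (h1 : K < w (y 1)) :
    K < aa 2 y := by
  have h2 := FD_of_v (aa_two h)
  by_contra hc
  rw [not_lt] at hc
  apply h2.1
  show co (y 0) (aa 2 y) = co (y 1) (aa 2 y)
  rw [(w_spec (y 0)).2 _ (lt_of_le_of_lt hc h0), (w_spec (y 1)).2 _ (lt_of_le_of_lt hc h1)]

lemma aa_tendsto {l : Filter (Fin 2 → Y)} (h : ∀ i, Tendsto (fun y : Fin 2 → Y => w (y i)) l atTop)
    (hne : ∀ᶠ y in l, y 0 ≠ y 1) (i : Fin 3) : Tendsto (aa i) l atTop := by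
  fin_cases i
  · exact h 0
  · exact h 1
  · rw [tendsto_atTop]
    intro K
    obtain ⟨n, hn⟩ := κ_cofinal K
    have e0 := (h 0).eventually (eventually_ge_atTop (κ n))
    have e1 := (h 1).eventually (eventually_ge_atTop (κ n))
    filter_upwards [e0, e1, hne] with y h0 h1 h2
    exact (lt_aa_two h2 (lt_of_lt_of_le hn h0) (lt_of_lt_of_le hn h1)).le

end Pool.Agent.Helper1.DP
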