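import Mathlib

/-!
The definition of a dp-minimal theory, through ICT patterns.
-/

open FirstOrder FirstOrder.Language Set

namespace Pool.Agent.Helper1.DP

universe w

/-- The theory `T` is dp-minimal: its models are infinite and for all formulas `φ(x; y)` and
`ψ(x; z)` with `x` a single variable (`y` of length `k`, `z` of length `l`) there is `N` such
that in no model of `T` there is an ICT pattern of two rows of length `N`, i.e. parameters `b m`,
`c m` (`m < N`) and elements `a i j` (`i, j < N`) such that `φ(a i j; b m)` holds exactly for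
`m = i` and `ψ(a i j; c m)` holds exactly for `m = j`. -/
def IsDpMinimal {L : FirstOrder.Language.{0, 0}} (T : L.Theory) : Prop :=
  (∀ (X : Type w) [L.Structure X] [X ⊨ T], Infinite X) ∧
  ∀ (k l : ℕ) (φ : L.Formula (Fin 1 ⊕ Fin k)) (ψ : L.Formula (Fin 1 ⊕ Fin l)), ∃ N : ℕ,
    ∀ (X : Type w) [L.Structure X] [X ⊨ T],
      ¬ ∃ (b : Fin N → Fin k → X) (c : Fin N → Fin l → X) (a : Fin N → Fin N → X),
        ∀ i j m, (φ.Realize (Sum.elim (fun _ => a i j) (b m)) ↔ m = i) ∧
          (ψ.Realize (Sum.elim (fun _ => a i j) (c m)) ↔ m = j)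

end Pool.Agent.Helper1.DP
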