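import Pool.Agent.Helper1.DP.Cuts
import Pool.Agent.Helper1.DP.DpDefs
import Pool.Agent.Helper1.CT.Defs

/-!
The theory of `Y` is dp-minimal and NIP, by counting cuts.
-/

open FirstOrder FirstOrder.Language Set
open Pool.Agent.Helper1.CT (IsNIP)

namespace Pool.Agent.Helper1.DP

universe w

open scoped Classical in
/-- number of cuts containing a point -/
noncomputable def cnt {I : Type} [Fintype I] (C : I → Set Y) (z : Y) : Fin (Fintype.card I + 1) :=
  ⟨(Finset.univ.filter fun i => z ∈ C i).card, Nat.lt_succ_of_le (Finset.card_le_univ _)⟩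

/-- Points with the same number of cuts above them lie in the same cuts. -/
lemma mem_iff_of_cnt {I : Type} [Fintype I] {C : I → Set Y} (hC : ∀ i, IsLowerSet (C i))
    {z z' : Y} (h : cnt C z = cnt C z') (i : I) : z ∈ C i ↔ z' ∈ C i := by
  classical
  have main : ∀ z z' : Y, z ≤ z' → cnt C z = cnt C z' → ∀ i, z ∈ C i ↔ z' ∈ C i := by
    intro z z' hle hcard i
    have hsub : (Finset.univ.filter fun i => z' ∈ C i) ⊆ (Finset.univ.filter fun i => z ∈ C i) := by
      intro j hj
      simp only [Finset.mem_filter, Finset.mem_univ, true_and] at hj ⊢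
      exact hC j hle hj
    have h1 := congrArg Fin.val hcard
    have heq := Finset.eq_of_subset_of_card_le hsub (by
      refine le_of_eq ?_
      simp only [cnt] at h1
      convert h1 using 1)
    have := congrArg (fun F => i ∈ F) heq
    simp only [Finset.mem_filter, Finset.mem_univ, true_and, eq_iff_iff] at this
    exact this.symm
  rcases le_total z z' with h1 | h1
  · exact main z z' h1 h i
  · exact (main z' z h1 h.symm i).symm

/-- Indices of cuts. -/
abbrev Ix (κ : Type) := (Bool × Fin 7) × (Fin 7 → κ)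

/-- from the position to the diagram -/
lemma sameDiag_of_piso {ι κ : Type} {s : κ → Y} {z z' : Y}
    (h : PIso LL (insert (z, z') (diag (range s)))) (g : κ ⊕ ι → Y) (g' : κ ⊕ ι → Y)
    (hg : ∀ i, g (Sum.inl i) = s i) (hg' : ∀ i, g' (Sum.inl i) = s i)
    (hz : ∀ j, g (Sum.inr j) = z) (hz' : ∀ j, g' (Sum.inr j) = z') : SameDiag LL g g' := by
  apply piso_graph_iff.1
  apply h.mono
  rintro _ ⟨i, rfl⟩
  rcases i with i | j
  · right
    show (g (Sum.inl i), g' (Sum.inl i)) ∈ _
    rw [hg, hg']
    exact ⟨s i, ⟨i, rfl⟩, rfl⟩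
  · left
    show (g (Sum.inr j), g' (Sum.inr j)) = _
    rw [hz, hz']

lemma infinite_Y : Infinite Y := by
  have : Infinite (G →₀ ℚ) := inferInstance
  exact this

lemma infinite_model (X : Type w) [LL.Structure X] [X ⊨ TT] : Infinite X := by
  have h1 : Infinite Y := infinite_Y
  have h2 : Y ⊨ LL.infiniteTheory := (model_infiniteTheory_iff (L := LL)).2 h1
  have h3 : X ⊨ LL.infiniteTheory := by
    rw [Theory.model_iff] at h2 ⊢
    intro φ hφ
    exact (realize_iff_of_model_completeTheory Y X φ).2 (h2 φ hφ)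
  exact (model_infiniteTheory_iff (L := LL)).1 h3

/-- The theory of `Y` is dp-minimal. -/
theorem dpMinimal_TT : IsDpMinimal.{w} TT := by
  classical
  refine ⟨fun X _ _ => infinite_model X, ?_⟩
  intro k l φ ψ
  set A := 14 * k ^ 7 with hA
  set B := 14 * l ^ 7 with hB
  refine ⟨A + B + 2, ?_⟩
  set N := A + B + 2 with hN
  intro X _ _ ⟨b, c, a, habc⟩
  -- transfer to `Y`
  let s : ((Fin N × Fin k) ⊕ (Fin N × Fin l)) ⊕ (Fin N × Fin N) → X :=
    Sum.elim (Sum.elim (fun p => b p.1 p.2) (fun p => c p.1 p.2)) (fun p => a p.1 p.2)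
  obtain ⟨t, ht⟩ := exists_sameDiag (L := LL) Y s
  let b' : Fin N → Fin k → Y := fun i j => t (Sum.inl (Sum.inl (i, j)))
  let c' : Fin N → Fin l → Y := fun i j => t (Sum.inl (Sum.inr (i, j)))
  let a' : Fin N → Fin N → Y := fun i j => t (Sum.inr (i, j))
  have h1 : ∀ i j m, φ.Realize (Sum.elim (fun _ => a' i j) (b' m)) ↔ m = i := by
    intro i j m
    rw [← (habc i j m).1]
    symm
    apply homog_Y.realize_iff_model
    have h1 := ht.comp (Sum.elim (fun _ : Fin 1 => Sum.inr (i, j))
      (fun j : Fin k => Sum.inl (Sum.inl (m, j))))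
    convert h1 using 1
    · funext j; rcases j with j | j <;> rfl
    · funext j; rcases j with j | j <;> rfl
  have h2 : ∀ i j m, ψ.Realize (Sum.elim (fun _ => a' i j) (c' m)) ↔ m = j := by
    intro i j m
    rw [← (habc i j m).2]
    symm
    apply homog_Y.realize_iff_model
    have h1 := ht.comp (Sum.elim (fun _ : Fin 1 => Sum.inr (i, j))
      (fun j : Fin l => Sum.inl (Sum.inr (m, j))))
    convert h1 using 1
    · funext j; rcases j with j | j <;> rfl
    · funext j; rcases j with j | j <;> rfl
  -- the cuts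
  let I := (Fin N × Ix (Fin k)) ⊕ (Fin N × Ix (Fin l))
  let C : I → Set Y := Sum.elim (fun p => cut p.2.1 (b' p.1 ∘ p.2.2))
    (fun p => cut p.2.1 (c' p.1 ∘ p.2.2))
  have hC : ∀ i, IsLowerSet (C i) := by
    rintro (p | p)
    · exact isLowerSet_cut _ _
    · exact isLowerSet_cut _ _
  have hinj : Function.Injective (fun p : Fin N × Fin N => cnt C (a' p.1 p.2)) := by
    rintro ⟨i, j⟩ ⟨i', j'⟩ hij
    have hmem := mem_iff_of_cnt hC hij
    have hb : i = i' := by
      have hp := piso_of_cuts (s := b' i) (z := a' i j) (z' := a' i' j')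
        (fun k w => hmem (Sum.inl (i, (k, w))))
      have hs := sameDiag_of_piso (ι := Fin 1) hp (Sum.elim (b' i) (fun _ => a' i j))
        (Sum.elim (b' i) (fun _ => a' i' j')) (fun _ => rfl) (fun _ => rfl) (fun _ => rfl)
        (fun _ => rfl)
      have hs2 : SameDiag LL (Sum.elim (fun _ : Fin 1 => a' i j) (b' i))
          (Sum.elim (fun _ : Fin 1 => a' i' j') (b' i)) := by
        have := hs.comp (Sum.swap : Fin 1 ⊕ Fin k → _)
        convert this using 1
        · funext j; rcases j with j | j <;> rfl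
        · funext j; rcases j with j | j <;> rfl
      have h3 := homog_Y.realize_iff φ hs2
      rw [h1, h1] at h3
      exact h3.1 rfl
    have hc : j = j' := by
      have hp := piso_of_cuts (s := c' j) (z := a' i j) (z' := a' i' j')
        (fun k w => hmem (Sum.inr (j, (k, w))))
      have hs := sameDiag_of_piso (ι := Fin 1) hp (Sum.elim (c' j) (fun _ => a' i j))
        (Sum.elim (c' j) (fun _ => a' i' j')) (fun _ => rfl) (fun _ => rfl) (fun _ => rfl)
        (fun _ => rfl)
      have hs2 : SameDiag LL (Sum.elim (fun _ : Fin 1 => a' i j) (c' j))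
          (Sum.elim (fun _ : Fin 1 => a' i' j') (c' j)) := by
        have := hs.comp (Sum.swap : Fin 1 ⊕ Fin l → _)
        convert this using 1
        · funext j; rcases j with j | j <;> rfl
        · funext j; rcases j with j | j <;> rfl
      have h3 := homog_Y.realize_iff ψ hs2
      rw [h2, h2] at h3
      exact h3.1 rfl
    rw [hb, hc]
  have hcard := Fintype.card_le_of_injective _ hinj
  have hI : Fintype.card I = N * (A + B) := by
    simp only [I, Ix, Fintype.card_sum, Fintype.card_prod, Fintype.card_fin, Fintype.card_bool,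
      Fintype.card_fun, hA, hB]
    ring
  rw [Fintype.card_prod, Fintype.card_fin, Fintype.card_fin, hI] at hcard
  have : N * N = N * (A + B) + 2 * N := by rw [hN]; ring
  omega

/-- codes for tuples over a finite set -/
lemma exists_code (l : ℕ) : ∀ {κ : Type} [Fintype κ] (s : κ → Y),
    ∃ code : (Fin l → Y) → Fin ((14 * (Fintype.card κ + l) ^ 7 + 1) ^ l),
    ∀ b b' : Fin l → Y, code b = code b' → SameDiag LL (Sum.elim s b) (Sum.elim s b') := by
  classical
  induction l with
  | zero =>
    intro κ _ s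
    refine ⟨fun _ => ⟨0, by simp⟩, fun b b' _ => ?_⟩
    have : b = b' := Subsingleton.elim _ _
    subst this
    exact SameDiag.refl _
  | succ l ih =>
    intro κ _ s
    -- one point
    let C : Ix κ → Set Y := fun p => cut p.1 (s ∘ p.2)
    have hC : ∀ i, IsLowerSet (C i) := fun i => isLowerSet_cut _ _
    -- representatives
    let rep : Fin (Fintype.card (Ix κ) + 1) → Y := fun c =>
      if h : ∃ z, cnt C z = c then h.choose else 0
    have hrep : ∀ z, cnt C (rep (cnt C z)) = cnt C z := by
      intro z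
      have hex : ∃ z', cnt C z' = cnt C z := ⟨z, rfl⟩
      simp only [rep, dif_pos hex]
      exact hex.choose_spec
    have hp : ∀ z, PIso LL (insert (z, rep (cnt C z)) (diag (range s))) := fun z =>
      piso_of_cuts (fun k w => mem_iff_of_cnt hC (hrep z).symm (k, w))
    have hz : ∀ z, SameDiag LL (Sum.elim s (fun _ : Unit => z))
        (Sum.elim s (fun _ : Unit => rep (cnt C z))) := fun z =>
      sameDiag_of_piso (ι := Unit) (hp z) _ _ (fun _ => rfl) (fun _ => rfl) (fun _ => rfl)
        (fun _ => rfl)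
    -- extension to tuples
    have hext : ∀ (n : ℕ) {ι : Type} [Finite ι] (u u' : ι → Y), SameDiag LL u u' →
        ∀ b : Fin n → Y, ∃ b' : Fin n → Y, SameDiag LL (Sum.elim u b) (Sum.elim u' b') := by
      intro n
      induction n with
      | zero =>
        intro ι _ u u' h b
        refine ⟨Fin.elim0, ?_⟩
        have := h.comp (fun i : ι ⊕ Fin 0 => Sum.elim id (fun j : Fin 0 => j.elim0) i)
        convert this using 1
        · funext j
          rcases j with j | j
          · rfl
          · exact j.elim0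
        · funext j
          rcases j with j | j
          · rfl
          · exact j.elim0
      | succ n ihn =>
        intro ι _ u u' h b
        obtain ⟨b', hb'⟩ := ihn u u' h (Fin.init b)
        obtain ⟨y, hy⟩ := homog_Y _ (finite_range _) (piso_graph_iff.2 hb') (b (Fin.last n))
        refine ⟨Fin.snoc b' y, ?_⟩
        apply piso_graph_iff.1
        apply hy.mono
        rintro _ ⟨i, rfl⟩
        rcases i with i | i
        · exact mem_insert_of_mem _ ⟨Sum.inl i, rfl⟩
        · refine Fin.lastCases ?_ (fun j => ?_) i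
          · left
            simp
          · refine mem_insert_of_mem _ ⟨Sum.inr j, ?_⟩
            simp [Fin.init]
    have hstep : ∀ b : Fin (l + 1) → Y, ∃ b' : Fin l → Y,
        SameDiag LL (Sum.elim (Sum.elim s (fun _ : Unit => b 0)) (Fin.tail b))
        (Sum.elim (Sum.elim s (fun _ : Unit => rep (cnt C (b 0)))) b') := fun b =>
      hext l _ _ (hz (b 0)) (Fin.tail b)
    choose tl htl using hstep
    choose code hcode using fun c : Fin (Fintype.card (Ix κ) + 1) =>
      ih (Sum.elim s (fun _ : Unit => rep c))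
    let pre : (Fin (l + 1) → Y) → Fin (Fintype.card (Ix κ) + 1) ×
        Fin ((14 * (Fintype.card (κ ⊕ Unit) + l) ^ 7 + 1) ^ l) := fun b =>
      (cnt C (b 0), code (cnt C (b 0)) (tl b))
    have hpre : ∀ b b', pre b = pre b' → SameDiag LL (Sum.elim s b) (Sum.elim s b') := by
      intro b b' hbb
      have h1 : cnt C (b 0) = cnt C (b' 0) := congrArg Prod.fst hbb
      have h2 : code (cnt C (b 0)) (tl b) = code (cnt C (b' 0)) (tl b') := congrArg Prod.snd hbb
      have h3 := htl b
      have h4 := htl b'
      rw [← h1] at h2 h4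
      have h5 := (h3.trans (hcode _ _ _ h2)).trans h4.symm
      have h6 := h5.comp (Sum.elim (fun i : κ => Sum.inl (Sum.inl i))
        (fun i : Fin (l + 1) => Fin.cases (Sum.inl (Sum.inr ())) (fun j => Sum.inr j) i))
      convert h6 using 1
      · funext i
        rcases i with i | i
        · rfl
        · refine Fin.cases ?_ (fun j => ?_) i <;> rfl
      · funext i
        rcases i with i | i
        · rfl
        · refine Fin.cases ?_ (fun j => ?_) i <;> rfl
    have hcard : Fintype.card (Fin (Fintype.card (Ix κ) + 1) ×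
        Fin ((14 * (Fintype.card (κ ⊕ Unit) + l) ^ 7 + 1) ^ l)) ≤
        (14 * (Fintype.card κ + (l + 1)) ^ 7 + 1) ^ (l + 1) := by
      have e1 : Fintype.card (Ix κ) = 14 * (Fintype.card κ) ^ 7 := by
        simp only [Ix, Fintype.card_prod, Fintype.card_fin, Fintype.card_bool, Fintype.card_fun]
      have e2 : Fintype.card (κ ⊕ Unit) + l = Fintype.card κ + (l + 1) := by
        rw [Fintype.card_sum, Fintype.card_unit]
        ring
      have h7 : (Fintype.card κ) ^ 7 ≤ (Fintype.card κ + (l + 1)) ^ 7 :=
        Nat.pow_le_pow_left (Nat.le_add_right _ _) 7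
      rw [Fintype.card_prod, Fintype.card_fin, Fintype.card_fin, e1, e2]
      calc (14 * Fintype.card κ ^ 7 + 1) * (14 * (Fintype.card κ + (l + 1)) ^ 7 + 1) ^ l
          ≤ (14 * (Fintype.card κ + (l + 1)) ^ 7 + 1) *
            (14 * (Fintype.card κ + (l + 1)) ^ 7 + 1) ^ l :=
            Nat.mul_le_mul_right _ (by omega)
        _ = (14 * (Fintype.card κ + (l + 1)) ^ 7 + 1) ^ (l + 1) := by ring
    obtain ⟨em⟩ : Nonempty ((Fin (Fintype.card (Ix κ) + 1) ×
        Fin ((14 * (Fintype.card (κ ⊕ Unit) + l) ^ 7 + 1) ^ l)) ↪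
        Fin ((14 * (Fintype.card κ + (l + 1)) ^ 7 + 1) ^ (l + 1))) := by
      apply Function.Embedding.nonempty_of_card_le
      rw [Fintype.card_fin]
      exact hcard
    exact ⟨fun b => em (pre b), fun b b' hbb => hpre b b' (em.injective hbb)⟩

/-- exponentials beat polynomials -/
lemma exists_pow_lt (a b c : ℕ) : ∃ N : ℕ, ((N * a + b) ^ c) < 2 ^ N := by
  have h := tendsto_pow_const_div_const_pow_of_one_lt c (r := 2) one_lt_two
  have hpos : (0 : ℝ) < 1 / ((a + b : ℕ) + 1 : ℝ) ^ c := by positivity
  have h2 := (h.eventually (gt_mem_nhds hpos)).and (Filter.eventually_ge_atTop 1)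
  obtain ⟨N, hN, hN1⟩ := h2.exists
  refine ⟨N, ?_⟩
  have h3 : ((N : ℝ) ^ c) * ((a + b : ℕ) + 1 : ℝ) ^ c < 2 ^ N := by
    rw [div_lt_div_iff₀ (by positivity) (by positivity)] at hN
    linarith
  have h4 : N * a + b ≤ N * (a + b + 1) := by nlinarith
  have h5 : (N * a + b) ^ c ≤ (N * (a + b + 1)) ^ c := Nat.pow_le_pow_left h4 c
  refine lt_of_le_of_lt h5 ?_
  rw [mul_pow]
  exact_mod_cast h3

/-- The theory is NIP. -/
theorem nip_TT : IsNIP.{w} TT := by
  classical
  intro k l φ
  obtain ⟨N, hN⟩ := exists_pow_lt k (l + 15) (8 * l)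
  refine ⟨N, ?_⟩
  intro X _ _ ⟨a, b, hab⟩
  -- transfer to `Y`
  let s : (Fin N × Fin k) ⊕ (Set (Fin N) × Fin l) → X :=
    Sum.elim (fun p => a p.1 p.2) (fun p => b p.1 p.2)
  obtain ⟨t, ht⟩ := exists_sameDiag (L := LL) Y s
  have hφ : ∀ i S, φ.Realize (Sum.elim (a i) (b S)) ↔
      φ.Realize (Sum.elim (fun j => t (Sum.inl (i, j))) (fun j => t (Sum.inr (S, j)))) := by
    intro i S
    apply homog_Y.realize_iff_model
    have h1 := ht.comp (Sum.elim (fun j : Fin k => Sum.inl (i, j)) (fun j : Fin l => Sum.inr (S, j)))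
    convert h1 using 1
    · funext j; rcases j with j | j <;> rfl
    · funext j; rcases j with j | j <;> rfl
  -- base points
  let s0 : (Fin N × Fin k) → Y := fun p => t (Sum.inl p)
  obtain ⟨code, hcode⟩ := exists_code l s0
  have hinj : Function.Injective (fun S : Set (Fin N) => code (fun j => t (Sum.inr (S, j)))) := by
    intro S S' hSS
    have h1 := hcode _ _ hSS
    ext i
    rw [← hab i S, ← hab i S', hφ i S, hφ i S']
    apply homog_Y.realize_iff
    have h2 := h1.comp (Sum.elim (fun j : Fin k => Sum.inl (i, j))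
      (fun j : Fin l => Sum.inr j))
    convert h2 using 1
    · funext j; rcases j with j | j <;> rfl
    · funext j; rcases j with j | j <;> rfl
  have hcard := Fintype.card_le_of_injective _ hinj
  rw [Fintype.card_set, Fintype.card_fin, Fintype.card_fin] at hcard
  have h5 : Fintype.card (Fin N × Fin k) = N * k := by
    simp
  rw [h5] at hcard
  have h6 : 14 * (N * k + l) ^ 7 + 1 ≤ (N * k + (l + 15)) ^ 8 := by
    set x := N * k + l with hx
    have : N * k + (l + 15) = x + 15 := by omega
    rw [this]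
    have h7 : x ^ 7 ≤ (x + 15) ^ 7 := Nat.pow_le_pow_left (Nat.le_add_right _ _) 7
    have h8 : 1 ≤ (x + 15) ^ 7 := Nat.one_le_pow _ _ (by omega)
    calc 14 * x ^ 7 + 1 ≤ 14 * (x + 15) ^ 7 + (x + 15) ^ 7 := by omega
      _ = 15 * (x + 15) ^ 7 := by ring
      _ ≤ (x + 15) * (x + 15) ^ 7 := Nat.mul_le_mul_right _ (by omega)
      _ = (x + 15) ^ 8 := by ring
  have h9 := Nat.pow_le_pow_left h6 l
  rw [← pow_mul] at h9
  omega

end Pool.Agent.Helper1.DP
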