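import Pool.Agent.Helper1.DP.Main

/-!
The final assembly.
-/

open FirstOrder FirstOrder.Language Set Filter Topology Cardinal
open Pool.Agent.Helper1.CT

namespace Pool.Agent.Helper1.DP

universe u

lemma vals_finite {X : Type} [LinearOrder X] {S : Set (H X)} (hfin : S.Finite) :
    (vals S).Finite := by
  have h1 : vals S ⊆ Prod.fst '' (valRel (diag S)) := by
    rintro x ⟨s, hs, t, ht, h⟩
    exact ⟨(x, x), ⟨(s, s), ⟨s, hs, rfl⟩, (t, t), ⟨t, ht, rfl⟩, h, h⟩, rfl⟩
  exact ((valRel_finite (hfin.image _)).image _).subset h1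

/-- the filter of pairs of points of the branch -/
noncomputable def branchFilter : Filter T2 :=
  (comap (fun y => w (y 0)) atTop ⊓ comap (fun y => w (y 1)) atTop) ⊓ 𝓟 {y | y 0 < y 1}

lemma branch_tendsto (i : Fin 2) : Tendsto (fun y : T2 => w (y i)) branchFilter atTop := by
  fin_cases i
  · exact tendsto_comap.mono_left (inf_le_left.trans inf_le_left)
  · exact tendsto_comap.mono_left (inf_le_left.trans inf_le_right)

lemma branch_lt : ∀ᶠ y : T2 in branchFilter, y 0 < y 1 :=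
  (inf_le_right : branchFilter ≤ 𝓟 {y | y 0 < y 1}) (mem_principal_self _)

lemma le_branch {l : Filter T2} (h : ∀ i, Tendsto (fun y : T2 => w (y i)) l atTop)
    (h' : ∀ᶠ y in l, y 0 < y 1) : l ≤ branchFilter := by
  refine le_inf (le_inf (tendsto_iff_comap.1 (h 0)) (tendsto_iff_comap.1 (h 1))) ?_
  rw [le_principal_iff]
  exact h'

/-- the second element of `G` used in the construction -/
noncomputable def κ' (n : ℕ) (q : ℚ) : G := κ n + sgQ q

lemma FD_κ' (n : ℕ) (q : ℚ) : FD (co (κ' n q)) (co (κ n)) q ∧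
    co (κ n) q < co (κ' n q) q := by
  have h1 : ∀ x, co (κ' n q) x = co (κ n) x + co (sgQ q) x := fun x => rfl
  have h2 : co (sgQ q) q = 1 := by rw [sgQ, co_single, if_pos rfl]
  refine ⟨⟨?_, fun x hx => ?_⟩, ?_⟩
  · rw [h1, h2]
    simp
  · rw [h1, sgQ, co_single, if_neg hx.ne', add_zero]
  · rw [h1, h2]
    simp

lemma κ_lt_κ' (n : ℕ) (q : ℚ) : κ n < κ' n q := by
  rw [lt_iff_exists]
  exact ⟨q, (FD_κ' n q).1.symm, (FD_κ' n q).2⟩

/-- the pairs of points used in the construction -/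
noncomputable def pp (n : ℕ) (q : ℚ) : T2 := ![pt (κ' n q), pt (κ n)]

lemma w_pp0 (n : ℕ) (q : ℚ) : w (pp n q 0) = κ' n q := w_pt _

lemma w_pp1 (n : ℕ) (q : ℚ) : w (pp n q 1) = κ n := w_pt _

lemma pp_lt (n : ℕ) (q : ℚ) : pp n q 0 < pp n q 1 := pt_anti (κ_lt_κ' n q)

lemma pp_tendsto (q : ℕ → ℚ) (i : Fin 2) :
    Tendsto (fun n => w (pp n (q n) i)) atTop atTop := by
  fin_cases i
  · refine tendsto_atTop_mono (fun n => ?_) κ_tendsto
    show κ n ≤ w (pp n (q n) 0)
    rw [w_pp0]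
    exact (κ_lt_κ' n _).le
  · refine tendsto_atTop_mono (fun n => ?_) κ_tendsto
    show κ n ≤ w (pp n (q n) 1)
    rw [w_pp1]

instance : NeBot branchFilter := by
  have h : map (fun n => pp n 0) (atTop : Filter ℕ) ≤ branchFilter := by
    apply le_branch
    · intro i
      rw [tendsto_map'_iff]
      exact pp_tendsto (fun _ => 0) i
    · rw [eventually_map]
      exact Eventually.of_forall fun n => pp_lt n 0
  exact neBot_of_le h

/-- values attached to a finite set of points -/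
def AA (S : Set Y) : Set G := vals S ∪ w '' S

lemma AA_finite {S : Set Y} (hfin : S.Finite) : (AA S).Finite :=
  (vals_finite hfin).union (hfin.image _)

/-- pairs of points far up the branch -/
structure Far (S : Set Y) (y : T2) : Prop where
  lt : y 0 < y 1
  far : ∀ i, ∀ s ∈ S, w s < w (y i)
  top : v (co (aa 2 y)) (co (0 : G)) ≠ ⊤
  gt : ∀ a ∈ AA S, a < aa 2 y
  gt' : ∀ a ∈ AA S, v (co (aa 2 y)) (co (0 : G)) < v (co a) (co (0 : G))
  gt'' : ∀ e ∈ vals (AA S), v (co (aa 2 y)) (co (0 : G)) < (e : WithTop ℚ)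

lemma eventually_gt_G {l : Filter T2} {g : T2 → G} (h : Tendsto g l atTop) (γ : G) :
    ∀ᶠ y in l, γ < g y := by
  obtain ⟨n, hn⟩ := κ_cofinal γ
  exact (h.eventually (eventually_ge_atTop (κ n))).mono fun y hy => lt_of_lt_of_le hn hy

lemma eventually_far {S : Set Y} (hfin : S.Finite) : ∀ᶠ y in branchFilter, Far S y := by
  have hne : ∀ᶠ y : T2 in branchFilter, y 0 ≠ y 1 := branch_lt.mono fun y hy => hy.ne
  have hν := aa_tendsto branch_tendsto hne 2
  have h1 : ∀ᶠ y : T2 in branchFilter, ∀ i, ∀ s ∈ S, w s < w (y i) := by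
    rw [eventually_all]
    intro i
    rw [eventually_all_finite hfin]
    intro s _
    exact eventually_gt_G (branch_tendsto i) _
  have hD : ∀ δ : ℚ, ∀ᶠ y in branchFilter, v (co (aa 2 y)) (co (0 : G)) < (δ : WithTop ℚ) :=
    fun δ => hν.eventually (eventually_v_lt δ)
  have h2 : ∀ᶠ y : T2 in branchFilter, ∀ a ∈ AA S, a < aa 2 y := by
    rw [eventually_all_finite (AA_finite hfin)]
    intro a _
    exact eventually_gt_G hν _
  have h3 : ∀ᶠ y : T2 in branchFilter, ∀ a ∈ AA S,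
      v (co (aa 2 y)) (co (0 : G)) < v (co a) (co (0 : G)) := by
    rw [eventually_all_finite (AA_finite hfin)]
    intro a _
    by_cases h : v (co a) (co (0 : G)) = ⊤
    · rw [h]
      exact (hD 0).mono fun y hy => lt_of_lt_of_le hy le_top
    · obtain ⟨δ, hδ⟩ := WithTop.ne_top_iff_exists.1 h
      rw [← hδ]
      exact hD δ
  have h4 : ∀ᶠ y : T2 in branchFilter, ∀ e ∈ vals (AA S),
      v (co (aa 2 y)) (co (0 : G)) < (e : WithTop ℚ) := by
    rw [eventually_all_finite (vals_finite (AA_finite hfin))]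
    intro e _
    exact hD e
  filter_upwards [branch_lt, h1, h2, h3, h4, hD 0] with y e1 e2 e3 e4 e5 e6
  exact ⟨e1, e2, ne_top_of_lt e6, e3, e4, e5⟩

lemma Far.FD {S : Set Y} {y : T2} (h : Far S y) (i : Fin 2) {s : Y} (hs : s ∈ S) :
    FD (co (y i)) (co s) (w s) :=
  (FD_of_v (V_far (h.far i s hs))).symm

lemma Far.lt_iff {S : Set Y} {y : T2} (h : Far S y) (i : Fin 2) {s : Y} (hs : s ∈ S) :
    (y i < s ↔ β (w s) < co s (w s)) ∧ (s < y i ↔ co s (w s) < β (w s)) := by
  have h1 : co (y i) (w s) = β (w s) := (w_spec (y i)).2 _ (h.far i s hs)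
  rw [lt_iff_of_FD (h.FD i hs), lt_iff_of_FD (h.FD i hs).symm, h1]
  exact ⟨Iff.rfl, Iff.rfl⟩

/-- Far pairs of points have the same position. -/
lemma Far.piso {S : Set Y} {y y' : T2} (h : Far S y) (h' : Far S y') :
    PIso LL (insert (y 0, y' 0) (insert (y 1, y' 1) (diag S))) := by
  rw [piso_iff]
  have hsub : valRel (insert (y 0, y' 0) (insert (y 1, y' 1) (diag S))) ⊆
      insert (aa 2 y, aa 2 y') (diag (AA S)) := by
    have e01 : ∀ {y : T2}, Far S y → Pool.Agent.Helper1.DP.FD (co (y 0)) (co (y 1)) (aa 2 y) :=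
      fun hy => FD_of_v (aa_two hy.lt.ne)
    have hw : ∀ s ∈ S, w s ∈ AA S := fun s hs => Or.inr ⟨s, hs, rfl⟩
    rintro r ⟨p, hp, q, hq, h1, h2⟩
    rcases mem_insert_iff.1 hp with rfl | hp
    · rcases mem_insert_iff.1 hq with rfl | hq
      · exact absurd rfl h1.1
      · rcases mem_insert_iff.1 hq with rfl | ⟨s, hs, rfl⟩
        · left
          exact Prod.ext (h1.unique (e01 h)) (h2.unique (e01 h'))
        · right
          exact ⟨w s, hw s hs, Prod.ext ((h.FD 0 hs).unique h1) ((h'.FD 0 hs).unique h2)⟩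
    · rcases mem_insert_iff.1 hp with rfl | ⟨s, hs, rfl⟩
      · rcases mem_insert_iff.1 hq with rfl | hq
        · left
          exact Prod.ext (h1.symm.unique (e01 h)) (h2.symm.unique (e01 h'))
        · rcases mem_insert_iff.1 hq with rfl | ⟨s, hs, rfl⟩
          · exact absurd rfl h1.1
          · right
            exact ⟨w s, hw s hs, Prod.ext ((h.FD 1 hs).unique h1) ((h'.FD 1 hs).unique h2)⟩
      · rcases mem_insert_iff.1 hq with rfl | hq
        · right
          exact ⟨w s, hw s hs, Prod.ext ((h.FD 0 hs).unique h1.symm)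
            ((h'.FD 0 hs).unique h2.symm)⟩
        · rcases mem_insert_iff.1 hq with rfl | ⟨t, ht, rfl⟩
          · right
            exact ⟨w s, hw s hs, Prod.ext ((h.FD 1 hs).unique h1.symm)
              ((h'.FD 1 hs).unique h2.symm)⟩
          · right
            exact ⟨r.1, Or.inl ⟨s, hs, t, ht, h1⟩, Prod.ext rfl (h1.unique h2)⟩
  refine ⟨?_, ?_, ?_⟩
  · intro r hr s hs
    rcases mem_insert_iff.1 hr with rfl | hr
    · rcases mem_insert_iff.1 hs with rfl | hs
      · simp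
      · rcases mem_insert_iff.1 hs with rfl | ⟨t, ht, rfl⟩
        · exact ⟨fun _ => h'.lt, fun _ => h.lt⟩
        · exact (h.lt_iff 0 ht).1.trans (h'.lt_iff 0 ht).1.symm
    · rcases mem_insert_iff.1 hr with rfl | ⟨t, ht, rfl⟩
      · rcases mem_insert_iff.1 hs with rfl | hs
        · exact ⟨fun hc => absurd hc (lt_asymm h.lt), fun hc => absurd hc (lt_asymm h'.lt)⟩
        · rcases mem_insert_iff.1 hs with rfl | ⟨t, ht, rfl⟩
          · simp
          · exact (h.lt_iff 1 ht).1.trans (h'.lt_iff 1 ht).1.symm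
      · rcases mem_insert_iff.1 hs with rfl | hs
        · exact (h.lt_iff 0 ht).2.trans (h'.lt_iff 0 ht).2.symm
        · rcases mem_insert_iff.1 hs with rfl | ⟨t', ht', rfl⟩
          · exact (h.lt_iff 1 ht).2.trans (h'.lt_iff 1 ht).2.symm
          · exact Iff.rfl
  · have h1 : OrdGood (insert (aa 2 y, aa 2 y') (diag (AA S))) := by
      apply ordGood_insert_diag
      intro a ha
      exact ⟨⟨fun hc => absurd hc (lt_asymm (h.gt a ha)),
        fun hc => absurd hc (lt_asymm (h'.gt a ha))⟩, ⟨fun _ => h'.gt a ha, fun _ => h.gt a ha⟩⟩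
    exact fun r hr s hs => h1 r (hsub hr) s (hsub hs)
  · obtain ⟨δ, hδ⟩ := WithTop.ne_top_iff_exists.1 h.top
    obtain ⟨δ', hδ'⟩ := WithTop.ne_top_iff_exists.1 h'.top
    have hfd : ∀ a ∈ AA S, Pool.Agent.Helper1.DP.FD (co (aa 2 y)) (co a) δ ∧
        Pool.Agent.Helper1.DP.FD (co (aa 2 y')) (co a) δ' := by
      intro a ha
      constructor
      · apply FD_of_v
        rw [hδ]
        apply v_ultra (good_H _ _)
        rw [v_comm (co 0) (co a)]
        exact h.gt' a ha
      · apply FD_of_v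
        rw [hδ']
        apply v_ultra (good_H _ _)
        rw [v_comm (co 0) (co a)]
        exact h'.gt' a ha
    have hsub2 : valRel (insert (aa 2 y, aa 2 y') (diag (AA S))) ⊆
        insert (δ, δ') (diag (vals (AA S))) := by
      rintro r ⟨p, hp, q, hq, h1, h2⟩
      rcases mem_insert_iff.1 hp with rfl | ⟨a, ha, rfl⟩
      · rcases mem_insert_iff.1 hq with rfl | ⟨b, hb, rfl⟩
        · exact absurd rfl h1.1
        · left
          exact Prod.ext (h1.unique (hfd b hb).1) (h2.unique (hfd b hb).2)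
      · rcases mem_insert_iff.1 hq with rfl | ⟨b, hb, rfl⟩
        · left
          exact Prod.ext (h1.symm.unique (hfd a ha).1) (h2.symm.unique (hfd a ha).2)
        · right
          exact ⟨r.1, ⟨a, ha, b, hb, h1⟩, Prod.ext rfl (h1.unique h2)⟩
    have h1 : OrdGood (insert (δ, δ') (diag (vals (AA S)))) := by
      apply ordGood_insert_diag
      intro e he
      have g1 := h.gt'' e he
      have g2 := h'.gt'' e he
      rw [← hδ, WithTop.coe_lt_coe] at g1
      rw [← hδ', WithTop.coe_lt_coe] at g2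
      exact ⟨⟨fun _ => g2, fun _ => g1⟩, ⟨fun hc => absurd hc (lt_asymm g1),
        fun hc => absurd hc (lt_asymm g2)⟩⟩
    exact fun r hr s hs => h1 r (hsub2 (valRel_mono hsub hr)) s (hsub2 (valRel_mono hsub hs))

section

variable {U : Type u} [LL.Structure U] [U ⊨ TT] (f : Y ↪ₑ[LL] U)

omit [U ⊨ TT] in
lemma mem_range_elim (c : range f) : ∃ y : Y, f y = c := c.2

omit [U ⊨ TT] in
lemma definable_Lt0 {B : Set U} {κ' : Type} (a b : B ⊕ κ') :
    B.Definable LL {v : κ' → U | Lt0 (Sum.elim (fun c : B => (c : U)) v a)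
      (Sum.elim (fun c : B => (c : U)) v b)} := by
  have h := definable_rel (B := B) (Rel.R0) ![a, b]
  convert h using 1
  ext v
  simp only [mem_ofPred_eq]
  rw [relMap_eq_Lt0]
  rfl

include f in
/-- a definable set over the small model is eventually constant along the branch -/
lemma branch_const {S : Set (Fin 2 → U)} (hS : (range f).Definable LL S) :
    (∀ᶠ y in branchFilter, f ∘ y ∈ S) ∨ (∀ᶠ y in branchFilter, f ∘ y ∈ Sᶜ) := by
  rw [definable_iff_exists_formula_sum] at hS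
  obtain ⟨φ, rfl⟩ := hS
  obtain ⟨F, hF⟩ := homog_Y.exists_finset φ
  choose pre hpre using mem_range_elim f
  let tup : T2 → (range f ⊕ Fin 2) → Y := fun y => Sum.elim pre y
  have hval : ∀ y, (Sum.elim (fun c : range f => (c : U)) (f ∘ y)) = fun i => f (tup y i) := by
    intro m
    funext i
    rcases i with i | i
    · exact (hpre i).symm
    · rfl
  let S0 : Set Y := (fun i => Sum.elim pre (fun _ : Fin 2 => (0 : Y)) i) '' (F : Set (range f ⊕ Fin 2))
  have hS0 : S0.Finite := F.finite_toSet.image _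
  have hfar := eventually_far hS0
  have hdiag : ∀ y y' : T2, Far S0 y → Far S0 y' →
      (φ.Realize (Sum.elim (fun c : range f => (c : U)) (f ∘ y)) ↔
        φ.Realize (Sum.elim (fun c : range f => (c : U)) (f ∘ y'))) := by
    intro y y' hy hy'
    apply hF
    rw [hval, hval]
    have h1 : SameDiag LL (tup y ∘ ((↑) : F → _)) (tup y' ∘ ((↑) : F → _)) := by
      apply piso_graph_iff.1
      apply (hy.piso hy').mono
      rintro _ ⟨⟨i, hi⟩, rfl⟩
      rcases i with c | j
      · right; right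
        exact ⟨pre c, ⟨Sum.inl c, hi, rfl⟩, rfl⟩
      · fin_cases j
        · exact mem_insert _ _
        · exact mem_insert_of_mem _ (mem_insert _ _)
    have h2 := sameDiag_map f (tup y ∘ ((↑) : F → _))
    have h3 := sameDiag_map f (tup y' ∘ ((↑) : F → _))
    exact (h2.trans h1).trans h3.symm
  obtain ⟨y0, hy0⟩ := hfar.exists
  by_cases h0 : φ.Realize (Sum.elim (fun c : range f => (c : U)) (f ∘ y0))
  · left
    filter_upwards [hfar] with y hy
    exact (hdiag y y0 hy hy0).2 h0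
  · right
    filter_upwards [hfar] with y hy
    intro hc
    exact h0 ((hdiag y y0 hy hy0).1 hc)

/-- The type over the small model of increasing pairs of points of the branch. -/
noncomputable def qType : TypeOver LL (range f) (Fin 2) where
  sets := {S | (range f).Definable LL S ∧ ∀ᶠ y in branchFilter, f ∘ y ∈ S}
  definable := fun S hS => hS.1
  inter_mem := fun S hS S' hS' => ⟨hS.1.inter hS'.1, hS.2.and hS'.2⟩
  mem_or_compl := by
    intro S hS
    rcases branch_const f hS with h | h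
    · exact Or.inl ⟨hS, h⟩
    · exact Or.inr ⟨hS.compl, h⟩
  empty_notMem := by
    rintro ⟨_, h⟩
    obtain ⟨m, hm⟩ := h.exists
    exact hm

/-- ultrafilters on the branch give coheirs -/
lemma isCoheir_of_le (𝒱 : Ultrafilter T2) (h𝒱 : (𝒱 : Filter T2) ≤ branchFilter) :
    IsCoheir (range f) (qType f) (ofUF f LL 𝒱) := by
  refine ⟨?_, finSat_ofUF f 𝒱⟩
  rintro S ⟨hS, hS'⟩
  exact ⟨hS.mono (subset_univ _), h𝒱 hS'⟩

/-- every coheir of `qType` is represented by an ultrafilter on the branch -/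
lemma exists_rep_coheir {r : GlobalType LL U (Fin 2)} (hr : IsCoheir (range f) (qType f) r) :
    ∃ 𝒱 : Ultrafilter T2, Rep f 𝒱 r ∧
      (∀ i, Tendsto (fun y : T2 => w (y i)) 𝒱 atTop) ∧ ∀ᶠ y in (𝒱 : Filter T2), y 0 < y 1 := by
  obtain ⟨𝒱, h𝒱⟩ := exists_rep f hr.2
  refine ⟨𝒱, h𝒱, fun i => ?_, ?_⟩
  · rw [tendsto_atTop]
    intro K
    obtain ⟨N, hN⟩ := κ_cofinal K
    let c1 : range f := ⟨f (trunc N), trunc N, rfl⟩
    let c2 : range f := ⟨f (sg (κ N)), sg (κ N), rfl⟩
    let c3 : range f := ⟨f 0, 0, rfl⟩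
    have hdef := (definable_Lt1 (B := range f) (Sum.inr i) (Sum.inl c1) (Sum.inl c2)
      (Sum.inl c3)).compl
    have hmem := hr.1 (a := _) (show _ ∈ (qType f).sets from ⟨hdef, by
      have h1 := eventually_gt_G (branch_tendsto i) (κ N)
      filter_upwards [h1] with y hy
      simp only [mem_compl_iff, mem_ofPred_eq, Sum.elim_inl, Sum.elim_inr, c1, c2, c3,
        Function.comp_apply, Lt1_map]
      rw [V_sg, V_trunc_lt_iff]
      exact hy.le.not_gt⟩)
    rw [h𝒱 _ (hdef.mono (subset_univ _))] at hmem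
    filter_upwards [hmem] with y hy
    simp only [mem_compl_iff, mem_ofPred_eq, Sum.elim_inl, Sum.elim_inr, c1, c2, c3,
      Function.comp_apply, Lt1_map] at hy
    rw [V_sg, V_trunc_lt_iff, not_lt] at hy
    exact hN.le.trans hy
  · have hdef := definable_Lt0 (B := range f) (κ' := Fin 2) (Sum.inr 0) (Sum.inr 1)
    have hmem := hr.1 (a := _) (show _ ∈ (qType f).sets from ⟨hdef, by
      filter_upwards [branch_lt] with y hy
      simp only [mem_ofPred_eq, Sum.elim_inr, Function.comp_apply, Lt0_map]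
      exact hy⟩)
    rw [h𝒱 _ (hdef.mono (subset_univ _))] at hmem
    filter_upwards [hmem] with y hy
    simp only [mem_ofPred_eq, Sum.elim_inr, Function.comp_apply, Lt0_map] at hy
    exact hy

omit [U ⊨ TT] in
/-- `Fin 1`-tuples and points -/
lemma ec_iff {𝒰 : Ultrafilter (Fin 1 → Y)} {𝒱 : Ultrafilter T2} {𝒲 : Ultrafilter ℚ}
    (h𝒰 : 𝒰 = 𝒲.map (fun g _ => sg (sgQ g))) {D : Set (Fin 1 ⊕ Fin 2 → U)} :
    ((∀ᶠ x in (𝒰 : Filter (Fin 1 → Y)), ∀ᶠ y in (𝒱 : Filter T2),
        Sum.elim (f ∘ x) (f ∘ y) ∈ D) ↔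
      ∀ᶠ g in (𝒲 : Filter ℚ), ∀ᶠ y in (𝒱 : Filter T2),
        Sum.elim (fun _ => f (sg (sgQ g))) (fun i => f (y i)) ∈ D) ∧
    ((∀ᶠ y in (𝒱 : Filter T2), ∀ᶠ x in (𝒰 : Filter (Fin 1 → Y)),
        Sum.elim (f ∘ x) (f ∘ y) ∈ D) ↔
      ∀ᶠ y in (𝒱 : Filter T2), ∀ᶠ g in (𝒲 : Filter ℚ),
        Sum.elim (fun _ => f (sg (sgQ g))) (fun i => f (y i)) ∈ D) := by
  subst h𝒰
  constructor
  · simp only [Ultrafilter.coe_map, eventually_map]
    exact Iff.rfl
  · simp only [Ultrafilter.coe_map, eventually_map]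
    exact Iff.rfl

/-- rational sequences decreasing to a real number -/
lemma exists_seq (s : ℝ) : ∃ g : ℕ → ℚ, Tendsto (fun n => (g n : ℝ)) atTop (𝓝[>] s) := by
  have h1 : ∀ n : ℕ, ∃ q : ℚ, s < q ∧ (q : ℝ) < s + 1 / ((n : ℝ) + 1) := by
    intro n
    apply exists_rat_btwn
    have : (0 : ℝ) < 1 / ((n : ℝ) + 1) := Nat.one_div_pos_of_nat
    linarith
  choose g hg using h1
  refine ⟨g, ?_⟩
  rw [tendsto_nhdsWithin_iff]
  refine ⟨?_, Eventually.of_forall fun n => (hg n).1⟩
  have h2 : Tendsto (fun n : ℕ => s + 1 / ((n : ℝ) + 1)) atTop (𝓝 s) := by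
    have := (tendsto_const_nhds (x := s)).add tendsto_one_div_add_atTop_nhds_zero_nat
    simpa using this
  exact tendsto_of_tendsto_of_tendsto_of_le_of_le tendsto_const_nhds h2
    (fun n => (hg n).1.le) (fun n => (hg n).2.le)

/-- The main statement for one monster model. -/
theorem main_statement (hU : IsSaturated LL U) (Q : Set (GlobalType LL U (Fin 2)))
    (hQ : ∀ r ∈ Q, IsCoheir (range f) (qType f) r) (hcard : #Q < 𝔠) :
    ∃ p : GlobalType LL U (Fin 1), IsInvariant (range f) p ∧ FinSat (range f) p ∧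
      (∀ r ∈ Q, Commute (range f) p r) ∧
      ∃ r, IsCoheir (range f) (qType f) r ∧ ¬ Commute (range f) p r := by
  classical
  -- representing ultrafilters
  have hrep : ∀ r : Q, ∃ 𝒱 : Ultrafilter T2, Rep f 𝒱 (r : GlobalType LL U (Fin 2)) ∧
      (∀ i, Tendsto (fun y : T2 => w (y i)) 𝒱 atTop) ∧ ∀ᶠ y in (𝒱 : Filter T2), y 0 < y 1 :=
    fun r => exists_rep_coheir f (hQ r r.2)
  choose UF hUF hUF' hUF'' using hrep
  -- a good `s`
  obtain ⟨s, hs⟩ : ∃ s : ℝ, ∀ (r : Q) (i j : Fin 3),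
      ¬ Tendsto (fun y : T2 => (((v (co (aa i y)) (co (aa j y))).untopD 0 : ℚ) : ℝ))
        (UF r) (𝓝[>] s) := by
    by_contra hcon
    push Not at hcon
    choose r i j hr using hcon
    have hinj : Function.Injective (fun s => (r s, i s, j s)) := by
      intro s s' hss
      simp only [Prod.mk.injEq] at hss
      have h1 := (hr s).mono_right nhdsWithin_le_nhds
      have h2 := (hr s').mono_right nhdsWithin_le_nhds
      rw [← hss.1, ← hss.2.1, ← hss.2.2] at h2
      exact tendsto_nhds_unique h1 h2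
    have hle := lift_mk_le_lift_mk_of_injective hinj
    rw [mk_real, lift_continuum] at hle
    have h3 : #(Q × Fin 3 × Fin 3) < 𝔠 := by
      rw [mk_prod, lift_uzero]
      exact mul_lt_of_lt aleph0_le_continuum hcard
        ((lift_lt_aleph0.2 (lt_aleph0_of_finite _)).trans_le aleph0_le_continuum)
    exact absurd hle (not_le.2 (by rw [lift_uzero]; exact h3))
  -- the types
  obtain ⟨g, hg⟩ := exists_seq s
  let 𝒲 : Ultrafilter ℚ := (hyperfilter ℕ).map g
  let 𝒰 : Ultrafilter (Fin 1 → Y) := 𝒲.map (fun g _ => sg (sgQ g))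
  let 𝒱0 : Ultrafilter T2 := (hyperfilter ℕ).map (fun n => pp n (g n))
  have hg' : Tendsto (fun n => (g n : ℝ)) (hyperfilter ℕ) (𝓝[>] s) :=
    hg.mono_left Nat.hyperfilter_le_atTop
  have hW : Tendsto (fun q : ℚ => (q : ℝ)) 𝒲 (𝓝[>] s) := by
    simp only [𝒲, Ultrafilter.coe_map, tendsto_map'_iff]
    exact hg'
  have hV0 : ∀ i, Tendsto (fun y : T2 => w (y i)) 𝒱0 atTop := by
    intro i
    simp only [𝒱0, Ultrafilter.coe_map, tendsto_map'_iff]
    exact (pp_tendsto g i).mono_left Nat.hyperfilter_le_atTop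
  have hV0' : ∀ᶠ y in (𝒱0 : Filter T2), y 0 < y 1 := by
    simp only [𝒱0, Ultrafilter.coe_map, eventually_map]
    exact Eventually.of_forall fun n => pp_lt n _
  obtain ⟨η, hη⟩ := exists_limitPt f hU (𝒱0.map (fun y _ => y 0)) (by
    simp only [Ultrafilter.coe_map, tendsto_map'_iff]
    exact hV0 0)
  refine ⟨ofUF f LL 𝒰, isInvariant_ofUF f 𝒰, finSat_ofUF f 𝒰, ?_, ofUF f LL 𝒱0,
    isCoheir_of_le f 𝒱0 (le_branch hV0 hV0'), ?_⟩
  · intro r hr
    rw [commute_iff hU (rep_ofUF f 𝒰) (hUF ⟨r, hr⟩)]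
    intro D hD
    rw [(ec_iff f (𝒰 := 𝒰) (𝒲 := 𝒲) rfl).1, (ec_iff f (𝒰 := 𝒰) (𝒲 := 𝒲) rfl).2]
    obtain ⟨t, ht⟩ := EC_definable f hW (hUF' ⟨r, hr⟩)
      ((hUF'' ⟨r, hr⟩).mono fun y hy => hy.ne) (hs ⟨r, hr⟩) hη hD
    have h1 := ht.curry
    have h2 := (eventually_swap_iff.1 ht).curry
    simp only [Prod.swap_prod_mk] at h2
    constructor
    · intro h
      obtain ⟨g, hg1, hg2⟩ := (h.and h1).exists
      obtain ⟨y, hy1, hy2⟩ := (hg1.and hg2).exists
      have htt : t := hy2.1 hy1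
      exact h2.mono fun y hy => hy.mono fun g hg => hg.2 htt
    · intro h
      obtain ⟨y, hy1, hy2⟩ := (h.and h2).exists
      obtain ⟨g, hg1, hg2⟩ := (hy1.and hy2).exists
      have htt : t := hg2.1 hg1
      exact h1.mono fun g hg => hg.mono fun y hy => hy.2 htt
  · rw [commute_iff hU (rep_ofUF f 𝒰) (rep_ofUF f 𝒱0)]
    intro hcomm
    let t : Fin 8 → (univ : Set U) ⊕ (Fin 1 ⊕ Fin 2) :=
      ![Sum.inr (Sum.inl 0), Sum.inl ⟨f 0, mem_univ _⟩, Sum.inl ⟨f (sg 0), mem_univ _⟩,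
        Sum.inl ⟨f 0, mem_univ _⟩, Sum.inr (Sum.inr 0), Sum.inl ⟨η, mem_univ _⟩,
        Sum.inr (Sum.inr 1), Sum.inl ⟨η, mem_univ _⟩]
    have hdef := definable_rel (B := (univ : Set U)) (κ' := Fin 1 ⊕ Fin 2) Rel.R2 t
    have hD := hcomm _ hdef
    have hmem : ∀ (q : ℚ) (n : ℕ), (Sum.elim (f ∘ (fun _ : Fin 1 => sg (sgQ q)))
        (f ∘ (pp n (g n))) ∈
        {v : Fin 1 ⊕ Fin 2 → U | Structure.RelMap (L := LL) Rel.R2
          (fun i => Sum.elim (fun c : (univ : Set U) => (c : U)) v (t i))} ↔ q < g n) := by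
      intro q n
      rw [mem_ofPred_eq, relMap_eq_Lt2]
      show Lt2 (code1 f (sgQ q), code1 f 0) ((f (pp n (g n) 0), η), (f (pp n (g n) 1), η)) ↔ _
      rw [Lt2_congr (Eqv2_refl (code1 f (sgQ q), code1 f 0))
        (Eqv2_congr (hη (pp n (g n) 0)) (hη (pp n (g n) 1))), Lt2_code1, v_sgQ, w_pp0, w_pp1,
        v_of_FD (FD_κ' n (g n)).1, WithTop.coe_lt_coe]
    have hL : ¬ ∀ᶠ x in (𝒰 : Filter (Fin 1 → Y)), ∀ᶠ y in (𝒱0 : Filter T2),
        Sum.elim (f ∘ x) (f ∘ y) ∈ {v : Fin 1 ⊕ Fin 2 → U | Structure.RelMap (L := LL) Rel.R2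
          (fun i => Sum.elim (fun c : (univ : Set U) => (c : U)) v (t i))} := by
      intro hc
      simp only [𝒰, 𝒲, 𝒱0, Ultrafilter.coe_map, eventually_map, hmem] at hc
      have h1 : ∀ᶠ m in (hyperfilter ℕ : Filter ℕ), s < (g m : ℝ) :=
        (tendsto_nhdsWithin_iff.1 hg').2
      obtain ⟨m, hm, hm'⟩ := (hc.and h1).exists
      have h2 : ∀ᶠ n in (hyperfilter ℕ : Filter ℕ), (g n : ℝ) < g m :=
        (tendsto_nhdsWithin_iff.1 hg').1.eventually (gt_mem_nhds hm')
      obtain ⟨n, hn, hn'⟩ := (hm.and h2).exists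
      have h3 : (g n : ℚ) < g m := by exact_mod_cast hn'
      exact lt_asymm hn h3
    apply hL
    apply hD.2
    simp only [𝒰, 𝒲, 𝒱0, Ultrafilter.coe_map, eventually_map, hmem]
    have h1 : ∀ᶠ n in (hyperfilter ℕ : Filter ℕ), s < (g n : ℝ) :=
      (tendsto_nhdsWithin_iff.1 hg').2
    filter_upwards [h1] with n hn
    have h2 : ∀ᶠ m in (hyperfilter ℕ : Filter ℕ), (g m : ℝ) < g n :=
      (tendsto_nhdsWithin_iff.1 hg').1.eventually (gt_mem_nhds hn)
    filter_upwards [h2] with m hm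
    exact_mod_cast hm

end

lemma card_LL : LL.card ≤ ℵ₀ := by
  have h1 : ∀ l, Countable (LL.Relations l) := by
    intro l
    have hinj : Function.Injective (fun _ : Rel l => ()) := by
      intro R R' _
      cases R <;> cases R' <;> rfl
    exact hinj.countable
  have h2 : ∀ l, Countable (LL.Functions l) := fun l => inferInstanceAs (Countable Empty)
  have h3 : Countable LL.Symbols := inferInstanceAs (Countable ((Σ l, _) ⊕ (Σ l, _)))
  exact mk_le_aleph0_iff.2 h3

end Pool.Agent.Helper1.DP
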