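import Pool.Agent.Helper1.DP.Branch
import Pool.Agent.Helper1.CT.Lim

/-!
The main computation.
-/

open FirstOrder FirstOrder.Language Set Filter Topology
open Pool.Agent.Helper1.CT (IsSaturated exists_realizes ofUF rep_ofUF Realizes.mem_iff)

namespace Pool.Agent.Helper1.DP

universe u

/-- pairs of points of `Y` -/
abbrev T2 := Fin 2 → Y

instance : Countable G := inferInstanceAs (Countable (ℚ →₀ ℚ))

instance : Countable Y := inferInstanceAs (Countable (G →₀ ℚ))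

section

variable {U : Type u} [LL.Structure U] [U ⊨ TT] (f : Y ↪ₑ[LL] U)

/-- code of an element of `G` -/
noncomputable def code1 (γ : G) : C1 U := (f (sg γ), f 0)

/-- code of an element of `ℚ` -/
noncomputable def code2 (q : ℚ) : C2 U := (code1 f (sgQ q), code1 f 0)

omit [U ⊨ TT] in
lemma code1_ne (γ : G) : f (sg γ) ≠ f 0 := by
  intro h
  have h1 := V_sg γ
  rw [f.injective h] at h1
  have h2 : V1 (0, 0) = ⊤ := v_self _
  rw [h2] at h1
  exact WithTop.coe_ne_top h1.symm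

omit [U ⊨ TT] in
lemma Lt1_code (γ γ' : G) : Lt1 (code1 f γ) (code1 f γ') ↔ γ < γ' := by
  rw [code1, code1, Lt1_map, V_sg, V_sg, WithTop.coe_lt_coe]

omit [U ⊨ TT] in
lemma Eqv1_code {γ γ' : G} : Eqv1 (code1 f γ) (code1 f γ') ↔ γ = γ' := by
  rw [code1, code1, Eqv1_map, V_sg, V_sg, WithTop.coe_inj]

omit [U ⊨ TT] in
lemma Lt2_code1 (γ γ' a b : G) : Lt2 (code1 f γ, code1 f γ') (code1 f a, code1 f b) ↔
    v (co γ) (co γ') < v (co a) (co b) := by
  simp only [code1]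
  rw [Lt2_map, V2, V2]
  simp only [V_sg, DD_coe]

omit [U ⊨ TT] in
lemma Eqv2_code1 (γ γ' a b : G) : Eqv2 (code1 f γ, code1 f γ') (code1 f a, code1 f b) ↔
    v (co γ) (co γ') = v (co a) (co b) := by
  simp only [code1]
  rw [Eqv2_map, V2, V2]
  simp only [V_sg, DD_coe]

omit [U ⊨ TT] in
lemma Eqv2_code12 (γ γ' : G) (q : ℚ) : Eqv2 (code1 f γ, code1 f γ') (code2 f q) ↔
    v (co γ) (co γ') = (q : WithTop ℚ) := by
  rw [code2, Eqv2_code1, v_sgQ]

omit [U ⊨ TT] in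
lemma Lt2_code (q q' : ℚ) : Lt2 (code2 f q) (code2 f q') ↔ q < q' := by
  rw [code2, code2, Lt2_code1, v_sgQ, v_sgQ, WithTop.coe_lt_coe]

/-- `η` is a limit of the branch in `U`. -/
def IsLimitPt (η : U) : Prop := ∀ y : Y, Eqv1 (f y, η) (code1 f (w y))

omit [U ⊨ TT] in
lemma definable_rel {B : Set U} {κ' : Type} {n : ℕ} (R : LL.Relations n)
    (t : Fin n → B ⊕ κ') :
    B.Definable LL {v : κ' → U | Structure.RelMap R
      (fun i => Sum.elim (fun c : B => (c : U)) v (t i))} := by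
  rw [definable_iff_exists_formula_sum]
  refine ⟨Relations.formula R (fun i => Term.var (t i)), ?_⟩
  ext v
  simp only [mem_ofPred_eq, Formula.realize_rel, Term.realize_var]

omit [U ⊨ TT] in
/-- A condition on the values of pairs among parameters and variables is definable. -/
lemma definable_Lt1 {B : Set U} {κ' : Type} (a b c d : B ⊕ κ') :
    B.Definable LL {v : κ' → U | Lt1 (Sum.elim (fun c : B => (c : U)) v a,
      Sum.elim (fun c : B => (c : U)) v b) (Sum.elim (fun c : B => (c : U)) v c,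
      Sum.elim (fun c : B => (c : U)) v d)} := by
  have h := definable_rel (B := B) (Rel.R1) ![a, b, c, d]
  convert h using 1
  ext v
  simp only [mem_ofPred_eq]
  rw [relMap_eq_Lt1]
  rfl

omit [U ⊨ TT] in
/-- existence of limit points -/
lemma exists_limitPt (hU : IsSaturated LL U) (𝒱 : Ultrafilter (Fin 1 → Y))
    (h𝒱 : Tendsto (fun y : Fin 1 → Y => w (y 0)) 𝒱 atTop) :
    ∃ η : U, IsLimitPt f η := by
  obtain ⟨b, hb⟩ := exists_realizes hU (ofUF f LL 𝒱) (countable_range f)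
  refine ⟨b 0, fun y => ?_⟩
  have hfar : ∀ᶠ m in (𝒱 : Filter (Fin 1 → Y)), w y < w (m 0) := by
    obtain ⟨n, hn⟩ := κ_cofinal (w y)
    exact (h𝒱.eventually (eventually_ge_atTop (κ n))).mono fun m hm => lt_of_lt_of_le hn hm
  have key : ∀ c d : Y, (Lt1 (f y, b 0) (f c, f d) ↔
      ∀ᶠ m in (𝒱 : Filter (Fin 1 → Y)), V1 (y, m 0) < V1 (c, d)) ∧
      (Lt1 (f c, f d) (f y, b 0) ↔
      ∀ᶠ m in (𝒱 : Filter (Fin 1 → Y)), V1 (c, d) < V1 (y, m 0)) := by
    intro c d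
    constructor
    · have hdef := definable_Lt1 (B := range f) (κ' := Fin 1) (Sum.inl ⟨f y, y, rfl⟩) (Sum.inr 0)
        (Sum.inl ⟨f c, c, rfl⟩) (Sum.inl ⟨f d, d, rfl⟩)
      have h1 := hb.mem_iff hdef
      rw [rep_ofUF f 𝒱 _ (hdef.mono (subset_univ _))] at h1
      simp only [mem_ofPred_eq, Sum.elim_inl, Sum.elim_inr, Function.comp_apply, Lt1_map] at h1
      exact h1
    · have hdef := definable_Lt1 (B := range f) (κ' := Fin 1) (Sum.inl ⟨f c, c, rfl⟩)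
        (Sum.inl ⟨f d, d, rfl⟩) (Sum.inl ⟨f y, y, rfl⟩) (Sum.inr 0)
      have h1 := hb.mem_iff hdef
      rw [rep_ofUF f 𝒱 _ (hdef.mono (subset_univ _))] at h1
      simp only [mem_ofPred_eq, Sum.elim_inl, Sum.elim_inr, Function.comp_apply, Lt1_map] at h1
      exact h1
  have key2 := key (sg (w y)) 0
  have hne : NeBot (𝒱 : Filter (Fin 1 → Y)) := 𝒱.neBot
  constructor
  · intro hc
    obtain ⟨m, hm1, hm2⟩ := ((key2.1.1 hc).and hfar).exists
    rw [V_far hm2, V_sg] at hm1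
    exact lt_irrefl _ hm1
  · intro hc
    obtain ⟨m, hm1, hm2⟩ := ((key2.2.1 hc).and hfar).exists
    rw [V_far hm2, V_sg] at hm1
    exact lt_irrefl _ hm1

end

section exchange

variable {U : Type u} [LL.Structure U] [U ⊨ TT] (f : Y ↪ₑ[LL] U)
variable {𝒲 : Ultrafilter ℚ} {𝒱 : Ultrafilter T2} {s : ℝ}
variable (hW : Tendsto (fun q : ℚ => (q : ℝ)) 𝒲 (𝓝[>] s))
variable (hV : ∀ i, Tendsto (fun y : T2 => w (y i)) 𝒱 atTop)
variable (hlt : ∀ᶠ y in (𝒱 : Filter T2), y 0 ≠ y 1)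

/-- normal forms of first values -/
def NF1 (𝒲 : Ultrafilter ℚ) (𝒱 : Ultrafilter T2) (p : ℚ × T2 → C1 U) : Prop :=
  (∃ c : C1 U, ∀ᶠ z in (𝒲 : Filter ℚ) ×ˢ (𝒱 : Filter T2), Eqv1 (p z) c) ∨
  (∀ᶠ z in (𝒲 : Filter ℚ) ×ˢ (𝒱 : Filter T2), Eqv1 (p z) (code1 f (sgQ z.1))) ∨
  (∃ i : Fin 3, ∀ᶠ z in (𝒲 : Filter ℚ) ×ˢ (𝒱 : Filter T2), Eqv1 (p z) (code1 f (aa i z.2)))

/-- point functions -/
def PF (P : ℚ × T2 → U) : Prop :=
  (∃ c : U, P = fun _ => c) ∨ (P = fun z => f (sg (sgQ z.1))) ∨ (∃ i, P = fun z => f (z.2 i))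

lemma NF1.congr {p q : ℚ × T2 → C1 U}
    (h : ∀ᶠ z in (𝒲 : Filter ℚ) ×ˢ (𝒱 : Filter T2), Eqv1 (p z) (q z)) (h' : NF1 f 𝒲 𝒱 q) :
    NF1 f 𝒲 𝒱 p := by
  rcases h' with ⟨c, h'⟩ | h' | ⟨i, h'⟩
  · exact Or.inl ⟨c, (h.and h').mono fun z hz => hz.1.trans hz.2⟩
  · exact Or.inr (Or.inl ((h.and h').mono fun z hz => hz.1.trans hz.2))
  · exact Or.inr (Or.inr ⟨i, (h.and h').mono fun z hz => hz.1.trans hz.2⟩)

lemma NF1.symm {P P' : ℚ × T2 → U} (h : NF1 f 𝒲 𝒱 (fun z => (P z, P' z))) :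
    NF1 f 𝒲 𝒱 (fun z => (P' z, P z)) :=
  NF1.congr f (Eventually.of_forall fun _ => Eqv1_comm _ _) h

include hW in
lemma W_near {q0 : ℝ} (hq0 : s < q0) : ∀ᶠ q : ℚ in (𝒲 : Filter ℚ), (q : ℝ) < q0 :=
  (tendsto_nhdsWithin_iff.1 hW).1.eventually (gt_mem_nhds hq0)

include hW in
lemma W_gt : ∀ᶠ q : ℚ in (𝒲 : Filter ℚ), s < (q : ℝ) :=
  (tendsto_nhdsWithin_iff.1 hW).2

include hW in
/-- a property of `g` true for almost all `g` cannot determine `g` -/
lemma W_inj {P : ℚ → Prop} (h : ∀ᶠ q in (𝒲 : Filter ℚ), P q) (h' : ∀ q q', P q → P q' → q = q') :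
    False := by
  obtain ⟨q, hq, hq'⟩ := (h.and (W_gt hW)).exists
  obtain ⟨q1, hq1, hq1'⟩ := (h.and (W_near hW hq')).exists
  have := h' q q1 hq hq1
  subst this
  exact lt_irrefl _ hq1'

omit [U ⊨ TT] in
include hV in
lemma NF1_xy (i : Fin 2) : NF1 f 𝒲 𝒱 (fun z => (f (sg (sgQ z.1)), f (z.2 i))) := by
  left
  refine ⟨code1 f 0, ?_⟩
  have h1 : ∀ᶠ y in (𝒱 : Filter T2), 0 < w (y i) := by
    have h0 : (0 : G) < κ 1 := by
      rw [← κ_zero]
      exact κ_strictMono Nat.zero_lt_one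
    exact ((hV i).eventually (eventually_ge_atTop (κ 1))).mono fun y hy => lt_of_lt_of_le h0 hy
  filter_upwards [h1.prod_inr (𝒲 : Filter ℚ)] with z hz
  rw [code1, Eqv1_map, V_sg_y (sgQ_pos _) hz, V_sg]

include hW in
lemma NF1_xd (d : U) : NF1 f 𝒲 𝒱 (fun z => (f (sg (sgQ z.1)), d)) := by
  have htri : ∀ᶠ g in (𝒲 : Filter ℚ), Lt1 (f (sg (sgQ g)), f 0) (f 0, d) ∨
      (Eqv1 (f (sg (sgQ g)), f 0) (f 0, d) ∨ Lt1 (f 0, d) (f (sg (sgQ g)), f 0)) :=
    Eventually.of_forall fun g => trich1 _ _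
  rw [Ultrafilter.eventually_or, Ultrafilter.eventually_or] at htri
  rcases htri with h | h | h
  · right; left
    filter_upwards [h.prod_inl (𝒱 : Filter T2)] with z hz
    exact Eqv1_ultra hz
  · exfalso
    refine W_inj hW h fun q q' hq hq' => ?_
    have h1 := hq.trans hq'.symm
    rw [Eqv1_map, V_sg, V_sg, WithTop.coe_inj] at h1
    have h2 := v_sgQ q
    rw [h1, v_sgQ, WithTop.coe_inj] at h2
    exact h2.symm
  · left
    refine ⟨(d, f 0), ?_⟩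
    filter_upwards [h.prod_inl (𝒱 : Filter T2)] with z hz
    have h1 : Lt1 (d, f 0) (f 0, f (sg (sgQ z.1))) :=
      (Lt1_congr (Eqv1_comm _ _) (Eqv1_comm _ _)).1 hz
    exact (Eqv1_comm _ _).trans (Eqv1_ultra h1)

include hV in
/-- a property of `w y` true for almost all `y` cannot determine it -/
lemma V_inj (i : Fin 2) {P : T2 → Prop} (h : ∀ᶠ y in (𝒱 : Filter T2), P y)
    (h' : ∀ y y', P y → P y' → w (y i) = w (y' i)) : False := by
  obtain ⟨y, hy⟩ := h.exists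
  obtain ⟨n, hn⟩ := κ_cofinal (w (y i))
  obtain ⟨y1, hy1, hy1'⟩ := (h.and ((hV i).eventually (eventually_ge_atTop (κ n)))).exists
  have h1 := h' y y1 hy hy1
  rw [← h1] at hy1'
  exact absurd hy1' (not_le.2 hn)

include hV in
lemma NF1_yd {η : U} (hη : IsLimitPt f η) (d : U) (i : Fin 2) :
    NF1 f 𝒲 𝒱 (fun z => (f (z.2 i), d)) := by
  have htri : ∀ᶠ y in (𝒱 : Filter T2), Lt1 (f (y i), η) (η, d) ∨
      (Eqv1 (f (y i), η) (η, d) ∨ Lt1 (η, d) (f (y i), η)) :=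
    Eventually.of_forall fun g => trich1 _ _
  rw [Ultrafilter.eventually_or, Ultrafilter.eventually_or] at htri
  rcases htri with h | h | h
  · right; right
    have hi : ∃ j : Fin 3, ∀ y : T2, aa j y = w (y i) := by
      fin_cases i
      · exact ⟨0, fun y => rfl⟩
      · exact ⟨1, fun y => rfl⟩
    obtain ⟨j, hj⟩ := hi
    refine ⟨j, ?_⟩
    filter_upwards [h.prod_inr (𝒲 : Filter ℚ)] with z hz
    rw [hj]
    exact (Eqv1_ultra hz).trans (hη (z.2 i))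
  · exfalso
    refine V_inj hV i h fun y y' hy hy' => ?_
    have h1 : Eqv1 (code1 f (w (y i))) (code1 f (w (y' i))) :=
      (hη (y i)).symm.trans ((hy.trans hy'.symm).trans (hη (y' i)))
    exact (Eqv1_code f).1 h1
  · left
    refine ⟨(d, η), ?_⟩
    filter_upwards [h.prod_inr (𝒲 : Filter ℚ)] with z hz
    have h1 : Lt1 (d, η) (η, f (z.2 i)) :=
      (Lt1_congr (Eqv1_comm _ _) (Eqv1_comm _ _)).1 hz
    exact (Eqv1_comm _ _).trans (Eqv1_ultra h1)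

include hW hV hlt in
lemma NF1_of_PF {η : U} (hη : IsLimitPt f η) {P P' : ℚ × T2 → U} (hP : PF f P) (hP' : PF f P') :
    NF1 f 𝒲 𝒱 (fun z => (P z, P' z)) := by
  have hself : ∀ P : ℚ × T2 → U, NF1 f 𝒲 𝒱 (fun z => (P z, P z)) := fun P =>
    Or.inl ⟨(f 0, f 0), Eventually.of_forall fun z => Eqv1_self _ _⟩
  have hyy : NF1 f 𝒲 𝒱 (fun z => (f (z.2 0), f (z.2 1))) := by
    right; right
    refine ⟨2, ?_⟩
    filter_upwards [hlt.prod_inr (𝒲 : Filter ℚ)] with z hz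
    rw [code1, Eqv1_map, V_sg]
    exact aa_two hz
  rcases hP with ⟨c, rfl⟩ | rfl | ⟨i, rfl⟩ <;> rcases hP' with ⟨c', rfl⟩ | rfl | ⟨j, rfl⟩
  · exact Or.inl ⟨(c, c'), Eventually.of_forall fun z => Eqv1_refl _⟩
  · exact (NF1_xd f hW c).symm
  · exact (NF1_yd f hV hη c j).symm
  · exact NF1_xd f hW c'
  · exact hself _
  · exact NF1_xy f hV j
  · exact NF1_yd f hV hη c' i
  · exact (NF1_xy f hV i).symm
  · fin_cases i <;> fin_cases j
    · exact hself _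
    · exact hyy
    · exact hyy.symm
    · exact hself _

/-- normal forms of second values -/
def NF2 (𝒲 : Ultrafilter ℚ) (𝒱 : Ultrafilter T2) (s : ℝ) (p : ℚ × T2 → C2 U) : Prop :=
  (∃ c : C2 U, ∀ᶠ z in (𝒲 : Filter ℚ) ×ˢ (𝒱 : Filter T2), Eqv2 (p z) c) ∨
  (∀ᶠ z in (𝒲 : Filter ℚ) ×ˢ (𝒱 : Filter T2), Eqv2 (p z) (code2 f z.1)) ∨
  (∃ b : T2 → ℚ, ¬ Tendsto (fun y => (b y : ℝ)) 𝒱 (𝓝[>] s) ∧
    ∀ᶠ z in (𝒲 : Filter ℚ) ×ˢ (𝒱 : Filter T2), Eqv2 (p z) (code2 f (b z.2)))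

lemma NF2.congr {p q : ℚ × T2 → C2 U}
    (h : ∀ᶠ z in (𝒲 : Filter ℚ) ×ˢ (𝒱 : Filter T2), Eqv2 (p z) (q z)) (h' : NF2 f 𝒲 𝒱 s q) :
    NF2 f 𝒲 𝒱 s p := by
  rcases h' with ⟨c, h'⟩ | h' | ⟨b, hb, h'⟩
  · exact Or.inl ⟨c, (h.and h').mono fun z hz => hz.1.trans hz.2⟩
  · exact Or.inr (Or.inl ((h.and h').mono fun z hz => hz.1.trans hz.2))
  · exact Or.inr (Or.inr ⟨b, hb, (h.and h').mono fun z hz => hz.1.trans hz.2⟩)

lemma NF2.symm {p q : ℚ × T2 → C1 U} (h : NF2 f 𝒲 𝒱 s (fun z => (p z, q z))) :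
    NF2 f 𝒲 𝒱 s (fun z => (q z, p z)) :=
  NF2.congr f (Eventually.of_forall fun _ => Eqv2_comm _ _) h

include hV hlt in
/-- the distance index of the values `aa i` to `0` tends to `-∞` -/
lemma eventually_aa_lt (i : Fin 3) (δ : ℚ) :
    ∀ᶠ y in (𝒱 : Filter T2), v (co (aa i y)) (co (0 : G)) < (δ : WithTop ℚ) :=
  (aa_tendsto hV hlt i).eventually (eventually_v_lt δ)

include hW in
lemma NF2_cx (c : C1 U) : NF2 f 𝒲 𝒱 s (fun z => (c, code1 f (sgQ z.1))) := by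
  obtain ⟨a, b⟩ := c
  by_cases hab : a = b
  · left
    refine ⟨(code1 f 0, code1 f 0), Eventually.of_forall fun z => ?_⟩
    rw [hab]
    exact (Eqv2_comm _ _).trans (Eqv2_degenerate _ _ _)
  have htri : ∀ᶠ g in (𝒲 : Filter ℚ), Lt2 ((a, b), code1 f 0) (code1 f 0, code1 f (sgQ g)) ∨
      (Eqv2 ((a, b), code1 f 0) (code1 f 0, code1 f (sgQ g)) ∨
        Lt2 (code1 f 0, code1 f (sgQ g)) ((a, b), code1 f 0)) :=
    Eventually.of_forall fun g => trich2 _ _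
  rw [Ultrafilter.eventually_or, Ultrafilter.eventually_or] at htri
  rcases htri with h | h | h
  · left
    refine ⟨((a, b), code1 f 0), ?_⟩
    filter_upwards [h.prod_inl (𝒱 : Filter T2)] with z hz
    exact Eqv2_ultra (code1_ne f _) hz
  · exfalso
    refine W_inj hW h fun q q' hq hq' => ?_
    have h1 := hq.symm.trans hq'
    have h2 : Eqv2 (code2 f q) (code2 f q') :=
      (Eqv2_comm _ _).trans (h1.trans (Eqv2_comm _ _))
    rcases lt_trichotomy q q' with h3 | h3 | h3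
    · exact absurd ((Lt2_code f q q').2 h3) h2.1
    · exact h3
    · exact absurd ((Lt2_code f q' q).2 h3) h2.2
  · right; left
    filter_upwards [h.prod_inl (𝒱 : Filter T2)] with z hz
    have h1 : Lt2 (code1 f (sgQ z.1), code1 f 0) (code1 f 0, (a, b)) :=
      (Lt2_congr (Eqv2_comm _ _) (Eqv2_comm _ _)).1 hz
    exact (Eqv2_comm _ _).trans (Eqv2_ultra hab h1)

include hV hlt in
/-- the function `y ↦ d(aa i y, 0)` -/
lemma exists_b (i : Fin 3) : ∃ b : T2 → ℚ, ¬ Tendsto (fun y => (b y : ℝ)) 𝒱 (𝓝[>] s) ∧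
    ∀ᶠ y in (𝒱 : Filter T2), v (co (aa i y)) (co (0 : G)) = ((b y : ℚ) : WithTop ℚ) := by
  refine ⟨fun y => (v (co (aa i y)) (co (0 : G))).untopD 0, ?_, ?_⟩
  · intro hc
    obtain ⟨q, hq⟩ := exists_rat_lt s
    have h1 := (tendsto_nhdsWithin_iff.1 hc).2
    obtain ⟨y, hy1, hy2⟩ := (h1.and (eventually_aa_lt hV hlt i q)).exists
    obtain ⟨δ, hδ⟩ := WithTop.ne_top_iff_exists.1 (ne_top_of_lt hy2)
    simp only [mem_Ioi] at hy1
    rw [← hδ] at hy1 hy2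
    rw [WithTop.untopD_coe] at hy1
    rw [WithTop.coe_lt_coe] at hy2
    have : (δ : ℝ) < q := by exact_mod_cast hy2
    linarith
  · filter_upwards [eventually_aa_lt hV hlt i 0] with y hy
    obtain ⟨δ, hδ⟩ := WithTop.ne_top_iff_exists.1 (ne_top_of_lt hy)
    rw [← hδ]
    rfl

include hV hlt in
lemma NF2_cy (c : C1 U) (i : Fin 3) : NF2 f 𝒲 𝒱 s (fun z => (c, code1 f (aa i z.2))) := by
  obtain ⟨a, b⟩ := c
  by_cases hab : a = b
  · left
    refine ⟨(code1 f 0, code1 f 0), Eventually.of_forall fun z => ?_⟩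
    rw [hab]
    exact (Eqv2_comm _ _).trans (Eqv2_degenerate _ _ _)
  have htri : ∀ᶠ y in (𝒱 : Filter T2), Lt2 ((a, b), code1 f 0) (code1 f 0, code1 f (aa i y)) ∨
      (Eqv2 ((a, b), code1 f 0) (code1 f 0, code1 f (aa i y)) ∨
        Lt2 (code1 f 0, code1 f (aa i y)) ((a, b), code1 f 0)) :=
    Eventually.of_forall fun g => trich2 _ _
  rw [Ultrafilter.eventually_or, Ultrafilter.eventually_or] at htri
  rcases htri with h | h | h
  · left
    refine ⟨((a, b), code1 f 0), ?_⟩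
    filter_upwards [h.prod_inr (𝒲 : Filter ℚ)] with z hz
    exact Eqv2_ultra (code1_ne f _) hz
  · exfalso
    obtain ⟨b, _, hb⟩ := exists_b (s := s) hV hlt i
    obtain ⟨y, hy, hyb⟩ := (h.and hb).exists
    obtain ⟨y', hy', hy''⟩ := (h.and (eventually_aa_lt hV hlt i (b y))).exists
    have h1 := hy.symm.trans hy'
    rw [Eqv2_code1, v_comm, v_comm (co 0) (co (aa i y')), hyb] at h1
    rw [← h1] at hy''
    exact lt_irrefl _ hy''
  · right; right
    obtain ⟨b, hb, hb'⟩ := exists_b (s := s) hV hlt i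
    refine ⟨b, hb, ?_⟩
    filter_upwards [h.prod_inr (𝒲 : Filter ℚ), hb'.prod_inr (𝒲 : Filter ℚ)] with z hz hz'
    have h1 := (Lt2_congr (Eqv2_comm _ _) (Eqv2_comm _ _)).1 hz
    exact (Eqv2_comm _ _).trans ((Eqv2_ultra hab h1).trans ((Eqv2_code12 f _ _ _).2 hz'))

include hW hV hlt in
lemma NF2_xy (i : Fin 3) : NF2 f 𝒲 𝒱 s (fun z => (code1 f (sgQ z.1), code1 f (aa i z.2))) := by
  right; right
  obtain ⟨b, hb, hb'⟩ := exists_b (s := s) hV hlt i
  refine ⟨b, hb, ?_⟩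
  obtain ⟨q, hq⟩ := exists_rat_lt s
  have h1 := eventually_aa_lt hV hlt i q
  filter_upwards [h1.prod_inr (𝒲 : Filter ℚ), hb'.prod_inr (𝒲 : Filter ℚ),
    (W_gt hW).prod_inl (𝒱 : Filter T2)] with z hz hz' hz''
  rw [Eqv2_code12, v_comm, ← hz']
  apply v_ultra (good_H _ _)
  rw [v_comm (co 0), v_sgQ]
  refine lt_trans hz (WithTop.coe_lt_coe.2 ?_)
  have : (q : ℝ) < z.1 := hq.trans hz''
  exact_mod_cast this

variable (hs : ∀ i j : Fin 3, ¬ Tendsto
  (fun y : T2 => (((v (co (aa i y)) (co (aa j y))).untopD 0 : ℚ) : ℝ)) 𝒱 (𝓝[>] s))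

include hs in
lemma NF2_yy (i j : Fin 3) :
    NF2 f 𝒲 𝒱 s (fun z => (code1 f (aa i z.2), code1 f (aa j z.2))) := by
  rcases 𝒱.em (fun y => v (co (aa i y)) (co (aa j y)) = ⊤) with h | h
  · left
    refine ⟨(code1 f 0, code1 f 0), ?_⟩
    filter_upwards [h.prod_inr (𝒲 : Filter ℚ)] with z hz
    rw [Eqv2_code1, hz, v_self]
  · right; right
    refine ⟨_, hs i j, ?_⟩
    filter_upwards [h.prod_inr (𝒲 : Filter ℚ)] with z hz
    rw [Eqv2_code12]
    obtain ⟨δ, hδ⟩ := WithTop.ne_top_iff_exists.1 hz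
    rw [← hδ]
    rfl

include hW hV hlt hs in
lemma NF2_of_NF1 {p q : ℚ × T2 → C1 U} (hp : NF1 f 𝒲 𝒱 p) (hq : NF1 f 𝒲 𝒱 q) :
    NF2 f 𝒲 𝒱 s (fun z => (p z, q z)) := by
  rcases hp with ⟨c, hp⟩ | hp | ⟨i, hp⟩ <;> rcases hq with ⟨c', hq⟩ | hq | ⟨j, hq⟩
  · exact Or.inl ⟨(c, c'), (hp.and hq).mono fun z hz => Eqv2_congr hz.1 hz.2⟩
  · exact NF2.congr f ((hp.and hq).mono fun z hz => Eqv2_congr hz.1 hz.2) (NF2_cx f hW c)
  · exact NF2.congr f ((hp.and hq).mono fun z hz => Eqv2_congr hz.1 hz.2) (NF2_cy f hV hlt c j)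
  · exact NF2.congr f ((hp.and hq).mono fun z hz => Eqv2_congr hz.1 hz.2) (NF2_cx f hW c').symm
  · exact Or.inl ⟨(code1 f 0, code1 f 0), (hp.and hq).mono fun z hz =>
      (Eqv2_congr hz.1 hz.2).trans (Eqv2_self _ _)⟩
  · exact NF2.congr f ((hp.and hq).mono fun z hz => Eqv2_congr hz.1 hz.2) (NF2_xy f hW hV hlt j)
  · exact NF2.congr f ((hp.and hq).mono fun z hz => Eqv2_congr hz.1 hz.2)
      (NF2_cy f hV hlt c' i).symm
  · exact NF2.congr f ((hp.and hq).mono fun z hz => Eqv2_congr hz.1 hz.2)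
      (NF2_xy f hW hV hlt i).symm
  · exact NF2.congr f ((hp.and hq).mono fun z hz => Eqv2_congr hz.1 hz.2) (NF2_yy f hs i j)

/-- eventually constant truth value on rectangles -/
def EC (𝒲 : Ultrafilter ℚ) (𝒱 : Ultrafilter T2) (P : ℚ × T2 → Prop) : Prop :=
  ∃ t : Prop, ∀ᶠ z in (𝒲 : Filter ℚ) ×ˢ (𝒱 : Filter T2), (P z ↔ t)

lemma EC_left (P : ℚ → Prop) : EC 𝒲 𝒱 (fun z => P z.1) := by
  rcases 𝒲.em P with h | h
  · exact ⟨True, (h.prod_inl _).mono fun z hz => by simpa using hz⟩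
  · exact ⟨False, (h.prod_inl _).mono fun z hz => by simpa using hz⟩

lemma EC_right (P : T2 → Prop) : EC 𝒲 𝒱 (fun z => P z.2) := by
  rcases 𝒱.em P with h | h
  · exact ⟨True, (h.prod_inr _).mono fun z hz => by simpa using hz⟩
  · exact ⟨False, (h.prod_inr _).mono fun z hz => by simpa using hz⟩

lemma EC_congr {P P' : ℚ × T2 → Prop}
    (h : ∀ᶠ z in (𝒲 : Filter ℚ) ×ˢ (𝒱 : Filter T2), (P z ↔ P' z)) (h' : EC 𝒲 𝒱 P') :
    EC 𝒲 𝒱 P := by
  obtain ⟨t, ht⟩ := h'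
  exact ⟨t, (h.and ht).mono fun z hz => hz.1.trans hz.2⟩

include hW in
/-- The decisive point: outside of exceptional `s`, the mixed comparisons are eventually
constant. -/
lemma EC_mixed {b : T2 → ℚ} (hb : ¬ Tendsto (fun y => (b y : ℝ)) 𝒱 (𝓝[>] s)) :
    EC 𝒲 𝒱 (fun z => z.1 < b z.2) ∧ EC 𝒲 𝒱 (fun z => b z.2 < z.1) := by
  rcases 𝒱.em (fun y => (b y : ℝ) ≤ s) with hA | hB
  · have h1 := ((W_gt hW).prod_inl (𝒱 : Filter T2)).and (hA.prod_inr (𝒲 : Filter ℚ))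
    constructor
    · refine ⟨False, h1.mono fun z hz => ?_⟩
      simp only [iff_false, not_lt]
      have : (b z.2 : ℝ) < z.1 := lt_of_le_of_lt hz.2 hz.1
      exact_mod_cast this.le
    · refine ⟨True, h1.mono fun z hz => ?_⟩
      simp only [iff_true]
      have : (b z.2 : ℝ) < z.1 := lt_of_le_of_lt hz.2 hz.1
      exact_mod_cast this
  · obtain ⟨c, hcs, hc⟩ : ∃ c > s, ∀ᶠ y in (𝒱 : Filter T2), c ≤ (b y : ℝ) := by
      by_contra hcon
      push Not at hcon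
      apply hb
      rw [tendsto_nhdsWithin_iff]
      refine ⟨?_, hB.mono fun y hy => not_le.1 hy⟩
      rw [tendsto_order]
      constructor
      · intro a ha
        exact hB.mono fun y hy => ha.trans (not_le.1 hy)
      · intro a ha
        exact hcon a ha
    have h0 : ∀ᶠ g : ℚ in (𝒲 : Filter ℚ), (g : ℝ) < c := W_near hW hcs
    have h1 := (h0.prod_inl (𝒱 : Filter T2)).and (hc.prod_inr (𝒲 : Filter ℚ))
    constructor
    · refine ⟨True, h1.mono fun z hz => ?_⟩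
      simp only [iff_true]
      have : (z.1 : ℝ) < b z.2 := lt_of_lt_of_le hz.1 hz.2
      exact_mod_cast this
    · refine ⟨False, h1.mono fun z hz => ?_⟩
      simp only [iff_false, not_lt]
      have : (z.1 : ℝ) < b z.2 := lt_of_lt_of_le hz.1 hz.2
      exact_mod_cast this.le

include hW in
lemma EC_Lt2 {p q : ℚ × T2 → C2 U} (h : NF2 f 𝒲 𝒱 s p) (h' : NF2 f 𝒲 𝒱 s q) :
    EC 𝒲 𝒱 (fun z => Lt2 (p z) (q z)) := by
  rcases h with ⟨c, h⟩ | h | ⟨b, hb, h⟩ <;> rcases h' with ⟨d, h'⟩ | h' | ⟨b', hb', h'⟩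
  · exact EC_congr (P' := fun _ => Lt2 c d)
      ((h.and h').mono fun z hz => Lt2_congr hz.1 hz.2) (EC_left fun _ => Lt2 c d)
  · exact EC_congr (P' := fun z => Lt2 c (code2 f z.1))
      ((h.and h').mono fun z hz => Lt2_congr hz.1 hz.2) (EC_left fun g => Lt2 c (code2 f g))
  · exact EC_congr (P' := fun z => Lt2 c (code2 f (b' z.2)))
      ((h.and h').mono fun z hz => Lt2_congr hz.1 hz.2)
      (EC_right fun y => Lt2 c (code2 f (b' y)))
  · exact EC_congr (P' := fun z => Lt2 (code2 f z.1) d)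
      ((h.and h').mono fun z hz => Lt2_congr hz.1 hz.2) (EC_left fun g => Lt2 (code2 f g) d)
  · exact EC_congr (P' := fun z => Lt2 (code2 f z.1) (code2 f z.1))
      ((h.and h').mono fun z hz => Lt2_congr hz.1 hz.2)
      (EC_left fun g => Lt2 (code2 f g) (code2 f g))
  · refine EC_congr (P' := fun z => z.1 < b' z.2)
      ((h.and h').mono fun z hz => ?_) (EC_mixed hW hb').1
    rw [← Lt2_code f]
    exact Lt2_congr hz.1 hz.2
  · exact EC_congr (P' := fun z => Lt2 (code2 f (b z.2)) d)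
      ((h.and h').mono fun z hz => Lt2_congr hz.1 hz.2)
      (EC_right fun y => Lt2 (code2 f (b y)) d)
  · refine EC_congr (P' := fun z => b z.2 < z.1)
      ((h.and h').mono fun z hz => ?_) (EC_mixed hW hb).2
    rw [← Lt2_code f]
    exact Lt2_congr hz.1 hz.2
  · exact EC_congr (P' := fun z => Lt2 (code2 f (b z.2)) (code2 f (b' z.2)))
      ((h.and h').mono fun z hz => Lt2_congr hz.1 hz.2)
      (EC_right fun y => Lt2 (code2 f (b y)) (code2 f (b' y)))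

include hW hV hlt in
lemma eventually_x_lt_y (i : Fin 3) : ∀ᶠ z in (𝒲 : Filter ℚ) ×ˢ (𝒱 : Filter T2),
    sgQ z.1 < aa i z.2 := by
  obtain ⟨q, hq⟩ := exists_rat_lt s
  have h1 := (aa_tendsto hV hlt i).eventually (eventually_ge_atTop (sgQ q))
  filter_upwards [h1.prod_inr (𝒲 : Filter ℚ), (W_gt hW).prod_inl (𝒱 : Filter T2)] with z hz hz'
  refine lt_of_lt_of_le (sgQ_anti ?_) hz
  have : (q : ℝ) < z.1 := hq.trans hz'
  exact_mod_cast this

include hW hV hlt in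
lemma EC_Lt1 {p q : ℚ × T2 → C1 U} (h : NF1 f 𝒲 𝒱 p) (h' : NF1 f 𝒲 𝒱 q) :
    EC 𝒲 𝒱 (fun z => Lt1 (p z) (q z)) := by
  rcases h with ⟨c, h⟩ | h | ⟨i, h⟩ <;> rcases h' with ⟨d, h'⟩ | h' | ⟨j, h'⟩
  · exact EC_congr (P' := fun _ => Lt1 c d)
      ((h.and h').mono fun z hz => Lt1_congr hz.1 hz.2) (EC_left fun _ => Lt1 c d)
  · exact EC_congr (P' := fun z => Lt1 c (code1 f (sgQ z.1)))
      ((h.and h').mono fun z hz => Lt1_congr hz.1 hz.2)
      (EC_left fun g => Lt1 c (code1 f (sgQ g)))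
  · exact EC_congr (P' := fun z => Lt1 c (code1 f (aa j z.2)))
      ((h.and h').mono fun z hz => Lt1_congr hz.1 hz.2)
      (EC_right fun y => Lt1 c (code1 f (aa j y)))
  · exact EC_congr (P' := fun z => Lt1 (code1 f (sgQ z.1)) d)
      ((h.and h').mono fun z hz => Lt1_congr hz.1 hz.2)
      (EC_left fun g => Lt1 (code1 f (sgQ g)) d)
  · exact EC_congr (P' := fun z => Lt1 (code1 f (sgQ z.1)) (code1 f (sgQ z.1)))
      ((h.and h').mono fun z hz => Lt1_congr hz.1 hz.2)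
      (EC_left fun g => Lt1 (code1 f (sgQ g)) (code1 f (sgQ g)))
  · refine ⟨True, ((h.and h').and (eventually_x_lt_y hW hV hlt j)).mono fun z hz => ?_⟩
    simp only [iff_true]
    rw [Lt1_congr hz.1.1 hz.1.2, Lt1_code]
    exact hz.2
  · exact EC_congr (P' := fun z => Lt1 (code1 f (aa i z.2)) d)
      ((h.and h').mono fun z hz => Lt1_congr hz.1 hz.2)
      (EC_right fun y => Lt1 (code1 f (aa i y)) d)
  · refine ⟨False, ((h.and h').and (eventually_x_lt_y hW hV hlt i)).mono fun z hz => ?_⟩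
    simp only [iff_false]
    rw [Lt1_congr hz.1.1 hz.1.2, Lt1_code]
    exact lt_asymm hz.2
  · exact EC_congr (P' := fun z => Lt1 (code1 f (aa i z.2)) (code1 f (aa j z.2)))
      ((h.and h').mono fun z hz => Lt1_congr hz.1 hz.2)
      (EC_right fun y => Lt1 (code1 f (aa i y)) (code1 f (aa j y)))

include hV in
/-- order comparisons of `x` and `y` -/
lemma Lt0_xy {η : U} (hη : IsLimitPt f η) (i : Fin 2) :
    ∀ᶠ z in (𝒲 : Filter ℚ) ×ˢ (𝒱 : Filter T2),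
      (Lt0 (f (sg (sgQ z.1))) (f (z.2 i)) ↔ Lt0 (f (sg (sgQ z.1))) η) ∧
      (Lt0 (f (z.2 i)) (f (sg (sgQ z.1))) ↔ Lt0 η (f (sg (sgQ z.1)))) := by
  have h1 : ∀ᶠ y in (𝒱 : Filter T2), 0 < w (y i) := by
    have h0 : (0 : G) < κ 1 := by
      rw [← κ_zero]
      exact κ_strictMono Nat.zero_lt_one
    exact ((hV i).eventually (eventually_ge_atTop (κ 1))).mono fun y hy => lt_of_lt_of_le h0 hy
  filter_upwards [h1.prod_inr (𝒲 : Filter ℚ)] with z hz
  have h2 : Eqv1 (f (sg (sgQ z.1)), f (z.2 i)) (code1 f 0) := by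
    rw [code1, Eqv1_map, V_sg_y (sgQ_pos _) hz, V_sg]
  have h3 : Lt1 (f (sg (sgQ z.1)), f (z.2 i)) (f (z.2 i), η) := by
    rw [Lt1_congr h2 (hη (z.2 i)), Lt1_code]
    exact hz
  exact Lt0_ultra h3

include hV in
lemma EC_Lt0 {η : U} (hη : IsLimitPt f η) {P P' : ℚ × T2 → U} (hP : PF f P) (hP' : PF f P') :
    EC 𝒲 𝒱 (fun z => Lt0 (P z) (P' z)) := by
  rcases hP with ⟨c, rfl⟩ | rfl | ⟨i, rfl⟩ <;> rcases hP' with ⟨c', rfl⟩ | rfl | ⟨j, rfl⟩
  · exact EC_left fun _ => Lt0 c c'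
  · exact EC_left fun g => Lt0 c (f (sg (sgQ g)))
  · exact EC_right fun y : T2 => Lt0 c (f (y j))
  · exact EC_left fun g => Lt0 (f (sg (sgQ g))) c'
  · exact EC_left fun g => Lt0 (f (sg (sgQ g))) (f (sg (sgQ g)))
  · exact EC_congr ((Lt0_xy f hV hη j).mono fun z hz => hz.1)
      (EC_left fun g => Lt0 (f (sg (sgQ g))) η)
  · exact EC_right fun y : T2 => Lt0 (f (y i)) c'
  · exact EC_congr ((Lt0_xy f hV hη i).mono fun z hz => hz.2)
      (EC_left fun g => Lt0 η (f (sg (sgQ g))))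
  · exact EC_right fun y : T2 => Lt0 (f (y i)) (f (y j))

include hW hV hlt hs in
/-- Every definable set is eventually constant on rectangles. -/
lemma EC_definable {η : U}
    (hη : IsLimitPt f η) {D : Set (Fin 1 ⊕ Fin 2 → U)} (hD : (univ : Set U).Definable LL D) :
    EC 𝒲 𝒱 (fun z => Sum.elim (fun _ => f (sg (sgQ z.1))) (fun i => f (z.2 i)) ∈ D) := by
  rw [definable_iff_exists_formula_sum] at hD
  obtain ⟨φ, rfl⟩ := hD
  obtain ⟨F, hF⟩ := homog_Y.exists_finset φ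
  let val : ℚ × T2 → ((univ : Set U) ⊕ (Fin 1 ⊕ Fin 2)) → U := fun z =>
    Sum.elim (fun c : (univ : Set U) => (c : U))
      (Sum.elim (fun _ => f (sg (sgQ z.1))) (fun i => f (z.2 i)))
  have hval : ∀ i, PF f (fun z => val z i) := by
    intro i
    rcases i with i | i | i
    · exact Or.inl ⟨i, rfl⟩
    · exact Or.inr (Or.inl rfl)
    · exact Or.inr (Or.inr ⟨i, rfl⟩)
  have hLt0 : ∀ (i j : F), EC 𝒲 𝒱 (fun z => Lt0 (val z i) (val z j)) := fun i j =>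
    EC_Lt0 f hV hη (hval i) (hval j)
  have hNF1 : ∀ (i j : F), NF1 f 𝒲 𝒱 (fun z => (val z i, val z j)) := fun i j =>
    NF1_of_PF f hW hV hlt hη (hval i) (hval j)
  have hLt1 : ∀ (i j k l : F), EC 𝒲 𝒱
      (fun z => Lt1 (val z i, val z j) (val z k, val z l)) := fun i j k l =>
    EC_Lt1 f hW hV hlt (hNF1 i j) (hNF1 k l)
  have hLt2 : ∀ (i j k l i' j' k' l' : F), EC 𝒲 𝒱
      (fun z => Lt2 ((val z i, val z j), (val z k, val z l))
        ((val z i', val z j'), (val z k', val z l'))) := fun i j k l i' j' k' l' =>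
    EC_Lt2 f hW (NF2_of_NF1 f hW hV hlt hs (hNF1 i j) (hNF1 k l))
      (NF2_of_NF1 f hW hV hlt hs (hNF1 i' j') (hNF1 k' l'))
  choose t0 ht0 using hLt0
  choose t1 ht1 using hLt1
  choose t2 ht2 using hLt2
  have hall0 : ∀ᶠ z in (𝒲 : Filter ℚ) ×ˢ (𝒱 : Filter T2), ∀ (i j : F),
      (Lt0 (val z i) (val z j) ↔ t0 i j) := by
    simp only [eventually_all]
    exact ht0
  have hall1 : ∀ᶠ z in (𝒲 : Filter ℚ) ×ˢ (𝒱 : Filter T2), ∀ (i j k l : F),
      (Lt1 (val z i, val z j) (val z k, val z l) ↔ t1 i j k l) := by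
    simp only [eventually_all]
    exact ht1
  have hall2 : ∀ᶠ z in (𝒲 : Filter ℚ) ×ˢ (𝒱 : Filter T2), ∀ (i j k l i' j' k' l' : F),
      (Lt2 ((val z i, val z j), (val z k, val z l))
        ((val z i', val z j'), (val z k', val z l')) ↔ t2 i j k l i' j' k' l') := by
    simp only [eventually_all]
    exact ht2
  have hne : NeBot ((𝒲 : Filter ℚ) ×ˢ (𝒱 : Filter T2)) := inferInstance
  have hall := (hall0.and hall1).and hall2
  obtain ⟨z0, hz0⟩ := hall.exists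
  refine ⟨φ.Realize (val z0), hall.mono fun z hz => ?_⟩
  have hsd : SameDiag LL (val z ∘ ((↑) : F → _)) (val z0 ∘ ((↑) : F → _)) := by
    apply sameDiag_of_lt_iff
    · intro i j
      rw [eq_iff_Lt1, eq_iff_Lt1]
      exact not_congr ((hz.1.2 i j i i).trans (hz0.1.2 i j i i).symm)
    · intro i j
      exact (hz.1.1 i j).trans (hz0.1.1 i j).symm
    · intro i j k l
      exact (hz.1.2 i j k l).trans (hz0.1.2 i j k l).symm
    · intro i j k l i' j' k' l'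
      exact (hz.2 i j k l i' j' k' l').trans (hz0.2 i j k l i' j' k' l').symm
  exact hF _ _ hsd

end exchange

end Pool.Agent.Helper1.DP
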