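import Mathlib

/-!
Quantifier elimination, in a semantic form, for structures in a finite relational language whose
finite partial isomorphisms have one-point extensions, and transfer to all models.
-/

open FirstOrder FirstOrder.Language Set

namespace Pool.Agent.Helper1.DP

variable {L : FirstOrder.Language.{0, 0}}

/-- The two structures `N`, `N'` induce the same quantifier-free diagram on `s`, `s'`. -/
def SameDiag (L : FirstOrder.Language.{0, 0}) {N N' : Type*} [L.Structure N] [L.Structure N']
    {ι : Type*} (s : ι → N) (s' : ι → N') : Prop :=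
  (∀ i j, s i = s j ↔ s' i = s' j) ∧
    ∀ (n : ℕ) (R : L.Relations n) (w : Fin n → ι), Structure.RelMap R (s ∘ w) ↔
      Structure.RelMap R (s' ∘ w)

section

variable {N N' N'' : Type*} [L.Structure N] [L.Structure N'] [L.Structure N'']
  {ι κ : Type*} {s : ι → N} {s' : ι → N'} {s'' : ι → N''}

lemma SameDiag.refl (s : ι → N) : SameDiag L s s := ⟨fun _ _ => Iff.rfl, fun _ _ _ => Iff.rfl⟩

lemma SameDiag.symm (h : SameDiag L s s') : SameDiag L s' s :=
  ⟨fun i j => (h.1 i j).symm, fun n r w => (h.2 n r w).symm⟩

lemma SameDiag.trans (h : SameDiag L s s') (h' : SameDiag L s' s'') : SameDiag L s s'' :=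
  ⟨fun i j => (h.1 i j).trans (h'.1 i j), fun n r w => (h.2 n r w).trans (h'.2 n r w)⟩

lemma SameDiag.comp (h : SameDiag L s s') (g : κ → ι) : SameDiag L (s ∘ g) (s' ∘ g) :=
  ⟨fun i j => h.1 (g i) (g j), fun n r w => h.2 n r (g ∘ w)⟩

end

section

variable {M : Type} [L.Structure M]

/-- partial isomorphisms, as sets of pairs -/
def PIso (L : FirstOrder.Language.{0, 0}) {M : Type} [L.Structure M] (P : Set (M × M)) : Prop :=
  SameDiag L (fun p : P => p.1.1) (fun p : P => p.1.2)

lemma PIso.mono {P Q : Set (M × M)} (h : PIso L P) (hQ : Q ⊆ P) : PIso L Q := by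
  have := h.comp (fun q : Q => (⟨q.1, hQ q.2⟩ : P))
  exact this

/-- graph of a pair of tuples -/
def graph {ι : Type*} (s s' : ι → M) : Set (M × M) := range fun i => (s i, s' i)

lemma piso_graph_iff {ι : Type*} {s s' : ι → M} : PIso L (graph s s') ↔ SameDiag L s s' := by
  constructor
  · intro h
    exact h.comp (fun i : ι => (⟨(s i, s' i), ⟨i, rfl⟩⟩ : graph s s'))
  · intro h
    choose g hg using fun p : graph s s' => p.2
    have := h.comp g
    have h1 : (fun p : graph s s' => p.1.1) = s ∘ g := by
      funext p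
      exact (congrArg Prod.fst (hg p)).symm
    have h2 : (fun p : graph s s' => p.1.2) = s' ∘ g := by
      funext p
      exact (congrArg Prod.snd (hg p)).symm
    rw [PIso, h1, h2]
    exact this

lemma PIso.swap {P : Set (M × M)} (h : PIso L P) : PIso L (Prod.swap '' P) := by
  have h1 : Prod.swap '' P ⊆ graph (fun p : P => p.1.2) (fun p : P => p.1.1) := by
    rintro _ ⟨p, hp, rfl⟩
    exact ⟨⟨p, hp⟩, rfl⟩
  exact (piso_graph_iff.2 h.symm).mono h1

/-- one-point extensions of finite partial isomorphisms -/
def Homog (L : FirstOrder.Language.{0, 0}) (M : Type) [L.Structure M] : Prop :=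
  ∀ P : Set (M × M), P.Finite → PIso L P → ∀ z, ∃ z', PIso L (insert (z, z') P)

lemma Homog.ext' (h : Homog L M) {P : Set (M × M)} (hfin : P.Finite) (hP : PIso L P) (z' : M) :
    ∃ z, PIso L (insert (z, z') P) := by
  obtain ⟨z, hz⟩ := h _ (hfin.image _) hP.swap z'
  refine ⟨z, (hz.swap).mono ?_⟩
  intro p hp
  rcases mem_insert_iff.1 hp with rfl | hp
  · exact ⟨(z', z), mem_insert _ _, rfl⟩
  · exact ⟨p.swap, mem_insert_of_mem _ ⟨p, hp, rfl⟩, Prod.swap_swap p⟩

variable [L.IsRelational]

lemma term_eq_var {α : Type*} (t : L.Term α) : ∃ i, t = Term.var i := by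
  cases t with
  | var i => exact ⟨i, rfl⟩
  | func f _ => exact (IsEmpty.false f).elim

/-- quantifier elimination in `M` -/
theorem Homog.qe (hM : Homog L M) {α : Type*} [Finite α] {n : ℕ} (φ : L.BoundedFormula α n) :
    ∀ (v v' : α → M) (xs xs' : Fin n → M),
      SameDiag L (Sum.elim v xs) (Sum.elim v' xs') → (φ.Realize v xs ↔ φ.Realize v' xs') := by
  induction φ with
  | falsum => intro v v' xs xs' _; exact Iff.rfl
  | equal t₁ t₂ =>
    intro v v' xs xs' h
    obtain ⟨i, rfl⟩ := term_eq_var t₁
    obtain ⟨j, rfl⟩ := term_eq_var t₂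
    exact h.1 i j
  | rel R ts =>
    intro v v' xs xs' h
    choose w hw using fun i => term_eq_var (ts i)
    have h1 : (fun i => (ts i).realize (Sum.elim v xs)) = (Sum.elim v xs) ∘ w := by
      funext i; rw [hw i]; rfl
    have h2 : (fun i => (ts i).realize (Sum.elim v' xs')) = (Sum.elim v' xs') ∘ w := by
      funext i; rw [hw i]; rfl
    show Structure.RelMap R _ ↔ Structure.RelMap R _
    rw [h1, h2]
    exact h.2 _ R w
  | imp f₁ f₂ ih₁ ih₂ =>
    intro v v' xs xs' h
    simp only [BoundedFormula.realize_imp]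
    rw [ih₁ v v' xs xs' h, ih₂ v v' xs xs' h]
  | @all n f ih =>
    intro v v' xs xs' h
    simp only [BoundedFormula.realize_all]
    have hsub : ∀ z z' : M, graph (Sum.elim v (Fin.snoc xs z)) (Sum.elim v' (Fin.snoc xs' z')) ⊆
        insert (z, z') (graph (Sum.elim v xs) (Sum.elim v' xs')) := by
      rintro z z' _ ⟨i, rfl⟩
      rcases i with a | i
      · exact mem_insert_of_mem _ ⟨Sum.inl a, rfl⟩
      · refine Fin.lastCases ?_ (fun j => ?_) i
        · simp
        · refine mem_insert_of_mem _ ⟨Sum.inr j, ?_⟩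
          simp
    have hfin : (graph (Sum.elim v xs) (Sum.elim v' xs')).Finite := finite_range _
    have hPI := piso_graph_iff.2 h
    constructor
    · intro hz z'
      obtain ⟨z, hzz⟩ := hM.ext' hfin hPI z'
      exact (ih v v' _ _ (piso_graph_iff.1 (hzz.mono (hsub z z')))).1 (hz z)
    · intro hz z
      obtain ⟨z', hzz⟩ := hM _ hfin hPI z
      exact (ih v v' _ _ (piso_graph_iff.1 (hzz.mono (hsub z z')))).2 (hz z')

lemma Homog.realize_iff (hM : Homog L M) {α : Type*} [Finite α] (φ : L.Formula α)
    {s s' : α → M} (h : SameDiag L s s') : φ.Realize s ↔ φ.Realize s' := by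
  have h4 : ∀ xs xs' : Fin 0 → M, SameDiag L (Sum.elim s xs) (Sum.elim s' xs') := by
    intro xs xs'
    have : ∀ (t : α → M) (xs : Fin 0 → M), Sum.elim t xs =
        t ∘ (fun i : α ⊕ Fin 0 => Sum.elim id (fun j : Fin 0 => j.elim0) i) := by
      intro t xs
      funext i
      rcases i with i | i
      · rfl
      · exact i.elim0
    rw [this, this]
    exact h.comp _
  exact hM.qe φ s s' _ _ (h4 _ _)

section transfer

variable [Finite (Σ n, L.Relations n)]
variable {ι : Type*} [Finite ι] {N : Type*} [L.Structure N]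

omit [L.IsRelational] in
/-- characteristic formula of the diagram of a finite tuple -/
lemma exists_char (M : Type) [L.Structure M] (s : ι → N) : ∃ χ : L.Formula ι, χ.Realize s ∧
    ∀ s' : ι → M, χ.Realize s' → SameDiag L s s' := by
  classical
  let A : ι × ι → L.Formula ι := fun p =>
    if s p.1 = s p.2 then (Term.var p.1).equal (Term.var p.2)
    else ((Term.var p.1).equal (Term.var p.2)).not
  let B : (Σ r : (Σ n, L.Relations n), (Fin r.1 → ι)) → L.Formula ι := fun p =>
    if Structure.RelMap p.1.2 (s ∘ p.2) then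
      Relations.formula p.1.2 (fun i => Term.var (p.2 i))
    else (Relations.formula p.1.2 (fun i => Term.var (p.2 i))).not
  refine ⟨Formula.iInf A ⊓ Formula.iInf B, ?_, ?_⟩
  · rw [Formula.realize_inf, Formula.realize_iInf, Formula.realize_iInf]
    constructor
    · intro p
      by_cases h : s p.1 = s p.2
      · simp [A, h]
      · simp [A, h]
    · intro p
      by_cases h : Structure.RelMap p.1.2 (s ∘ p.2)
      · simp only [B, if_pos h, Formula.realize_rel]
        exact h
      · simp only [B, if_neg h, Formula.realize_not, Formula.realize_rel]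
        exact h
  · intro s' hs'
    rw [Formula.realize_inf, Formula.realize_iInf, Formula.realize_iInf] at hs'
    refine ⟨fun i j => ?_, fun n r w => ?_⟩
    · have := hs'.1 (i, j)
      by_cases h : s i = s j
      · simp only [A, if_pos h, Formula.realize_equal] at this
        exact ⟨fun _ => this, fun _ => h⟩
      · simp only [A, if_neg h, Formula.realize_not, Formula.realize_equal] at this
        exact ⟨fun h' => absurd h' h, fun h' => absurd h' this⟩
    · have := hs'.2 ⟨⟨n, r⟩, w⟩
      by_cases h : Structure.RelMap r (s ∘ w)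
      · simp only [B, if_pos h, Formula.realize_rel] at this
        exact ⟨fun _ => this, fun _ => h⟩
      · simp only [B, if_neg h, Formula.realize_not, Formula.realize_rel] at this
        exact ⟨fun h' => absurd h' h, fun h' => absurd h' this⟩

omit [L.IsRelational] [Finite (Σ n, L.Relations n)] in
lemma transfer_formula [N ⊨ L.completeTheory M] (s : ι → N) (φ : L.Formula ι)
    (hφ : φ.Realize s) : ∃ s' : ι → M, φ.Realize s' := by
  let ψ : L.Formula (Empty ⊕ ι) := φ.relabel Sum.inr
  let σ : L.Sentence := ψ.iExs ι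
  have h1 : N ⊨ σ := by
    show Formula.Realize σ _
    rw [Formula.realize_iExs]
    refine ⟨s, ?_⟩
    rw [Formula.realize_relabel]
    exact hφ
  have h2 : M ⊨ σ := (realize_iff_of_model_completeTheory M N σ).1 h1
  have h3 := h2
  rw [Sentence.Realize, Formula.realize_iExs] at h3
  obtain ⟨s', hs'⟩ := h3
  rw [Formula.realize_relabel] at hs'
  exact ⟨s', hs'⟩

omit [L.IsRelational] in
/-- every finite tuple in a model has the diagram of a tuple of `M` -/
lemma exists_sameDiag (M : Type) [L.Structure M] [N ⊨ L.completeTheory M] (s : ι → N) :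
    ∃ s' : ι → M, SameDiag L s s' := by
  obtain ⟨χ, h1, h2⟩ := exists_char (L := L) M s
  obtain ⟨s', hs'⟩ := transfer_formula (M := M) s χ h1
  exact ⟨s', h2 s' hs'⟩

lemma Homog.realize_iff_model (hM : Homog L M) [N ⊨ L.completeTheory M] (s : ι → N)
    (s' : ι → M) (h : SameDiag L s s') (φ : L.Formula ι) :
    φ.Realize s ↔ φ.Realize s' := by
  have main : ∀ φ : L.Formula ι, φ.Realize s → φ.Realize s' := by
    intro φ hφ
    obtain ⟨χ, h1, h2⟩ := exists_char (L := L) M s
    obtain ⟨s'', hs''⟩ := transfer_formula (M := M) s (χ ⊓ φ) (Formula.realize_inf.2 ⟨h1, hφ⟩)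
    rw [Formula.realize_inf] at hs''
    have h3 : SameDiag L s'' s' := (h2 s'' hs''.1).symm.trans h
    exact (hM.realize_iff φ h3).1 hs''.2
  constructor
  · exact main φ
  · intro hφ
    by_contra hc
    have := main φ.not (Formula.realize_not.2 hc)
    rw [Formula.realize_not] at this
    exact this hφ

lemma Homog.realize_iff_of_sameDiag (hM : Homog L M) [N ⊨ L.completeTheory M] {N' : Type*}
    [L.Structure N'] [N' ⊨ L.completeTheory M] (s : ι → N) (s' : ι → N')
    (h : SameDiag L s s') (φ : L.Formula ι) : φ.Realize s ↔ φ.Realize s' := by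
  obtain ⟨t, ht⟩ := exists_sameDiag (L := L) M s
  rw [hM.realize_iff_model s t ht, hM.realize_iff_model s' t (h.symm.trans ht)]

end transfer

/-- Formulas with arbitrarily many variables only depend on the diagram of finitely many of
them. -/
lemma Homog.exists_finset [Finite (Σ n, L.Relations n)] (hM : Homog L M) {α : Type*}
    (φ : L.Formula α) : ∃ F : Finset α,
    ∀ {N : Type*} [L.Structure N] [N ⊨ L.completeTheory M] (v v' : α → N),
      SameDiag L (v ∘ ((↑) : F → α)) (v' ∘ ((↑) : F → α)) → (φ.Realize v ↔ φ.Realize v') := by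
  classical
  refine ⟨φ.freeVarFinset, ?_⟩
  intro N _ _ v v' h
  have key : ∀ v : α → N, Formula.Realize (BoundedFormula.restrictFreeVar φ id :
      L.Formula φ.freeVarFinset) (v ∘ ((↑) : φ.freeVarFinset → α)) ↔ φ.Realize v := by
    intro v
    exact BoundedFormula.realize_restrictFreeVar v (fun a => rfl)
  rw [← key v, ← key v']
  exact hM.realize_iff_of_sameDiag _ _ h _

end

end Pool.Agent.Helper1.DP
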