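import Pool.Agent.Helper1.DP.Tower
import Pool.Agent.Helper1.DP.QE

/-!
The countable structure: an ordered set `Y` with a valuation in an ordered set `G`, which itself
has a valuation in `ℚ`.
-/

open FirstOrder FirstOrder.Language Set

namespace Pool.Agent.Helper1.DP

section

variable {X : Type} [LinearOrder X]

open scoped Classical in
/-- The first difference, or `⊤` if there is none. -/
noncomputable def v (a b : X → ℚ) : WithTop X :=
  if h : ∃ x, FD a b x then ((h.choose : X) : WithTop X) else ⊤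

lemma v_of_FD {a b : X → ℚ} {x : X} (h : FD a b x) : v a b = (x : WithTop X) := by
  have hex : ∃ x, FD a b x := ⟨x, h⟩
  rw [v, dif_pos hex, hex.choose_spec.unique h]

lemma v_self (a : X → ℚ) : v a a = ⊤ := by
  rw [v, dif_neg]
  rintro ⟨g, hg⟩
  exact hg.1 rfl

lemma FD_of_v {a b : X → ℚ} {x : X} (h : v a b = (x : WithTop X)) : FD a b x := by
  by_cases hex : ∃ x, FD a b x
  · obtain ⟨x', hx'⟩ := hex
    rw [v_of_FD hx', WithTop.coe_inj] at h
    rwa [← h]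
  · rw [v, dif_neg hex] at h
    exact absurd h.symm WithTop.coe_ne_top

lemma exists_FD_of_ne_top {a b : X → ℚ} (h : v a b ≠ ⊤) : ∃ x, FD a b x := by
  by_contra hne
  exact h (by rw [v, dif_neg hne])

lemma v_comm (a b : X → ℚ) : v a b = v b a := by
  by_cases h : ∃ g, FD a b g
  · obtain ⟨g, hg⟩ := h
    rw [v_of_FD hg, v_of_FD hg.symm]
  · have h' : ¬ ∃ g, FD b a g := fun ⟨g, hg⟩ => h ⟨g, hg.symm⟩
    rw [v, v, dif_neg h, dif_neg h']

/-- a pair of functions is comparable if it is equal or has a first difference -/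
def Good (a b : X → ℚ) : Prop := a = b ∨ ∃ x, FD a b x

lemma Good.symm {a b : X → ℚ} (h : Good a b) : Good b a := by
  rcases h with h | ⟨g, hg⟩
  · exact Or.inl h.symm
  · exact Or.inr ⟨g, hg.symm⟩

lemma good_H (a b : H X) : Good (co a) (co b) := by
  by_cases h : a = b
  · exact Or.inl (by rw [h])
  · exact Or.inr (exists_FD h)

lemma eq_of_lt_v {a b : X → ℚ} (hg : Good a b) {x : X} (h : (x : WithTop X) < v a b) :
    a x = b x := by
  rcases hg with rfl | ⟨g0, hg0⟩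
  · rfl
  · rw [v_of_FD hg0] at h
    exact hg0.2 x (WithTop.coe_lt_coe.1 h)

lemma v_le_of_ne {a b : X → ℚ} (hab : Good a b) {x : X} (h : a x ≠ b x) :
    v a b ≤ (x : WithTop X) := by
  by_contra hlt
  exact h (eq_of_lt_v hab (not_le.1 hlt))

lemma v_eq_top_iff {a b : H X} : v (co a) (co b) = ⊤ ↔ a = b := by
  constructor
  · intro h
    by_contra hne
    obtain ⟨x, hx⟩ := exists_FD hne
    rw [v_of_FD hx] at h
    exact WithTop.coe_ne_top h
  · rintro rfl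
    exact v_self _

/-- the ultrametric inequality, in its strict form -/
lemma v_ultra {a b c : X → ℚ} (hbc : Good b c) (h : v a b < v b c) : v a c = v a b := by
  obtain ⟨g, hg⟩ := exists_FD_of_ne_top (ne_top_of_lt h)
  have hfd : FD a c g := by
    rw [v_of_FD hg] at h
    refine ⟨?_, fun g' hg' => ?_⟩
    · rw [← eq_of_lt_v hbc h]
      exact hg.1
    · rw [hg.2 g' hg']
      exact eq_of_lt_v hbc (lt_trans (WithTop.coe_lt_coe.2 hg') h)
  rw [v_of_FD hg, v_of_FD hfd]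

/-- the order is compatible with the valuation -/
lemma lt_iff_of_v {a b c : H X} (h : v (co a) (co b) < v (co b) (co c)) : (a < b ↔ a < c) := by
  obtain ⟨g, hg⟩ := exists_FD_of_ne_top (ne_top_of_lt h)
  have h2 : v (co a) (co c) = v (co a) (co b) := v_ultra (good_H _ _) h
  rw [v_of_FD hg] at h h2
  rw [lt_iff_of_FD hg, lt_iff_of_FD (FD_of_v h2), eq_of_lt_v (good_H b c) h]

/-- pairs of values related by `R` -/
def WRel (R : Set (X × X)) (a b : WithTop X) : Prop :=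
  (a = ⊤ ∧ b = ⊤) ∨ ∃ r ∈ R, a = ((r.1 : X) : WithTop X) ∧ b = ((r.2 : X) : WithTop X)

lemma OrdGood.wrel_lt {R : Set (X × X)} (hR : OrdGood R) {a b a' b' : WithTop X}
    (h : WRel R a b) (h' : WRel R a' b') : a < a' ↔ b < b' := by
  rcases h with ⟨rfl, rfl⟩ | ⟨r, hr, rfl, rfl⟩ <;> rcases h' with ⟨rfl, rfl⟩ | ⟨s, hs, rfl, rfl⟩
  · simp
  · simp
  · simp
  · rw [WithTop.coe_lt_coe, WithTop.coe_lt_coe]
    exact hR r hr s hs

lemma OrdGood.wrel_v {P : Set (H X × H X)} (hP : OrdGood P) {p q : H X × H X} (hp : p ∈ P)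
    (hq : q ∈ P) : WRel (valRel P) (v (co p.1) (co q.1)) (v (co p.2) (co q.2)) := by
  by_cases h : p.1 = q.1
  · left
    rw [v_eq_top_iff, v_eq_top_iff]
    exact ⟨h, (hP.eq_iff hp hq).1 h⟩
  · right
    have h2 : p.2 ≠ q.2 := fun hc => h ((hP.eq_iff hp hq).2 hc)
    obtain ⟨x, hx⟩ := exists_FD h
    obtain ⟨x', hx'⟩ := exists_FD h2
    exact ⟨(x, x'), ⟨p, hp, q, hq, hx, hx'⟩, v_of_FD hx, v_of_FD hx'⟩

end

/-- the first value set -/
abbrev G := H ℚ

/-- The countable model. -/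
abbrev Y := H G

/-- codes for values of the first kind -/
abbrev C1 (N : Type*) := N × N

/-- codes for values of the second kind -/
abbrev C2 (N : Type*) := C1 N × C1 N

/-- the valuation of `G` extended to `⊤` -/
noncomputable def DD (a b : WithTop G) : WithTop ℚ :=
  match a, b with
  | ⊤, _ => ⊤
  | _, ⊤ => ⊤
  | (a : G), (b : G) => v (co a) (co b)

lemma DD_top_left (b : WithTop G) : DD ⊤ b = ⊤ := by
  cases b <;> rfl

lemma DD_top_right (b : WithTop G) : DD b ⊤ = ⊤ := by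
  cases b <;> rfl

lemma DD_coe (a b : G) : DD (a : WithTop G) (b : WithTop G) = v (co a) (co b) := rfl

/-- first value -/
noncomputable def V1 (p : C1 Y) : WithTop G := v (co p.1) (co p.2)

/-- second value -/
noncomputable def V2 (p : C2 Y) : WithTop ℚ := DD (V1 p.1) (V1 p.2)

lemma wrel_DD {R : Set (G × G)} (hR : OrdGood R) {a b a' b' : WithTop G}
    (h : WRel R a b) (h' : WRel R a' b') : WRel (valRel R) (DD a a') (DD b b') := by
  rcases h with ⟨rfl, rfl⟩ | ⟨r, hr, rfl, rfl⟩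
  · rw [DD_top_left, DD_top_left]
    exact Or.inl ⟨rfl, rfl⟩
  · rcases h' with ⟨rfl, rfl⟩ | ⟨s, hs, rfl, rfl⟩
    · rw [DD_top_right, DD_top_right]
      exact Or.inl ⟨rfl, rfl⟩
    · exact hR.wrel_v hr hs

/-- relation symbols -/
inductive Rel : ℕ → Type
  | R0 : Rel 2
  | R1 : Rel 4
  | R2 : Rel 8

/-- The language with a binary, a `4`-ary and an `8`-ary relation symbol. -/
abbrev LL : FirstOrder.Language.{0, 0} := ⟨fun _ => Empty, Rel⟩

instance : LL.IsRelational := fun _ => inferInstanceAs (IsEmpty Empty)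

instance : Finite (Σ n, LL.Relations n) := by
  apply Finite.of_surjective (α := Fin 3)
    (fun i => match i with
      | 0 => ⟨2, Rel.R0⟩
      | 1 => ⟨4, Rel.R1⟩
      | 2 => ⟨8, Rel.R2⟩ : Fin 3 → Σ n, LL.Relations n)
  rintro ⟨n, R⟩
  cases R
  · exact ⟨0, rfl⟩
  · exact ⟨1, rfl⟩
  · exact ⟨2, rfl⟩

noncomputable instance instY : LL.Structure Y where
  funMap := fun f => f.elim
  RelMap := fun {n} (R : Rel n) t =>
    match n, R, t with
    | _, .R0, t => t 0 < t 1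
    | _, .R1, t => V1 (t 0, t 1) < V1 (t 2, t 3)
    | _, .R2, t => V2 ((t 0, t 1), (t 2, t 3)) < V2 ((t 4, t 5), (t 6, t 7))

lemma relMap_R0 (t : Fin 2 → Y) : Structure.RelMap (L := LL) Rel.R0 t ↔ t 0 < t 1 := Iff.rfl

lemma relMap_R1 (t : Fin 4 → Y) : Structure.RelMap (L := LL) Rel.R1 t ↔
    V1 (t 0, t 1) < V1 (t 2, t 3) := Iff.rfl

lemma relMap_R2 (t : Fin 8 → Y) : Structure.RelMap (L := LL) Rel.R2 t ↔
    V2 ((t 0, t 1), (t 2, t 3)) < V2 ((t 4, t 5), (t 6, t 7)) := Iff.rfl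

lemma piso_iff {P : Set (Y × Y)} : PIso LL P ↔ lift (lift OrdGood) P := by
  constructor
  · rintro ⟨_, hrel⟩
    have h0 : ∀ p ∈ P, ∀ q ∈ P, p.1 < q.1 ↔ p.2 < q.2 := by
      intro p hp q hq
      exact hrel 2 Rel.R0 ![⟨p, hp⟩, ⟨q, hq⟩]
    have h1 : ∀ p ∈ P, ∀ q ∈ P, ∀ p' ∈ P, ∀ q' ∈ P, V1 (p.1, q.1) < V1 (p'.1, q'.1) ↔
        V1 (p.2, q.2) < V1 (p'.2, q'.2) := by
      intro p hp q hq p' hp' q' hq'
      exact hrel 4 Rel.R1 ![⟨p, hp⟩, ⟨q, hq⟩, ⟨p', hp'⟩, ⟨q', hq'⟩]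
    have h2 : ∀ p ∈ P, ∀ q ∈ P, ∀ p' ∈ P, ∀ q' ∈ P, ∀ r ∈ P, ∀ s ∈ P, ∀ r' ∈ P, ∀ s' ∈ P,
        V2 ((p.1, q.1), (p'.1, q'.1)) < V2 ((r.1, s.1), (r'.1, s'.1)) ↔
        V2 ((p.2, q.2), (p'.2, q'.2)) < V2 ((r.2, s.2), (r'.2, s'.2)) := by
      intro p hp q hq p' hp' q' hq' r hr s hs r' hr' s' hs'
      exact hrel 8 Rel.R2 ![⟨p, hp⟩, ⟨q, hq⟩, ⟨p', hp'⟩, ⟨q', hq'⟩, ⟨r, hr⟩, ⟨s, hs⟩,
        ⟨r', hr'⟩, ⟨s', hs'⟩]
    refine ⟨h0, ?_, ?_⟩
    · rintro r ⟨p, hp, q, hq, hr1, hr2⟩ s ⟨p', hp', q', hq', hs1, hs2⟩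
      have := h1 p hp q hq p' hp' q' hq'
      simp only [V1, v_of_FD hr1, v_of_FD hr2, v_of_FD hs1, v_of_FD hs2,
        WithTop.coe_lt_coe] at this
      exact this
    · rintro t ⟨a, ⟨p, hp, q, hq, ha1, ha2⟩, b, ⟨p', hp', q', hq', hb1, hb2⟩, ht1, ht2⟩
        u ⟨c, ⟨r, hr, s, hs, hc1, hc2⟩, d, ⟨r', hr', s', hs', hd1, hd2⟩, hu1, hu2⟩
      have := h2 p hp q hq p' hp' q' hq' r hr s hs r' hr' s' hs'
      simp only [V2, V1, v_of_FD ha1, v_of_FD ha2, v_of_FD hb1, v_of_FD hb2, v_of_FD hc1,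
        v_of_FD hc2, v_of_FD hd1, v_of_FD hd2, DD_coe, v_of_FD ht1, v_of_FD ht2, v_of_FD hu1,
        v_of_FD hu2, WithTop.coe_lt_coe] at this
      exact this
  · rintro ⟨h0, h1, h2⟩
    refine ⟨fun i j => h0.eq_iff i.2 j.2, fun n R w => ?_⟩
    cases R with
    | R0 => exact h0 _ (w 0).2 _ (w 1).2
    | R1 => exact h1.wrel_lt (h0.wrel_v (w 0).2 (w 1).2) (h0.wrel_v (w 2).2 (w 3).2)
    | R2 =>
      exact h2.wrel_lt
        (wrel_DD h1 (h0.wrel_v (w 0).2 (w 1).2) (h0.wrel_v (w 2).2 (w 3).2))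
        (wrel_DD h1 (h0.wrel_v (w 4).2 (w 5).2) (h0.wrel_v (w 6).2 (w 7).2))

/-- `Y` is homogeneous. -/
theorem homog_Y : Homog LL Y := by
  intro P hfin hP z
  obtain ⟨z', hz'⟩ := ext_rat.lift.lift.ext (piso_iff.1 hP) hfin z
  exact ⟨z', piso_iff.2 hz'⟩

/-- The theory. -/
abbrev TT : LL.Theory := LL.completeTheory Y

end Pool.Agent.Helper1.DP
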