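import Mathlib

/-!
Finitely supported rational valued functions on a linear order with the lexicographic order and
the first difference, and one-point extensions of finite partial isomorphisms.
-/

open Set

namespace Pool.Agent.Helper1.DP

/-- finitely supported rational functions on `X`, with the lexicographic order -/
abbrev H (X : Type) := Lex (X →₀ ℚ)

/-- coefficients -/
def co {X : Type} (a : H X) (x : X) : ℚ := (ofLex a) x

lemma co_inj {X : Type} {a b : H X} (h : co a = co b) : a = b := by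
  apply ofLex.injective
  ext x
  exact congrFun h x

section

variable {X : Type} [LinearOrder X]

/-- `x` is the first difference of `a` and `b` -/
def FD (a b : X → ℚ) (x : X) : Prop := a x ≠ b x ∧ ∀ x' < x, a x' = b x'

lemma FD.unique {a b : X → ℚ} {x x' : X} (h : FD a b x) (h' : FD a b x') : x = x' := by
  rcases lt_trichotomy x x' with h1 | h1 | h1
  · exact absurd (h'.2 _ h1) h.1
  · exact h1
  · exact absurd (h.2 _ h1) h'.1

lemma FD.symm {a b : X → ℚ} {x : X} (h : FD a b x) : FD b a x :=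
  ⟨h.1.symm, fun x' hx' => (h.2 x' hx').symm⟩

lemma lt_iff_exists {a b : H X} : a < b ↔ ∃ x, FD (co a) (co b) x ∧ co a x < co b x := by
  rw [Finsupp.Lex.lt_iff]
  constructor
  · rintro ⟨x, h1, h2⟩
    exact ⟨x, ⟨h2.ne, h1⟩, h2⟩
  · rintro ⟨x, h1, h2⟩
    exact ⟨x, h1.2, h2⟩

lemma lt_iff_of_FD {a b : H X} {x : X} (h : FD (co a) (co b) x) : a < b ↔ co a x < co b x := by
  rw [lt_iff_exists]
  constructor
  · rintro ⟨x', h1, h2⟩
    rwa [h.unique h1]
  · exact fun h1 => ⟨x, h, h1⟩

lemma exists_FD {a b : H X} (h : a ≠ b) : ∃ x, FD (co a) (co b) x := by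
  rcases lt_or_gt_of_ne h with h1 | h1
  · obtain ⟨x, hx, _⟩ := lt_iff_exists.1 h1
    exact ⟨x, hx⟩
  · obtain ⟨x, hx, _⟩ := lt_iff_exists.1 h1
    exact ⟨x, hx.symm⟩

lemma ne_of_FD {a b : H X} {x : X} (h : FD (co a) (co b) x) : a ≠ b := by
  rintro rfl
  exact h.1 rfl

/-- order preserving relations -/
def OrdGood (R : Set (X × X)) : Prop := ∀ r ∈ R, ∀ s ∈ R, r.1 < s.1 ↔ r.2 < s.2

lemma OrdGood.eq_iff {R : Set (X × X)} (h : OrdGood R) {r s : X × X} (hr : r ∈ R) (hs : s ∈ R) :
    r.1 = s.1 ↔ r.2 = s.2 := by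
  have h1 := h r hr s hs
  have h2 := h s hs r hr
  constructor
  · intro heq
    apply le_antisymm
    · rw [← not_lt, ← h2, heq]; exact lt_irrefl _
    · rw [← not_lt, ← h1, heq]; exact lt_irrefl _
  · intro heq
    apply le_antisymm
    · rw [← not_lt, h2, heq]; exact lt_irrefl _
    · rw [← not_lt, h1, heq]; exact lt_irrefl _

lemma OrdGood.swap {R : Set (X × X)} (h : OrdGood R) : OrdGood (Prod.swap '' R) := by
  rintro _ ⟨r, hr, rfl⟩ _ ⟨s, hs, rfl⟩
  exact (h r hr s hs).symm

/-- the values of a relation -/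
def valRel (P : Set (H X × H X)) : Set (X × X) :=
  {r | ∃ p ∈ P, ∃ q ∈ P, FD (co p.1) (co q.1) r.1 ∧ FD (co p.2) (co q.2) r.2}

lemma valRel_mono {P Q : Set (H X × H X)} (h : Q ⊆ P) : valRel Q ⊆ valRel P := by
  rintro r ⟨p, hp, q, hq, h1⟩
  exact ⟨p, h hp, q, h hq, h1⟩

lemma valRel_swap (P : Set (H X × H X)) : valRel (Prod.swap '' P) ⊆ Prod.swap '' valRel P := by
  rintro r ⟨_, ⟨p, hp, rfl⟩, _, ⟨q, hq, rfl⟩, h1, h2⟩
  exact ⟨r.swap, ⟨p, hp, q, hq, h2, h1⟩, Prod.swap_swap r⟩

lemma valRel_finite {P : Set (H X × H X)} (h : P.Finite) : (valRel P).Finite := by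
  have h1 : valRel P ⊆ ⋃ p ∈ P, ⋃ q ∈ P, {r : X × X | FD (co p.1) (co q.1) r.1 ∧
      FD (co p.2) (co q.2) r.2} := by
    rintro r ⟨p, hp, q, hq, h1⟩
    simp only [mem_iUnion]
    exact ⟨p, hp, q, hq, h1⟩
  refine Set.Finite.subset (h.biUnion fun p _ => h.biUnion fun q _ => ?_) h1
  apply Set.Subsingleton.finite
  rintro r hr s hs
  exact Prod.ext (hr.1.unique hs.1) (hr.2.unique hs.2)

/-- A class of relations with one-point extensions. -/
structure Ext (X : Type) [LinearOrder X] (good : Set (X × X) → Prop) : Prop where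
  empty : good ∅
  mono : ∀ {R R' : Set (X × X)}, good R → R' ⊆ R → good R'
  ord : ∀ {R : Set (X × X)}, good R → OrdGood R
  swap : ∀ {R : Set (X × X)}, good R → good (Prod.swap '' R)
  ext : ∀ {R : Set (X × X)}, good R → R.Finite → ∀ x, ∃ x', good (insert (x, x') R)

lemma Ext.ext' {good : Set (X × X) → Prop} (h : Ext X good) {R : Set (X × X)} (hR : good R)
    (hfin : R.Finite) (x' : X) : ∃ x, good (insert (x, x') R) := by
  obtain ⟨x, hx⟩ := h.ext (h.swap hR) (hfin.image _) x'
  refine ⟨x, h.mono (h.swap hx) ?_⟩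
  intro p hp
  rcases mem_insert_iff.1 hp with rfl | hp
  · exact ⟨(x', x), mem_insert _ _, rfl⟩
  · exact ⟨p.swap, mem_insert_of_mem _ ⟨p, hp, rfl⟩, Prod.swap_swap p⟩

/-- the lifted class -/
def lift (good : Set (X × X) → Prop) (P : Set (H X × H X)) : Prop :=
  OrdGood P ∧ good (valRel P)

theorem ext_rat : Ext ℚ OrdGood where
  empty := fun r hr => absurd hr (notMem_empty r)
  mono := fun hR hsub r hr s hs => hR r (hsub hr) s (hsub hs)
  ord := fun hR => hR
  swap := OrdGood.swap
  ext := by
    classical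
    intro R hR hfin x
    by_cases hex : ∃ r ∈ R, r.1 = x
    · obtain ⟨r, hr, rfl⟩ := hex
      refine ⟨r.2, ?_⟩
      have : ((r.1, r.2) : ℚ × ℚ) = r := rfl
      rw [this, insert_eq_of_mem hr]
      exact hR
    · push Not at hex
      let lo : Finset ℚ := (hfin.toFinset.filter (fun r => r.1 < x)).image Prod.snd
      let hi : Finset ℚ := (hfin.toFinset.filter (fun r => x < r.1)).image Prod.snd
      obtain ⟨c, hc1, hc2⟩ : ∃ c : ℚ, (∀ a ∈ lo, a < c) ∧ ∀ b ∈ hi, c < b := by
        apply Order.exists_between_finsets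
        intro a ha b hb
        simp only [lo, hi, Finset.mem_image, Finset.mem_filter, hfin.mem_toFinset] at ha hb
        obtain ⟨r, ⟨hr, hr'⟩, rfl⟩ := ha
        obtain ⟨s, ⟨hs, hs'⟩, rfl⟩ := hb
        exact (hR r hr s hs).1 (hr'.trans hs')
      have key1 : ∀ r ∈ R, r.1 < x → r.2 < c := by
        intro r hr h1
        apply hc1
        simp only [lo, Finset.mem_image, Finset.mem_filter, hfin.mem_toFinset]
        exact ⟨r, ⟨hr, h1⟩, rfl⟩
      have key2 : ∀ r ∈ R, x < r.1 → c < r.2 := by
        intro r hr h1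
        apply hc2
        simp only [hi, Finset.mem_image, Finset.mem_filter, hfin.mem_toFinset]
        exact ⟨r, ⟨hr, h1⟩, rfl⟩
      refine ⟨c, ?_⟩
      intro r hr s hs
      rcases mem_insert_iff.1 hr with rfl | hr <;> rcases mem_insert_iff.1 hs with rfl | hs
      · simp
      · rcases lt_or_gt_of_ne (hex s hs) with h1 | h1
        · exact ⟨fun h => absurd h (lt_asymm h1), fun h => absurd h (lt_asymm (key1 s hs h1))⟩
        · exact ⟨fun _ => key2 s hs h1, fun _ => h1⟩
      · rcases lt_or_gt_of_ne (hex r hr) with h1 | h1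
        · exact ⟨fun _ => key1 r hr h1, fun _ => h1⟩
        · exact ⟨fun h => absurd h (lt_asymm h1), fun h => absurd h (lt_asymm (key2 r hr h1))⟩
      · exact hR r hr s hs

/-- If `x` is a first difference of `z` and `a`, and `z` agrees with `b` up to `x`, then it is a
first difference of `b` and `a`. -/
lemma FD.replace {z a b : X → ℚ} {x : X} (h : FD z a x) (h' : ∀ x' ≤ x, z x' = b x') :
    FD b a x := by
  refine ⟨?_, fun x' hx' => ?_⟩
  · rw [← h' x le_rfl]
    exact h.1
  · rw [← h' x' hx'.le]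
    exact h.2 x' hx'

theorem Ext.lift {good : Set (X × X) → Prop} (h : Ext X good) : Ext (H X) (lift good) where
  empty := by
    refine ⟨fun r hr => absurd hr (notMem_empty r), h.mono h.empty ?_⟩
    rintro r ⟨p, hp, _⟩
    exact absurd hp (notMem_empty p)
  mono := fun hP hsub =>
    ⟨fun r hr s hs => hP.1 r (hsub hr) s (hsub hs), h.mono hP.2 (valRel_mono hsub)⟩
  ord := fun hP => hP.1
  swap := fun {P} hP => ⟨hP.1.swap, h.mono (h.swap hP.2) (valRel_swap P)⟩
  ext := by
    classical
    intro P hP hfin z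
    by_cases hex : ∃ r ∈ P, r.1 = z
    · obtain ⟨r, hr, rfl⟩ := hex
      refine ⟨r.2, ?_⟩
      have : ((r.1, r.2) : H X × H X) = r := rfl
      rw [this, insert_eq_of_mem hr]
      exact hP
    push Not at hex
    rcases P.eq_empty_or_nonempty with rfl | hne
    · refine ⟨z, ?_, h.mono h.empty ?_⟩
      · intro r hr s hs
        rcases mem_insert_iff.1 hr with rfl | hr
        · rcases mem_insert_iff.1 hs with rfl | hs
          · exact Iff.rfl
          · exact absurd hs (notMem_empty s)
        · exact absurd hr (notMem_empty r)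
      · rintro r ⟨p, hp, q, hq, h1, h2⟩
        rcases mem_insert_iff.1 hp with rfl | hp
        · rcases mem_insert_iff.1 hq with rfl | hq
          · exact absurd rfl h1.1
          · exact absurd hq (notMem_empty q)
        · exact absurd hp (notMem_empty p)
    -- the first differences with `z`
    have hfd : ∀ p : H X × H X, ∃ x : X, p ∈ P → FD (co z) (co p.1) x := by
      intro p
      by_cases hp : p ∈ P
      · obtain ⟨x, hx⟩ := exists_FD (hex p hp).symm
        exact ⟨x, fun _ => hx⟩
      · obtain ⟨p0, hp0⟩ := hne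
        obtain ⟨x, hx⟩ := exists_FD (hex p0 hp0).symm
        exact ⟨x, fun h => absurd h hp⟩
    choose t ht using hfd
    obtain ⟨p0, hp0, hmax⟩ := hfin.exists_maximalFor t P hne
    have hmax' : ∀ p ∈ P, t p ≤ t p0 := by
      intro p hp
      rcases le_total (t p) (t p0) with h1 | h1
      · exact h1
      · exact hmax hp h1
    obtain ⟨x', hx'⟩ := h.ext hP.2 (valRel_finite hfin) (t p0)
    have hord := h.ord hx'
    have hmem0 : (t p0, x') ∈ insert (t p0, x') (valRel P) := mem_insert _ _
    -- points of the closed ball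
    have keyA : ∀ p ∈ P, ∀ q ∈ P, t p = t p0 → t q = t p0 →
        (∀ y < x', co p.2 y = co q.2 y) ∧
        (co p.1 (t p0) < co q.1 (t p0) → co p.2 x' < co q.2 x') := by
      intro p hp q hq htp htq
      by_cases heq : p.1 = q.1
      · have heq2 := (hP.1.eq_iff hp hq).1 heq
        rw [heq, heq2]
        exact ⟨fun _ _ => rfl, fun hlt => absurd hlt (lt_irrefl _)⟩
      · have heq2 : p.2 ≠ q.2 := fun hc => heq ((hP.1.eq_iff hp hq).2 hc)
        obtain ⟨x1, hx1⟩ := exists_FD heq
        obtain ⟨x2, hx2⟩ := exists_FD heq2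
        have hmem : (x1, x2) ∈ insert (t p0, x') (valRel P) :=
          mem_insert_of_mem _ ⟨p, hp, q, hq, hx1, hx2⟩
        have hge : t p0 ≤ x1 := by
          by_contra hc
          rw [not_le] at hc
          apply hx1.1
          rw [← (ht p hp).2 x1 (by rw [htp]; exact hc), ← (ht q hq).2 x1 (by rw [htq]; exact hc)]
        have hge2 : x' ≤ x2 := by
          rw [← not_lt, ← hord _ hmem _ hmem0, not_lt]
          exact hge
        refine ⟨fun y hy => hx2.2 y (lt_of_lt_of_le hy hge2), fun hlt => ?_⟩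
        have hle : x1 ≤ t p0 := by
          by_contra hc
          rw [not_le] at hc
          exact hlt.ne (hx1.2 _ hc)
        have hx1eq : t p0 = x1 := le_antisymm hge hle
        have hx2eq : x' = x2 := (hord.eq_iff hmem0 hmem).1 hx1eq
        rw [hx2eq]
        rw [hx1eq] at hlt
        exact (lt_iff_of_FD hx2).1 ((hP.1 p hp q hq).1 ((lt_iff_of_FD hx1).2 hlt))
    let lo : Finset ℚ := (hfin.toFinset.filter
      (fun p => t p = t p0 ∧ co p.1 (t p0) < co z (t p0))).image (fun p => co p.2 x')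
    let hi : Finset ℚ := (hfin.toFinset.filter
      (fun p => t p = t p0 ∧ co z (t p0) < co p.1 (t p0))).image (fun p => co p.2 x')
    obtain ⟨c, hc1, hc2⟩ : ∃ c : ℚ, (∀ a ∈ lo, a < c) ∧ ∀ b ∈ hi, c < b := by
      apply Order.exists_between_finsets
      intro a ha b hb
      simp only [lo, hi, Finset.mem_image, Finset.mem_filter, hfin.mem_toFinset] at ha hb
      obtain ⟨r, ⟨hr, hr', hr''⟩, rfl⟩ := ha
      obtain ⟨s, ⟨hs, hs', hs''⟩, rfl⟩ := hb
      exact (keyA r hr s hs hr' hs').2 (hr''.trans hs'')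
    let z' : H X := toLex ((ofLex p0.2).filter (fun y => y < x') + Finsupp.single x' c)
    have hz1 : ∀ y, y < x' → co z' y = co p0.2 y := by
      intro y hy
      have hne1 : x' ≠ y := hy.ne'
      simp only [co, z', ofLex_toLex, Finsupp.add_apply, Finsupp.single_apply, if_neg hne1,
        add_zero, Finsupp.filter_apply, if_pos hy]
    have hz2 : co z' x' = c := by
      simp only [co, z', ofLex_toLex, Finsupp.add_apply, Finsupp.single_apply, if_true,
        Finsupp.filter_apply, lt_irrefl, if_false, zero_add]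
    have keyB : ∀ p ∈ P, ∃ r ∈ insert (t p0, x') (valRel P), FD (co z) (co p.1) r.1 ∧
        FD (co z') (co p.2) r.2 ∧ (co z r.1 < co p.1 r.1 ↔ co z' r.2 < co p.2 r.2) := by
      intro p hp
      rcases (hmax' p hp).lt_or_eq with hlt | heq
      · have hfd1 : FD (co p0.1) (co p.1) (t p) :=
          (ht p hp).replace fun y hy => (ht p0 hp0).2 y (lt_of_le_of_lt hy hlt)
        have hne1 := ne_of_FD hfd1
        have hne2 : p0.2 ≠ p.2 := fun hc => hne1 ((hP.1.eq_iff hp0 hp).2 hc)
        obtain ⟨x2, hx2⟩ := exists_FD hne2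
        have hmem : (t p, x2) ∈ insert (t p0, x') (valRel P) :=
          mem_insert_of_mem _ ⟨p0, hp0, p, hp, hfd1, hx2⟩
        have hlt2 : x2 < x' := (hord _ hmem _ hmem0).1 hlt
        refine ⟨(t p, x2), hmem, ht p hp, ?_, ?_⟩
        · exact hx2.replace fun y hy => (hz1 y (lt_of_le_of_lt hy hlt2)).symm
        · show co z (t p) < co p.1 (t p) ↔ co z' x2 < co p.2 x2
          rw [hz1 x2 hlt2, (ht p0 hp0).2 (t p) hlt, ← lt_iff_of_FD hfd1, ← lt_iff_of_FD hx2]
          exact hP.1 p0 hp0 p hp
      · have hB := (ht p hp)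
        rw [heq] at hB
        have hcmp : co p.1 (t p0) < co z (t p0) → co p.2 x' < c := by
          intro h1
          apply hc1
          simp only [lo, Finset.mem_image, Finset.mem_filter, hfin.mem_toFinset]
          exact ⟨p, ⟨hp, heq, h1⟩, rfl⟩
        have hcmp' : co z (t p0) < co p.1 (t p0) → c < co p.2 x' := by
          intro h1
          apply hc2
          simp only [hi, Finset.mem_image, Finset.mem_filter, hfin.mem_toFinset]
          exact ⟨p, ⟨hp, heq, h1⟩, rfl⟩
        have hag := (keyA p0 hp0 p hp rfl heq).1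
        refine ⟨(t p0, x'), hmem0, hB, ⟨?_, ?_⟩, ?_⟩
        · rw [hz2]
          rcases lt_or_gt_of_ne hB.1 with h1 | h1
          · exact (hcmp' h1).ne
          · exact (hcmp h1).ne'
        · intro y hy
          rw [hz1 y hy]
          exact hag y hy
        · show co z (t p0) < co p.1 (t p0) ↔ co z' x' < co p.2 x'
          rw [hz2]
          rcases lt_or_gt_of_ne hB.1 with h1 | h1
          · exact ⟨fun _ => hcmp' h1, fun _ => h1⟩
          · exact ⟨fun h => absurd h (lt_asymm h1), fun h => absurd h (lt_asymm (hcmp h1))⟩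
    have keyC : ∀ p ∈ P, (z < p.1 ↔ z' < p.2) ∧ (p.1 < z ↔ p.2 < z') := by
      intro p hp
      obtain ⟨r, _, h1, h2, h3⟩ := keyB p hp
      have h4 : z < p.1 ↔ z' < p.2 := by rw [lt_iff_of_FD h1, lt_iff_of_FD h2, h3]
      have hn1 := ne_of_FD h1
      have hn2 := ne_of_FD h2
      refine ⟨h4, ?_⟩
      rw [← not_iff_not, not_lt, not_lt, le_iff_lt_or_eq, le_iff_lt_or_eq]
      simp only [hn1, hn2, or_false]
      exact h4
    refine ⟨z', ?_, h.mono hx' ?_⟩
    · intro r hr s hs
      rcases mem_insert_iff.1 hr with rfl | hr <;> rcases mem_insert_iff.1 hs with rfl | hs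
      · simp
      · exact (keyC s hs).1
      · exact (keyC r hr).2
      · exact hP.1 r hr s hs
    · rintro r ⟨p, hp, q, hq, h1, h2⟩
      rcases mem_insert_iff.1 hp with rfl | hp <;> rcases mem_insert_iff.1 hq with rfl | hq
      · exact absurd rfl h1.1
      · obtain ⟨r', hr', h3, h4, _⟩ := keyB q hq
        have : r = r' := Prod.ext (h1.unique h3) (h2.unique h4)
        rw [this]
        exact hr'
      · obtain ⟨r', hr', h3, h4, _⟩ := keyB p hp
        have : r = r' := Prod.ext (h1.symm.unique h3) (h2.symm.unique h4)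
        rw [this]
        exact hr'
      · exact mem_insert_of_mem _ ⟨p, hp, q, hq, h1, h2⟩

end

end Pool.Agent.Helper1.DP
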