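import Pool.Agent.Helper1.DP.Struct

/-!
Elementary facts on values in an arbitrary model of the theory, by transfer.
-/

open FirstOrder FirstOrder.Language Set

namespace Pool.Agent.Helper1.DP

lemma DD_ultra {a b c : WithTop G} (hc : c ≠ ⊤) (h : DD a b < DD b c) : DD a c = DD a b := by
  cases a with
  | top => rw [DD_top_left] at h; exact absurd h not_top_lt
  | coe a =>
    cases b with
    | top => rw [DD_top_right] at h; exact absurd h not_top_lt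
    | coe b =>
      cases c with
      | top => exact absurd rfl hc
      | coe c =>
        rw [DD_coe, DD_coe] at h
        rw [DD_coe, DD_coe]
        exact v_ultra (good_H _ _) h

lemma DD_comm (a b : WithTop G) : DD a b = DD b a := by
  cases a with
  | top => rw [DD_top_left, DD_top_right]
  | coe a =>
    cases b with
    | top => rw [DD_top_left, DD_top_right]
    | coe b => exact v_comm _ _

lemma DD_self (a : WithTop G) : DD a a = ⊤ := by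
  cases a with
  | top => rfl
  | coe a => exact v_self _

lemma V1_eq_top_iff {a b : Y} : V1 (a, b) = ⊤ ↔ a = b := v_eq_top_iff

section

variable {N : Type*} [LL.Structure N]

/-- the order -/
def Lt0 (a b : N) : Prop := Structure.RelMap (L := LL) Rel.R0 ![a, b]

/-- comparison of first values -/
def Lt1 (p q : C1 N) : Prop := Structure.RelMap (L := LL) Rel.R1 ![p.1, p.2, q.1, q.2]

/-- comparison of second values -/
def Lt2 (p q : C2 N) : Prop :=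
  Structure.RelMap (L := LL) Rel.R2 ![p.1.1, p.1.2, p.2.1, p.2.2, q.1.1, q.1.2, q.2.1, q.2.2]

/-- the same first value -/
def Eqv1 (p q : C1 N) : Prop := ¬ Lt1 p q ∧ ¬ Lt1 q p

/-- the same second value -/
def Eqv2 (p q : C2 N) : Prop := ¬ Lt2 p q ∧ ¬ Lt2 q p

lemma relMap_eq_Lt0 (t : Fin 2 → N) :
    Structure.RelMap (L := LL) Rel.R0 t ↔ Lt0 (t 0) (t 1) := by
  have : t = ![t 0, t 1] := by
    funext i
    fin_cases i <;> rfl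
  rw [Lt0, ← this]

lemma relMap_eq_Lt1 (t : Fin 4 → N) :
    Structure.RelMap (L := LL) Rel.R1 t ↔ Lt1 (t 0, t 1) (t 2, t 3) := by
  have : t = ![t 0, t 1, t 2, t 3] := by
    funext i
    fin_cases i <;> rfl
  rw [Lt1, ← this]

lemma relMap_eq_Lt2 (t : Fin 8 → N) :
    Structure.RelMap (L := LL) Rel.R2 t ↔
      Lt2 ((t 0, t 1), (t 2, t 3)) ((t 4, t 5), (t 6, t 7)) := by
  have : t = ![t 0, t 1, t 2, t 3, t 4, t 5, t 6, t 7] := by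
    funext i
    fin_cases i <;> rfl
  rw [Lt2, ← this]

lemma Lt0_Y (a b : Y) : Lt0 a b ↔ a < b := by
  rw [Lt0, relMap_R0]
  rfl

lemma Lt1_Y (p q : C1 Y) : Lt1 p q ↔ V1 p < V1 q := by
  rw [Lt1, relMap_R1]
  rfl

lemma Lt2_Y (p q : C2 Y) : Lt2 p q ↔ V2 p < V2 q := by
  rw [Lt2, relMap_R2]
  rfl

lemma Eqv1_Y (p q : C1 Y) : Eqv1 p q ↔ V1 p = V1 q := by
  rw [Eqv1, Lt1_Y, Lt1_Y, not_lt, not_lt]
  exact ⟨fun h => le_antisymm h.2 h.1, fun h => ⟨h.ge, h.le⟩⟩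

lemma Eqv2_Y (p q : C2 Y) : Eqv2 p q ↔ V2 p = V2 q := by
  rw [Eqv2, Lt2_Y, Lt2_Y, not_lt, not_lt]
  exact ⟨fun h => le_antisymm h.2 h.1, fun h => ⟨h.ge, h.le⟩⟩

section

variable {N' : Type*} [LL.Structure N'] {ι : Type*} {s : ι → N} {s' : ι → N'}

lemma SameDiag.lt0_iff (h : SameDiag LL s s') (i j : ι) :
    Lt0 (s i) (s j) ↔ Lt0 (s' i) (s' j) := by
  have := h.2 2 Rel.R0 ![i, j]
  rwa [relMap_eq_Lt0, relMap_eq_Lt0] at this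

lemma SameDiag.lt1_iff (h : SameDiag LL s s') (i j k l : ι) :
    Lt1 (s i, s j) (s k, s l) ↔ Lt1 (s' i, s' j) (s' k, s' l) := by
  have := h.2 4 Rel.R1 ![i, j, k, l]
  rwa [relMap_eq_Lt1, relMap_eq_Lt1] at this

lemma SameDiag.lt2_iff (h : SameDiag LL s s') (i j k l i' j' k' l' : ι) :
    Lt2 ((s i, s j), (s k, s l)) ((s i', s j'), (s k', s l')) ↔
      Lt2 ((s' i, s' j), (s' k, s' l)) ((s' i', s' j'), (s' k', s' l')) := by
  have := h.2 8 Rel.R2 ![i, j, k, l, i', j', k', l']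
  rwa [relMap_eq_Lt2, relMap_eq_Lt2] at this

lemma SameDiag.eqv1_iff (h : SameDiag LL s s') (i j k l : ι) :
    Eqv1 (s i, s j) (s k, s l) ↔ Eqv1 (s' i, s' j) (s' k, s' l) := by
  rw [Eqv1, Eqv1, h.lt1_iff, h.lt1_iff]

lemma SameDiag.eqv2_iff (h : SameDiag LL s s') (i j k l i' j' k' l' : ι) :
    Eqv2 ((s i, s j), (s k, s l)) ((s i', s j'), (s k', s l')) ↔
      Eqv2 ((s' i, s' j), (s' k, s' l)) ((s' i', s' j'), (s' k', s' l')) := by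
  rw [Eqv2, Eqv2, h.lt2_iff, h.lt2_iff]

lemma sameDiag_of_lt_iff (h : ∀ i j, s i = s j ↔ s' i = s' j)
    (h0 : ∀ i j, Lt0 (s i) (s j) ↔ Lt0 (s' i) (s' j))
    (h1 : ∀ i j k l, Lt1 (s i, s j) (s k, s l) ↔ Lt1 (s' i, s' j) (s' k, s' l))
    (h2 : ∀ i j k l i' j' k' l', Lt2 ((s i, s j), (s k, s l)) ((s i', s j'), (s k', s l')) ↔
      Lt2 ((s' i, s' j), (s' k, s' l)) ((s' i', s' j'), (s' k', s' l'))) :
    SameDiag LL s s' := by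
  refine ⟨h, fun n r w => ?_⟩
  cases r with
  | R0 =>
    rw [relMap_eq_Lt0, relMap_eq_Lt0]
    exact h0 _ _
  | R1 =>
    rw [relMap_eq_Lt1, relMap_eq_Lt1]
    exact h1 _ _ _ _
  | R2 =>
    rw [relMap_eq_Lt2, relMap_eq_Lt2]
    exact h2 _ _ _ _ _ _ _ _

end

lemma Eqv1.symm {p q : C1 N} (h : Eqv1 p q) : Eqv1 q p := ⟨h.2, h.1⟩

lemma Eqv2.symm {p q : C2 N} (h : Eqv2 p q) : Eqv2 q p := ⟨h.2, h.1⟩

lemma trich1 (p q : C1 N) : Lt1 p q ∨ Eqv1 p q ∨ Lt1 q p := by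
  by_cases h1 : Lt1 p q
  · exact Or.inl h1
  by_cases h2 : Lt1 q p
  · exact Or.inr (Or.inr h2)
  · exact Or.inr (Or.inl ⟨h1, h2⟩)

lemma trich2 (p q : C2 N) : Lt2 p q ∨ Eqv2 p q ∨ Lt2 q p := by
  by_cases h1 : Lt2 p q
  · exact Or.inl h1
  by_cases h2 : Lt2 q p
  · exact Or.inr (Or.inr h2)
  · exact Or.inr (Or.inl ⟨h1, h2⟩)

end

section

variable {N : Type*} [LL.Structure N] [N ⊨ TT]

lemma Lt1_congr {p q p' q' : C1 N} (h : Eqv1 p p') (h' : Eqv1 q q') :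
    Lt1 p q ↔ Lt1 p' q' := by
  obtain ⟨t, ht⟩ := exists_sameDiag (L := LL) Y ![p.1, p.2, q.1, q.2, p'.1, p'.2, q'.1, q'.2]
  have h1 := (ht.eqv1_iff 0 1 4 5).1 h
  have h2 := (ht.eqv1_iff 2 3 6 7).1 h'
  rw [Eqv1_Y] at h1 h2
  have h3 := ht.lt1_iff 0 1 2 3
  have h4 := ht.lt1_iff 4 5 6 7
  rw [Lt1_Y] at h3 h4
  rw [h1, h2, ← h4] at h3
  exact h3

lemma Eqv1.trans {p q r : C1 N} (h : Eqv1 p q) (h' : Eqv1 q r) : Eqv1 p r := by
  obtain ⟨t, ht⟩ := exists_sameDiag (L := LL) Y ![p.1, p.2, q.1, q.2, r.1, r.2]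
  have h1 := (ht.eqv1_iff 0 1 2 3).1 h
  have h2 := (ht.eqv1_iff 2 3 4 5).1 h'
  have h3 := ht.eqv1_iff 0 1 4 5
  rw [Eqv1_Y] at h1 h2 h3
  exact h3.2 (h1.trans h2)

lemma Eqv1_comm (a b : N) : Eqv1 (a, b) (b, a) := by
  obtain ⟨t, ht⟩ := exists_sameDiag (L := LL) Y ![a, b]
  have h3 := ht.eqv1_iff 0 1 1 0
  rw [Eqv1_Y] at h3
  exact h3.2 (v_comm _ _)

lemma Eqv1_refl (p : C1 N) : Eqv1 p p := (Eqv1_comm p.1 p.2).trans (Eqv1_comm p.2 p.1)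

lemma Eqv1_self (a c : N) : Eqv1 (a, a) (c, c) := by
  obtain ⟨t, ht⟩ := exists_sameDiag (L := LL) Y ![a, c]
  have h3 := ht.eqv1_iff 0 0 1 1
  rw [Eqv1_Y] at h3
  exact h3.2 (by rw [V1, V1]; simp only [v_self])

lemma Eqv1_ultra {a b c : N} (h : Lt1 (a, b) (b, c)) : Eqv1 (a, c) (a, b) := by
  obtain ⟨t, ht⟩ := exists_sameDiag (L := LL) Y ![a, b, c]
  have h1 := (ht.lt1_iff 0 1 1 2).1 h
  rw [Lt1_Y] at h1
  have h3 := ht.eqv1_iff 0 2 0 1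
  rw [Eqv1_Y] at h3
  exact h3.2 (v_ultra (good_H _ _) h1)

lemma eq_iff_Lt1 {a b : N} : a = b ↔ ¬ Lt1 (a, b) (a, a) := by
  obtain ⟨t, ht⟩ := exists_sameDiag (L := LL) Y ![a, b]
  have h1 := ht.1 0 1
  have h2 := ht.lt1_iff 0 1 0 0
  simp only [Matrix.cons_val_zero, Matrix.cons_val_one] at h1 h2
  have h3 : V1 (t 0, t 0) = ⊤ := v_self _
  rw [h1, h2, Lt1_Y, h3, not_lt, top_le_iff, V1_eq_top_iff]

lemma Lt0_ultra {a b c : N} (h : Lt1 (a, b) (b, c)) : (Lt0 a b ↔ Lt0 a c) ∧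
    (Lt0 b a ↔ Lt0 c a) := by
  obtain ⟨t, ht⟩ := exists_sameDiag (L := LL) Y ![a, b, c]
  have h1 := (ht.lt1_iff 0 1 1 2).1 h
  rw [Lt1_Y] at h1
  have e1 := ht.lt0_iff 0 1
  have e2 := ht.lt0_iff 0 2
  have e3 := ht.lt0_iff 1 0
  have e4 := ht.lt0_iff 2 0
  have h1' : v (co (t 0)) (co (t 1)) < v (co (t 1)) (co (t 2)) := h1
  have h5 : (t 0 < t 1 ↔ t 0 < t 2) := lt_iff_of_v h1'
  have hne1 : t 0 ≠ t 1 := by
    intro h
    rw [h, v_self] at h1'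
    exact not_top_lt h1'
  have hne2 : t 0 ≠ t 2 := by
    intro h
    have h6 : v (co (t 0)) (co (t 2)) = v (co (t 0)) (co (t 1)) := v_ultra (good_H _ _) h1'
    rw [← h, v_self] at h6
    rw [← h6] at h1'
    exact not_top_lt h1'
  rw [Lt0_Y] at e1 e2 e3 e4
  refine ⟨?_, ?_⟩
  · exact (e1.trans h5).trans e2.symm
  · refine (e3.trans ?_).trans e4.symm
    rw [← not_iff_not, not_lt, not_lt, le_iff_lt_or_eq, le_iff_lt_or_eq]
    simp only [hne1, hne2, or_false]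
    exact h5

lemma Lt2_congr {p q p' q' : C2 N} (h : Eqv2 p p') (h' : Eqv2 q q') :
    Lt2 p q ↔ Lt2 p' q' := by
  obtain ⟨t, ht⟩ := exists_sameDiag (L := LL) Y ![p.1.1, p.1.2, p.2.1, p.2.2,
    q.1.1, q.1.2, q.2.1, q.2.2, p'.1.1, p'.1.2, p'.2.1, p'.2.2, q'.1.1, q'.1.2, q'.2.1, q'.2.2]
  have h1 := (ht.eqv2_iff 0 1 2 3 8 9 10 11).1 h
  have h2 := (ht.eqv2_iff 4 5 6 7 12 13 14 15).1 h'
  rw [Eqv2_Y] at h1 h2
  have h3 := ht.lt2_iff 0 1 2 3 4 5 6 7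
  have h4 := ht.lt2_iff 8 9 10 11 12 13 14 15
  rw [Lt2_Y] at h3 h4
  rw [h1, h2, ← h4] at h3
  exact h3

lemma Eqv2.trans {p q r : C2 N} (h : Eqv2 p q) (h' : Eqv2 q r) : Eqv2 p r := by
  obtain ⟨t, ht⟩ := exists_sameDiag (L := LL) Y ![p.1.1, p.1.2, p.2.1, p.2.2,
    q.1.1, q.1.2, q.2.1, q.2.2, r.1.1, r.1.2, r.2.1, r.2.2]
  have h1 := (ht.eqv2_iff 0 1 2 3 4 5 6 7).1 h
  have h2 := (ht.eqv2_iff 4 5 6 7 8 9 10 11).1 h'
  have h3 := ht.eqv2_iff 0 1 2 3 8 9 10 11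
  rw [Eqv2_Y] at h1 h2 h3
  exact h3.2 (h1.trans h2)

lemma Eqv2_congr {p q p' q' : C1 N} (h : Eqv1 p p') (h' : Eqv1 q q') :
    Eqv2 (p, q) (p', q') := by
  obtain ⟨t, ht⟩ := exists_sameDiag (L := LL) Y ![p.1, p.2, q.1, q.2, p'.1, p'.2, q'.1, q'.2]
  have h1 := (ht.eqv1_iff 0 1 4 5).1 h
  have h2 := (ht.eqv1_iff 2 3 6 7).1 h'
  rw [Eqv1_Y] at h1 h2
  have h3 := ht.eqv2_iff 0 1 2 3 4 5 6 7
  rw [Eqv2_Y] at h3
  exact h3.2 (by rw [V2, V2]; simp only [h1, h2])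

lemma Eqv2_comm (p q : C1 N) : Eqv2 (p, q) (q, p) := by
  obtain ⟨t, ht⟩ := exists_sameDiag (L := LL) Y ![p.1, p.2, q.1, q.2]
  have h3 := ht.eqv2_iff 0 1 2 3 2 3 0 1
  rw [Eqv2_Y] at h3
  exact h3.2 (DD_comm _ _)

lemma Eqv2_refl (p : C2 N) : Eqv2 p p := (Eqv2_comm p.1 p.2).trans (Eqv2_comm p.2 p.1)

lemma Eqv2_self (p q : C1 N) : Eqv2 (p, p) (q, q) := by
  obtain ⟨t, ht⟩ := exists_sameDiag (L := LL) Y ![p.1, p.2, q.1, q.2]
  have h3 := ht.eqv2_iff 0 1 0 1 2 3 2 3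
  rw [Eqv2_Y] at h3
  exact h3.2 (by rw [V2, V2, DD_self, DD_self])

lemma Eqv2_degenerate (p q : C1 N) (a : N) : Eqv2 (p, (a, a)) (q, q) := by
  obtain ⟨t, ht⟩ := exists_sameDiag (L := LL) Y ![p.1, p.2, a, q.1, q.2]
  have h3 := ht.eqv2_iff 0 1 2 2 3 4 3 4
  rw [Eqv2_Y] at h3
  refine h3.2 ?_
  rw [V2, V2, DD_self]
  have : V1 (t 2, t 2) = ⊤ := v_self _
  show DD (V1 (t 0, t 1)) (V1 (t 2, t 2)) = ⊤
  rw [this, DD_top_right]

lemma Eqv2_ultra {p q : C1 N} {a b : N} (hne : a ≠ b) (h : Lt2 (p, q) (q, (a, b))) :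
    Eqv2 (p, (a, b)) (p, q) := by
  obtain ⟨t, ht⟩ := exists_sameDiag (L := LL) Y ![p.1, p.2, q.1, q.2, a, b]
  have h0 : t 4 ≠ t 5 := fun hc => hne ((ht.1 4 5).2 hc)
  have h1 := (ht.lt2_iff 0 1 2 3 2 3 4 5).1 h
  rw [Lt2_Y] at h1
  have h3 := ht.eqv2_iff 0 1 4 5 0 1 2 3
  rw [Eqv2_Y] at h3
  refine h3.2 (DD_ultra ?_ h1)
  rw [Ne, V1_eq_top_iff]
  exact h0

end

section embed

variable {N : Type*} [LL.Structure N] (f : Y ↪ₑ[LL] N)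

lemma sameDiag_map {ι : Type*} (s : ι → Y) : SameDiag LL (fun i => f (s i)) s := by
  refine ⟨fun i j => f.injective.eq_iff, fun n R w => ?_⟩
  exact f.map_rel R (s ∘ w)

lemma Lt0_map (a b : Y) : Lt0 (f a) (f b) ↔ a < b := by
  rw [← Lt0_Y]
  exact (sameDiag_map f ![a, b]).lt0_iff 0 1

lemma Lt1_map (a b c d : Y) :
    Lt1 (f a, f b) (f c, f d) ↔ V1 (a, b) < V1 (c, d) := by
  rw [← Lt1_Y]
  exact (sameDiag_map f ![a, b, c, d]).lt1_iff 0 1 2 3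

lemma Eqv1_map (a b c d : Y) :
    Eqv1 (f a, f b) (f c, f d) ↔ V1 (a, b) = V1 (c, d) := by
  rw [← Eqv1_Y]
  exact (sameDiag_map f ![a, b, c, d]).eqv1_iff 0 1 2 3

lemma Lt2_map (a b c d a' b' c' d' : Y) :
    Lt2 ((f a, f b), (f c, f d)) ((f a', f b'), (f c', f d')) ↔
      V2 ((a, b), (c, d)) < V2 ((a', b'), (c', d')) := by
  rw [← Lt2_Y]
  exact (sameDiag_map f ![a, b, c, d, a', b', c', d']).lt2_iff 0 1 2 3 4 5 6 7

lemma Eqv2_map (a b c d a' b' c' d' : Y) :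
    Eqv2 ((f a, f b), (f c, f d)) ((f a', f b'), (f c', f d')) ↔
      V2 ((a, b), (c, d)) = V2 ((a', b'), (c', d')) := by
  rw [← Eqv2_Y]
  exact (sameDiag_map f ![a, b, c, d, a', b', c', d']).eqv2_iff 0 1 2 3 4 5 6 7

end embed

end Pool.Agent.Helper1.DP
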